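import Pool.Agent.TWB.St2

/-!
# TWB: the units of the ring of Laurent polynomials (module Uni)
-/

set_option autoImplicit false

namespace Pool.Agent.TWB

open LaurentPolynomial Pool.Agent.Helper1.PK Pool.Agent.Per

theorem thm_Uni : St_Uni := by
  intro u hu
  obtain ⟨v, hv⟩ := hu.exists_right_inv
  obtain ⟨n, P, hP⟩ := exists_T_pow u
  obtain ⟨m, Q, hQ⟩ := exists_T_pow v
  have h1 : P * Q = Polynomial.X ^ (n + m) := by
    apply Polynomial.toLaurent_injective
    rw [map_mul, hP, hQ, Polynomial.toLaurent_X_pow]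
    have h2 : u * T n * (v * T m) = (u * v) * (T n * T m) := by ring
    rw [h2, hv, one_mul, ← T_add]
    push_cast
    rfl
  have h3 : P ∣ Polynomial.X ^ (n + m) := ⟨Q, h1.symm⟩
  rw [dvd_prime_pow Polynomial.prime_X] at h3
  obtain ⟨i, -, hi⟩ := h3
  obtain ⟨w, hw⟩ := hi.symm
  obtain ⟨r, hr, hrw⟩ := Polynomial.isUnit_iff.1 w.isUnit
  obtain ⟨ε, rfl⟩ := hr
  refine ⟨(i : ℤ) - n, ε, ?_⟩
  have h4 : u = u * T n * T (-n) := by
    rw [mul_assoc, ← T_add, add_neg_cancel, T_zero, mul_one]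
  rw [h4, ← hP, ← hw, ← hrw, map_mul, Polynomial.toLaurent_X_pow, Polynomial.toLaurent_C]
  rw [sub_eq_add_neg, T_add]
  ring

end Pool.Agent.TWB
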