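import Pool.Agent.TWB.St

/-!
# TWB: statements, second part (trace formula, coefficients, main theorem)
-/

set_option autoImplicit false

namespace Pool.Agent.TWB

open LaurentPolynomial Pool.Agent.Helper1.PK Pool.Agent.Per

/-- every place occurs -/
def Full {n : ℕ} (L : List (Fin n)) : Prop := ∀ i : Fin n, i ∈ L

/-- MI.  The trace formula.

Proof.  `Per.annular_eval` and `Per.transfer Per.stateThm Per.cyc (RingHom.id RR) z w`, `z = -AA^2`, `z + z⁻¹ = -T 2 - T (-2)`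
(compare `B4.bracket_trace`, `B4.z_add`): `(-T 2 - T (-2)) * bracket w = trace (twist z n * wordM id w)`.  `wordM` is the product of
the `letterM` over the list `(range N).map w = (full twists) ++ L`.  `V = Vm AA n`, `C` its inverse (SPN).  By BR the
columns of `wordM * V` are the restrictions of `FT^k (WL L (vL σ))` (`WL (fullTwist n κ) f = FT AA κ.sgn (n+1) f`: both are `n + 1`
times the sweep over the places `0, …, n-1`).  `twist z n * V = V * diagonal (z ^ sm σ)` (VAL (3), `spin ε = sm (lst ε)`).  So the trace is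
`∑_σ z^(sm σ) (C wordM V)_σσ`, and `(C wordM V)_σσ` is the coefficient of `vL σ` in `FT^k (WL L (vL σ))`.  By PW and TWA (2), (3)
`FT^k (WL L (vL σ)) = T^s ω^k ∑_τ p_τσ vL τ + low`, `s` the sum of the signs, `p_τσ ≠ 0` only for `mm τ = mm σ`
(CN (1)), `ω = T^(κ (m² + 2m - 3 (n+1)))`, and an element of `Low AA (n+1) (mm σ)` is a combination of the `vL τ`,
`mm τ < mm σ`, so it has the coefficient `0` at `vL σ`.  The interval of `a` by CN (1). -/
def St_Mi : Prop := ∀ (N n k : ℕ) [NeZero N] (w : ZMod N → Letter n) (κ : Helper1.PK.Kind) (e : ℤ)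
  (L : List (Letter n)), κ ≠ .turn → (e = 1 ∨ e = -1) → AltE e L →
  (List.range N).map (fun i : ℕ => w (i : ZMod N)) =
    (List.replicate k (fullTwist n κ)).flatten ++ L →
  (-T 2 - T (-2)) * bracket w = ∑ σ : Spin n,
    ∑ a ∈ Finset.Icc (-(od (L.map Letter.place) : ℤ)) (ev (L.map Letter.place)),
      C ((((-1 : ℤˣ) ^ (sm (lst σ) + a) : ℤˣ) : ℤ) * (cnt (L.map Letter.place) σ σ a : ℤ)) *
        T ((L.map fun l => l.kind.sgn).sum + 2 * sm (lst σ) +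
          κ.sgn * k * ((mm (lst σ) : ℤ) ^ 2 + 2 * mm (lst σ) - 3 * (n + 1)) - 4 * e * a)

/-- what is proved about the coefficients `cf`: the extreme one is not `0`, and the next one
(distance `4`) has not the same sign -/
def CfOK {n : ℕ} (L : List (Fin n)) (e c : ℤ) (k : ℕ) : Prop :=
  ∃ D₀ : ℤ, (∀ D : ℤ, c * D < c * D₀ → cf L e c k D = 0) ∧ cf L e c k D₀ ≠ 0 ∧
    cf L e c k D₀ * cf L e c k (D₀ + 4 * c) ≤ 0

/-- CF1.  `n` odd (an even number of strands), `c = 1`.  `D₀ = -4 P`, `P = ev L`.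

Proof.  `m = mm σ` is even, `|sm σ| ≤ m`, `a ≤ P` if `cnt L σ σ a ≠ 0`: the exponent
`2 e λ + k (m² + 2m) - 4 a` is `≥ k m² + 2 m (k-1) - 4 a ≥ -4 P`, with equality only for `m = 0`, `a = P`: `cf D₀ = (-1)^P`
(exactly one `σ` with `AllE`, it has `mm = 0`; CN (2), `L` contains all places).  `D₀ + 4`: `m = 0`, `a = P - 1`, or
`m ≥ 2`: then `a ≤ P - 1` (not `AllE`) and the exponent is `≥ -4 P + 4 + k m² > -4 P + 4`.  So
`cf (D₀ + 4) = -(-1)^P ∑_{mm σ = 0} cnt L σ σ (P - 1)`. -/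
def St_Cf1 : Prop := ∀ (n : ℕ) (L : List (Fin n)) (e : ℤ) (k : ℕ), 2 ≤ n → n % 2 = 1 → Full L →
  (e = 1 ∨ e = -1) → 1 ≤ k → CfOK L e 1 k

/-- CF2.  `n` even, `c = 1`.  `D₀ = 3 k - 2 - 4 P`.

Proof.  `m` is odd.  The exponent is `≥ k m² + 2 m (k - 1) - 4 a`; for `m ≥ 3` this is `≥ 9 k - 4 a`.  `m = 1`:
`3 k + 2 e λ - 4 a`, `e λ = ± 1`.  So nothing below `D₀`; at `D₀`: `m = 1`, `e λ = -1`, `a = P`: one `σ` (TOP), `cf D₀ = -(-1)^P`.
`D₀ + 4 = 3 k + 2 - 4 P`: `m = 1`, `e λ = 1`, `a = P`: one `σ`, contribution `-(-1)^P`; `m = 1`, `e λ = -1`, `a = P - 1`: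
contribution `(-1)^P S`, `S = ∑_{mm = 1, sm = -e} cnt L σ σ (P - 1) ≥ 1` (EX1); `m ≥ 3`: `a ≤ P - 1`, exponent
`≥ 9 k - 4 P + 4 > D₀ + 4`.  The product is `-(S - 1) ≤ 0`. -/
def St_Cf2 : Prop := ∀ (n : ℕ) (L : List (Fin n)) (e : ℤ) (k : ℕ), 2 ≤ n → n % 2 = 0 → Full L →
  (e = 1 ∨ e = -1) → 1 ≤ k → CfOK L e 1 k

/-- CF3.  `n` even, `c = -1`.  `D₀ = 2 - 3 k + 4 Q`, `Q = od L`.

Proof.  The exponent is `2 e λ - k (m² + 2 m) - 4 a ≤ -k m² - 2 m (k-1) - 4 a`, `a ≥ -Q`; `m ≥ 3`: `≤ -9 k + 4 Q < D₀`.  `m = 1`: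
`2 e λ - 3 k - 4 a ≤ D₀`, equality for `e λ = 1`, `a = -Q`: one `σ`, `cf D₀ = -(-1)^Q`.  `D₀ - 4`: `m = 1`, `e λ = -1`, `a = -Q`: `-(-1)^Q`;
`m = 1`, `e λ = 1`, `a = -Q + 1`: `(-1)^Q S`, `S ≥ 1` (EX2); `m ≥ 3`: not `AllO`, `a ≥ -Q + 1`,
`≤ -9 k + 4 Q - 4 < D₀ - 4`.  The product is `1 - S ≤ 0`. -/
def St_Cf3 : Prop := ∀ (n : ℕ) (L : List (Fin n)) (e : ℤ) (k : ℕ), 2 ≤ n → n % 2 = 0 → Full L →
  (e = 1 ∨ e = -1) → 1 ≤ k → CfOK L e (-1) k

/-- CF4.  `n` odd, `c = -1`.  `D₀ = 4 Q`.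

Proof.  `m` even; exponent `≤ -k m² - 2 m (k-1) - 4 a`.  At `D₀`: `m = 0`, `a = -Q`: the one `σ` with `AllO` and `mm = 0`:
`cf D₀ = (-1)^Q`; nothing above.  `D₀ - 4`: `m = 0`, `a = -Q + 1`: `-(-1)^Q S`, `S ≥ 1` (EX2 with `x = 0`; `mm = 0` implies
`sm = 0`).  `m = 2`, `a = -Q`: `2 e λ - 8 k = -4` only for `k = 1`, `e λ = 2`: one `σ` (`AllO`, `sm = 2 e`), contribution
`(-1)^Q`; `m = 2`, `a ≥ -Q + 1`: exponent `≤ 4 - 8 k + 4 Q - 4 < 4 Q - 4`; `m ≥ 4`: `≤ -16 k + 4 Q`.  The product is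
`-S + [k = 1] ≤ 0`. -/
def St_Cf4 : Prop := ∀ (n : ℕ) (L : List (Fin n)) (e : ℤ) (k : ℕ), 2 ≤ n → n % 2 = 1 → Full L →
  (e = 1 ∨ e = -1) → 1 ≤ k → CfOK L e (-1) k

/-- UNI.  The units of the ring of Laurent polynomials.

Proof.  `u v = 1`; the lowest and the highest exponents of `u`, `v` add up (`ℤ` is a domain), so both are monomials
`C a * T j`, and `a` is a unit of `ℤ`.  (Or: multiply by powers of `T` to get polynomials, `P Q = X ^ m`, so `P` is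
associated to a power of the prime `X`.) -/
def St_Uni : Prop := ∀ u : RR, IsUnit u → ∃ (j : ℤ) (ε : ℤˣ), u = C ((ε : ℤˣ) : ℤ) * T j

/-- BN.  The bracket is not a unit.

Proof.  Suppose `bracket w = C ε * T j`.  `E = (sum of the signs of L) - 3 (n+1) κ.sgn k`, `c = e κ.sgn`; `e² = 1`, so the exponent in
MI is `E + e (2 e λ + c k (m² + 2 m) - 4 a)`: for every `D` the coefficient of `T (E + e D)` of the right side of MI is
`cf L e c k D`, that of the left side `- ε ([E + e D = j + 2] + [E + e D = j - 2])`.  With `M = e (j - E)`: `cf D = -ε` for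
`D = M ± 2` and `0` for all other `D`.  `CfOK` (for `c = 1` or `-1`): `D₀ = M - 2 c`, and then
`cf D₀ * cf (D₀ + 4 c) = ε² = 1 > 0`. -/
def St_Bn : Prop := ∀ (N n k : ℕ) [NeZero N] (w : ZMod N → Letter n) (κ : Helper1.PK.Kind) (e : ℤ)
  (L : List (Letter n)), 2 ≤ n → 1 ≤ k → κ ≠ .turn → (e = 1 ∨ e = -1) → AltE e L →
  Full (L.map Letter.place) →
  (List.range N).map (fun i : ℕ => w (i : ZMod N)) =
    (List.replicate k (fullTwist n κ)).flatten ++ L → ¬ IsUnit (bracket w)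

/-- The word `L` is alternating: it has no turnbacks, and two letters have the same sign if and
only if their places have the same parity. -/
def Alternating {n : ℕ} (L : List (Letter n)) : Prop :=
  ∀ l ∈ L, l.kind ≠ .turn ∧ ∀ l' ∈ L, (l.kind = l'.kind ↔ ((l.place : ℕ) + l'.place) % 2 = 0)

/-- MAIN.  Full twists times alternating braids.

Proof.  `Alternating L` and `L ≠ []` give `AltE e L` for `e = sgn (l) * pr (place l)` of the first letter `l`.  `normalized w o` is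
a unit times `bracket w`. -/
def St_Main : Prop := ∀ (N n k : ℕ) [NeZero N] (w : ZMod N → Letter n) (κ : Helper1.PK.Kind)
  (L : List (Letter n)) (o : Pt N n → ℤˣ), 2 ≤ n → 1 ≤ k → κ ≠ .turn → Alternating L →
  (∀ i : Fin n, ∃ l ∈ L, l.place = i) →
  (List.range N).map (fun i : ℕ => w (i : ZMod N)) =
    (List.replicate k (fullTwist n κ)).flatten ++ L → ¬ IsUnit (normalized w o)

end Pool.Agent.TWB
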