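import Pool.Agent.TWB.St

/-!
# TWB [Act]: the generators on the basis
-/

set_option autoImplicit false

namespace Pool.Agent.TWB

open LaurentPolynomial Pool.Agent.Helper1.PK Pool.Agent.Per

section

variable {B : Type} [CommRing B] (A : Bˣ)

theorem act_eL (i : ℕ) : ∀ (u : List ℤˣ) (f : Ten B) (x y : ℤˣ) (w : List ℤˣ), u.length = i →
    eL A i f (u ++ x :: y :: w) = cup2 A x y * ∑ t : ℤˣ, cap1 A t * f (u ++ t :: -t :: w) := by
  induction i with
  | zero =>
    intro u f x y w hu
    rw [List.length_eq_zero_iff] at hu
    subst hu
    simp [eL]
  | succ i ih =>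
    intro u f x y w hu
    match u, hu with
    | z :: u', hu =>
      have h1 : u'.length = i := by simpa using hu
      have h2 := ih u' (fun e' => f (z :: e')) x y w h1
      simpa [eL] using h2

theorem act_eL_short (i : ℕ) : ∀ (f : Ten B) (e : List ℤˣ), e.length < i + 2 → eL A i f e = 0 := by
  induction i with
  | zero =>
    intro f e he
    match e, he with
    | [], _ => simp [eL]
    | [x], _ => simp [eL]
    | x :: y :: e', he => simp at he
  | succ i ih =>
    intro f e he
    match e, he with
    | [], _ => simp [eL]
    | z :: e', he =>
      have h1 : e'.length < i + 2 := by simpa using he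
      have h2 := ih (fun e' => f (z :: e')) e' h1
      simpa [eL] using h2

theorem act_cupL (i : ℕ) : ∀ (u : List ℤˣ) (f : Ten B) (x y : ℤˣ) (w : List ℤˣ), u.length = i →
    cupL A i f (u ++ x :: y :: w) = cup2 A x y * f (u ++ w) := by
  induction i with
  | zero =>
    intro u f x y w hu
    rw [List.length_eq_zero_iff] at hu
    subst hu
    simp [cupL]
  | succ i ih =>
    intro u f x y w hu
    match u, hu with
    | z :: u', hu =>
      have h1 : u'.length = i := by simpa using hu
      have h2 := ih u' (fun e' => f (z :: e')) x y w h1
      simpa [cupL] using h2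

theorem act_cupL_short (i : ℕ) : ∀ (f : Ten B) (e : List ℤˣ), e.length < i + 2 →
    cupL A i f e = 0 := by
  induction i with
  | zero =>
    intro f e he
    match e, he with
    | [], _ => simp [cupL]
    | [x], _ => simp [cupL]
    | x :: y :: e', he => simp at he
  | succ i ih =>
    intro f e he
    match e, he with
    | [], _ => simp [cupL]
    | z :: e', he =>
      have h1 : e'.length < i + 2 := by simpa using he
      have h2 := ih (fun e' => f (z :: e')) e' h1
      simpa [cupL] using h2

end

theorem act_split (i : ℕ) : ∀ e : List ℤˣ, i + 2 ≤ e.length →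
    ∃ (u : List ℤˣ) (x y : ℤˣ) (w : List ℤˣ), u.length = i ∧ e = u ++ x :: y :: w := by
  induction i with
  | zero =>
    intro e he
    match e, he with
    | [], he => simp at he
    | [x], he => simp at he
    | x :: y :: w, _ => exact ⟨[], x, y, w, rfl, rfl⟩
  | succ i ih =>
    intro e he
    match e, he with
    | [], he => simp at he
    | z :: e', he =>
      have h1 : i + 2 ≤ e'.length := by
        have h2 : i + 1 + 2 ≤ e'.length + 1 := by simpa using he
        omega
      obtain ⟨u, x, y, w, hu, he'⟩ := ih e' h1
      exact ⟨z :: u, x, y, w, by simp [hu], by simp [he']⟩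

/-- a sequence `- ⋯ - + ⋯ +` with `x`, `y` in the middle -/
theorem act_mid (a b : ℕ) : ∀ (u : List ℤˣ) (x y : ℤˣ) (w : List ℤˣ),
    u ++ x :: y :: w = List.replicate a (-1) ++ List.replicate b 1 →
    (x = 1 → y = 1) ∧ (x = -1 → y = 1 → a = u.length + 1 ∧ ∃ b', b = b' + 1 ∧
      u = List.replicate u.length (-1) ∧ w = List.replicate b' 1) := by
  induction a with
  | zero =>
    intro u x y w h
    rw [List.replicate_zero, List.nil_append] at h
    have h1 : ∀ z ∈ u ++ x :: y :: w, z = 1 := by
      rw [h]
      intro z hz
      exact (List.mem_replicate.1 hz).2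
    have hx : x = 1 := h1 x (by simp)
    have hy : y = 1 := h1 y (by simp)
    refine ⟨fun _ => hy, fun h2 => ?_⟩
    rw [hx] at h2
    exact absurd h2 (by decide)
  | succ a ih =>
    intro u x y w h
    match u with
    | [] =>
      rw [List.nil_append, List.replicate_succ, List.cons_append, List.cons.injEq] at h
      obtain ⟨h1, h2⟩ := h
      refine ⟨fun h3 => absurd (h1.symm.trans h3) (by decide), fun _ hy => ?_⟩
      subst hy
      match a with
      | 0 =>
        rw [List.replicate_zero, List.nil_append] at h2
        match b, h2 with
        | 0, h2 => simp at h2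
        | b' + 1, h2 =>
          rw [List.replicate_succ, List.cons.injEq] at h2
          exact ⟨rfl, b', rfl, rfl, h2.2⟩
      | a' + 1 =>
        rw [List.replicate_succ, List.cons_append, List.cons.injEq] at h2
        exact absurd h2.1 (by decide)
    | z :: u' =>
      rw [List.cons_append, List.replicate_succ, List.cons_append, List.cons.injEq] at h
      obtain ⟨h1, h2⟩ := h
      obtain ⟨h3, h4⟩ := ih u' x y w h2
      refine ⟨h3, fun hx hy => ?_⟩
      obtain ⟨h5, b', h6, h7, h8⟩ := h4 hx hy
      refine ⟨by simp [h5], b', h6, ?_, h8⟩
      rw [List.length_cons, List.replicate_succ, ← h7, h1]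

theorem act_sm (a b : ℕ) : sm (List.replicate a (-1) ++ List.replicate b 1) = (b : ℤ) - a := by
  unfold sm
  rw [List.map_append, List.sum_append, List.map_replicate, List.map_replicate,
    List.sum_replicate, List.sum_replicate]
  simp
  ring

theorem thm_Act (h1 : St_Rel) (h2 : St_Val) (h3 : St_Cmb) : St_Act := by
  intro B _ A s
  obtain ⟨R1, R2, R3, R4, R5, R6, R7⟩ := h1 B A
  obtain ⟨V1, V2, V3, V4⟩ := h2 B A
  obtain ⟨C1, C2, C3, C4, C5, C6, C7, C8, C9⟩ := h3
  have cup0 : ∀ j : ℕ, cupL A j (0 : Ten B) = 0 := by
    intro j
    have h := (R2 j 1 0 0).1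
    rw [smul_zero, add_zero, one_smul] at h
    exact left_eq_add.1 h
  have cups : ∀ (j : ℕ) (b : B) (f : Ten B), cupL A j (b • f) = b • cupL A j f := by
    intro j b f
    have h := (R2 j b f 0).1
    rwa [add_zero, cup0, add_zero] at h
  have main : ∀ (k : ℕ) (s : List ℤˣ), s.length = k → ∀ i : ℕ, i + 2 ≤ s.length →
      (Jn i s → eL A i (vL A s) = loopv A • vL A s) ∧
      (¬ Jn i s → eL A i (vL A s) = 0 ∨
        ∃ t : List ℤˣ, i ≤ t.length ∧ t.length + 2 = s.length ∧ sm t = sm s ∧
          ((eL A i (vL A s) = vL A (ins i t) ∧ mm t = mm s ∧
              po true (ins i t) = po true s + pr i) ∨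
            (mm t + 2 = mm s ∧ ∃ c : B, eL A i (vL A s) = c • vL A (ins i t)))) := by
    intro k
    induction k using Nat.strong_induction_on with
    | _ k ih =>
    intro s hs i hi
    rcases C1 s with ⟨j, hj⟩ | ⟨a, b, hab⟩
    · -- `s = ins j t`
      obtain ⟨t, hjt, rfl⟩ := id hj
      obtain ⟨hl, hmm, hsm, hpo⟩ := C2 j t hjt
      rw [V1 j t hjt]
      rw [hl] at hi hs
      have htk : t.length < k := by omega
      rcases lt_trichotomy i j with hij | hij | hij
      · rcases Nat.lt_or_ge (i + 1) j with hij2 | hij2
        · -- `j = i + 2 + l`
          obtain ⟨l, rfl⟩ : ∃ l, j = i + 2 + l := ⟨j - i - 2, by omega⟩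
          have hJ := C8 i l t hjt
          obtain ⟨IH1, IH2⟩ := ih t.length htk t rfl i (by omega)
          rw [R7]
          refine ⟨fun h => ?_, fun h => ?_⟩
          · rw [IH1 (hJ.1 h), cups]
          · rcases IH2 (fun hh => h (hJ.2 hh)) with h0 | ⟨t', ht1, ht2, ht3, ht4⟩
            · left
              rw [h0, cup0]
            · right
              have hil : i + l ≤ t'.length := by omega
              obtain ⟨k1, k2, k3, k4⟩ := C2 (i + l) t' hil
              obtain ⟨q1, q2, q3, q4⟩ := C2 i t' ht1
              obtain ⟨r1, r2, r3, r4⟩ := C2 (i + l + 2) (ins i t') (by omega)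
              have hcomm := C9 i (i + l) t' (by omega) hil
              have hidx : i + 2 + l = i + l + 2 := by ring
              refine ⟨ins (i + l) t', by omega, by omega, by rw [k3, ht3, hsm], ?_⟩
              rcases ht4 with ⟨g1, g2, g3⟩ | ⟨g1, c, g2⟩
              · left
                refine ⟨?_, by rw [k2, g2, hmm], ?_⟩
                · rw [g1, hidx, ← V1 (i + l + 2) (ins i t') (by omega), hcomm]
                · rw [← hcomm, r4, g3, hpo]
                  have hpar : (i + l + 2) % 2 = (i + 2 + l) % 2 := by rw [hidx]
                  rw [hpar]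
                  ring
              · right
                refine ⟨by rw [k2, hmm]; exact g1, c, ?_⟩
                rw [g2, cups, hidx, ← V1 (i + l + 2) (ins i t') (by omega), hcomm]
        · -- `j = i + 1`
          have hj1 : j = i + 1 := by omega
          subst hj1
          have hnJ : ¬ Jn i (ins (i + 1) t) := fun h => C6 i _ h hj
          refine ⟨fun h => absurd h hnJ, fun _ => Or.inr ?_⟩
          obtain ⟨k1, k2, k3, k4⟩ := C2 i t (by omega)
          refine ⟨t, by omega, hl.symm, hsm.symm, Or.inl ⟨?_, hmm.symm, ?_⟩⟩
          · rw [R5 t.length i (vL A t) (V2 t) hjt, V1 i t (by omega)]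
          · rw [k4, hpo]
            unfold pr
            rcases Nat.mod_two_eq_zero_or_one i with hp | hp
            · rw [if_pos hp, if_neg (by omega), if_pos hp]
              ring
            · rw [if_neg (by omega), if_pos (by omega), if_neg (by omega)]
              ring
      · subst hij
        refine ⟨fun _ => R3 i (vL A t), fun h => absurd hj h⟩
      · rcases Nat.lt_or_ge (j + 1) i with hij2 | hij2
        · -- `i = j + 2 + l`
          obtain ⟨l, rfl⟩ : ∃ l, i = j + 2 + l := ⟨i - j - 2, by omega⟩
          have hJ := C7 j l t hjt
          obtain ⟨IH1, IH2⟩ := ih t.length htk t rfl (j + l) (by omega)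
          rw [R6]
          refine ⟨fun h => ?_, fun h => ?_⟩
          · rw [IH1 (hJ.1 h), cups]
          · rcases IH2 (fun hh => h (hJ.2 hh)) with h0 | ⟨t', ht1, ht2, ht3, ht4⟩
            · left
              rw [h0, cup0]
            · right
              have hjl : j ≤ t'.length := by omega
              obtain ⟨k1, k2, k3, k4⟩ := C2 j t' hjl
              obtain ⟨q1, q2, q3, q4⟩ := C2 (j + l) t' ht1
              obtain ⟨r1, r2, r3, r4⟩ := C2 j (ins (j + l) t') (by omega)
              have hcomm := C9 j (j + l) t' (by omega) ht1
              have hidx : j + 2 + l = j + l + 2 := by ring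
              refine ⟨ins j t', by omega, by omega, by rw [k3, ht3, hsm], ?_⟩
              rw [hidx, hcomm]
              rcases ht4 with ⟨g1, g2, g3⟩ | ⟨g1, c, g2⟩
              · left
                refine ⟨?_, by rw [k2, g2, hmm], ?_⟩
                · rw [g1, ← V1 j (ins (j + l) t') (by omega)]
                · rw [r4, g3, hpo]
                  have hpar : pr (j + l + 2) = pr (j + l) := by
                    unfold pr
                    rw [Nat.add_mod_right]
                  rw [hpar]
                  ring
              · right
                refine ⟨by rw [k2, hmm]; exact g1, c, ?_⟩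
                rw [g2, cups, ← V1 j (ins (j + l) t') (by omega)]
        · -- `i = j + 1`
          have hi1 : i = j + 1 := by omega
          subst hi1
          have hnJ : ¬ Jn (j + 1) (ins j t) := C6 j _ hj
          refine ⟨fun h => absurd h hnJ, fun _ => Or.inr ?_⟩
          obtain ⟨k1, k2, k3, k4⟩ := C2 (j + 1) t (by omega)
          refine ⟨t, by omega, hl.symm, hsm.symm, Or.inl ⟨?_, hmm.symm, ?_⟩⟩
          · rw [R4, V1 (j + 1) t (by omega)]
          · rw [k4, hpo]
            unfold pr
            rcases Nat.mod_two_eq_zero_or_one j with hp | hp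
            · rw [if_neg (by omega), if_pos hp, if_neg (by omega)]
              ring
            · rw [if_pos (by omega), if_neg (by omega), if_pos (by omega)]
              ring
    · -- `s = - ⋯ - + ⋯ +`
      subst hab
      have hV := V4 a b
      have hnJ : ¬ Jn i (List.replicate a (-1) ++ List.replicate b 1) := by
        intro h
        obtain ⟨u, w, hu, huw⟩ := (C5 i _).1 h
        have h4 := (act_mid a b u 1 (-1) w huw.symm).1 rfl
        exact absurd h4 (by decide)
      refine ⟨fun h => absurd h hnJ, fun _ => ?_⟩
      by_cases hc : a = i + 1 ∧ ∃ b', b = b' + 1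
      · right
        obtain ⟨ha, b', hb⟩ := hc
        subst ha hb
        refine ⟨List.replicate i (-1) ++ List.replicate b' 1, by simp, by simp; omega, ?_,
          Or.inr ⟨?_, cap1 A (-1), ?_⟩⟩
        · rw [act_sm, act_sm]
          push_cast
          ring
        · rw [C3, C3]
          ring
        · funext e
          rcases Nat.lt_or_ge e.length (i + 2) with he | he
          · rw [act_eL_short A i _ e he, Pi.smul_apply, V1 i _ (by simp),
              act_cupL_short A i _ e he, smul_zero]
          · obtain ⟨u, x, y, w, hu, rfl⟩ := act_split i e he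
            rw [act_eL A i u _ x y w hu, Pi.smul_apply, V1 i _ (by simp),
              act_cupL A i u _ x y w hu, V4, smul_eq_mul]
            have hsum : ∑ t : ℤˣ, cap1 A t * vL A (List.replicate (i + 1) (-1) ++
                List.replicate (b' + 1) 1) (u ++ t :: -t :: w) =
                cap1 A (-1) * (if u ++ w = List.replicate i (-1) ++ List.replicate b' 1 then 1
                  else 0) := by
              have hun : (Finset.univ : Finset ℤˣ) = {1, -1} := by decide
              rw [hun, Finset.sum_insert (by decide), Finset.sum_singleton, hV, hV, neg_neg]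
              have e1 : ¬ (u ++ (1 : ℤˣ) :: (-1 : ℤˣ) :: w =
                  List.replicate (i + 1) (-1) ++ List.replicate (b' + 1) 1) := by
                intro h
                exact absurd ((act_mid _ _ u 1 (-1) w h).1 rfl) (by decide)
              have e2 : (u ++ (-1 : ℤˣ) :: (1 : ℤˣ) :: w =
                  List.replicate (i + 1) (-1) ++ List.replicate (b' + 1) 1) ↔
                  u ++ w = List.replicate i (-1) ++ List.replicate b' 1 := by
                constructor
                · intro h
                  obtain ⟨_, b'', h5, h6, h7⟩ := (act_mid _ _ u (-1) 1 w h).2 rfl rfl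
                  have h8 : b'' = b' := by omega
                  subst h8
                  rw [hu] at h6
                  rw [h6, h7]
                · intro h
                  have h9 := List.append_inj h (by simp [hu])
                  rw [h9.1, h9.2, List.replicate_succ' (n := i), List.replicate_succ,
                    List.append_assoc]
                  rfl
              rw [if_neg e1, mul_zero, zero_add]
              congr 1
              by_cases h10 : u ++ w = List.replicate i (-1) ++ List.replicate b' 1
              · rw [if_pos h10, if_pos (e2.2 h10)]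
              · rw [if_neg h10, if_neg (fun h => h10 (e2.1 h))]
            rw [hsum]
            ring
      · left
        funext e
        rcases Nat.lt_or_ge e.length (i + 2) with he | he
        · rw [act_eL_short A i _ e he, Pi.zero_apply]
        · obtain ⟨u, x, y, w, hu, rfl⟩ := act_split i e he
          rw [act_eL A i u _ x y w hu]
          have hsum : ∑ t : ℤˣ, cap1 A t * vL A (List.replicate a (-1) ++
              List.replicate b 1) (u ++ t :: -t :: w) = 0 := by
            refine Finset.sum_eq_zero fun t _ => ?_
            rw [hV, if_neg, mul_zero]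
            intro h
            have h11 := act_mid _ _ u t (-t) w h
            rcases Int.units_eq_one_or t with ht | ht
            · subst ht
              exact absurd (h11.1 rfl) (by decide)
            · subst ht
              obtain ⟨h12, b', h13, _⟩ := h11.2 rfl (by rw [neg_neg])
              exact hc ⟨by rw [h12, hu], b', h13⟩
          rw [hsum, mul_zero, Pi.zero_apply]
  intro i hi
  exact main s.length s rfl i hi

end Pool.Agent.TWB
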