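import Pool.Agent.TWB.St2

/-!
# TWB: BN, the bracket is not a unit
-/

set_option autoImplicit false

namespace Pool.Agent.TWB

open LaurentPolynomial Pool.Agent.Helper1.PK Pool.Agent.Per

private theorem bn_coeff (c : ℤ) (k D : ℤ) : (C c * T k : RR).coeff D = if k = D then c else 0 := by
  rw [← single_eq_C_mul_T, AddMonoidAlgebra.coeff_single]
  exact Finsupp.single_apply

theorem thm_Bn (h1 : St_Mi) (h2 : St_Cf1) (h3 : St_Cf2) (h4 : St_Cf3) (h5 : St_Cf4)
    (h6 : St_Uni) : St_Bn := by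
  classical
  intro N n k _ w κ e L hn hk hκ he hA hF hw hu
  obtain ⟨j, ε, hj⟩ := h6 _ hu
  have hMi := h1 N n k w κ e L hκ he hA hw
  set L' : List (Fin n) := L.map Letter.place with hL'
  set s : ℤ := (L.map fun l => l.kind.sgn).sum with hs
  have hc : e * κ.sgn = 1 ∨ e * κ.sgn = -1 := by
    have : κ.sgn = 1 ∨ κ.sgn = -1 := by
      cases κ with
      | turn => exact absurd rfl hκ
      | pos => simp [Helper1.PK.Kind.sgn]
      | neg => simp [Helper1.PK.Kind.sgn]
    rcases he with rfl | rfl <;> rcases this with h | h <;> rw [h] <;> norm_num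
  have hOK : CfOK L' e (e * κ.sgn) k := by
    rcases Nat.mod_two_eq_zero_or_one n with hp | hp <;> rcases hc with h | h <;> rw [h]
    · exact h3 n L' e k hn hp hF he hk
    · exact h4 n L' e k hn hp hF he hk
    · exact h2 n L' e k hn hp hF he hk
    · exact h5 n L' e k hn hp hF he hk
  set E : ℤ := s - κ.sgn * k * (3 * (n + 1)) with hE
  have key : ∀ D : ℤ, cf L' e (e * κ.sgn) k D =
      (if j + 2 = E + e * D then -(ε : ℤ) else 0) + (if j - 2 = E + e * D then -(ε : ℤ) else 0) := by
    intro D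
    have h7 := congrArg (fun P : RR => P.coeff (E + e * D)) hMi
    rw [hj] at h7
    have h8 : (-T 2 - T (-2) : RR) * (C ((ε : ℤˣ) : ℤ) * T j) =
        C (-(ε : ℤ)) * T (j + 2) + C (-(ε : ℤ)) * T (j - 2) := by
      rw [T_add, T_sub]
      simp only [map_neg]
      ring
    rw [h8, AddMonoidAlgebra.coeff_add, Finsupp.add_apply, bn_coeff, bn_coeff] at h7
    rw [h7]
    unfold cf
    rw [AddMonoidAlgebra.coeff_sum, Finset.sum_apply']
    refine Finset.sum_congr rfl fun σ _ => ?_
    rw [AddMonoidAlgebra.coeff_sum, Finset.sum_apply']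
    refine Finset.sum_congr rfl fun a _ => ?_
    rw [bn_coeff]
    unfold term
    have he2 : e * e = 1 := by rcases he with rfl | rfl <;> norm_num
    have h9 : (s + 2 * sm (lst σ) + κ.sgn * k * ((mm (lst σ) : ℤ) ^ 2 + 2 * mm (lst σ) -
        3 * (n + 1)) - 4 * e * a = E + e * D) ↔
        (2 * e * sm (lst σ) + e * κ.sgn * k * ((mm (lst σ) : ℤ) ^ 2 + 2 * mm (lst σ)) - 4 * a
          = D) := by
      rw [hE]
      constructor
      · intro h
        linear_combination e * h + (D + 4 * a) * he2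
      · intro h
        linear_combination e * h - (2 * sm (lst σ) + κ.sgn * k * ((mm (lst σ) : ℤ) ^ 2 +
          2 * mm (lst σ))) * he2
    by_cases h10 : (2 * e * sm (lst σ) + e * κ.sgn * k * ((mm (lst σ) : ℤ) ^ 2 +
        2 * mm (lst σ)) - 4 * a = D)
    · rw [if_pos h10, if_pos (h9.2 h10)]
    · rw [if_neg h10, if_neg (fun h => h10 (h9.1 h))]
  obtain ⟨D₀, h7, h8, h9⟩ := hOK
  have hε : (ε : ℤ) * (ε : ℤ) = 1 := by
    rw [← Units.val_mul, Int.units_mul_self]
    rfl
  have hε0 : (ε : ℤ) ≠ 0 := Units.ne_zero ε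
  generalize e * κ.sgn = c at *
  have ke : ∀ D : ℤ, (j + 2 = E + e * D ∨ j - 2 = E + e * D) → cf L' e c k D = -(ε : ℤ) := by
    intro D hD
    rw [key D]
    rcases hD with hD | hD
    · rw [if_pos hD, if_neg (by omega), add_zero]
    · rw [if_neg (by omega), if_pos hD, zero_add]
  have kn : j + 2 = E + e * D₀ ∨ j - 2 = E + e * D₀ := by
    by_contra h
    push Not at h
    rw [key, if_neg h.1, if_neg h.2] at h8
    exact h8 (add_zero 0)
  have fin1 : ∀ D₁ : ℤ, c * D₁ < c * D₀ → (j + 2 = E + e * D₁ ∨ j - 2 = E + e * D₁) → False := by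
    intro D₁ h10 h11
    have h12 := h7 D₁ h10
    rw [ke D₁ h11] at h12
    exact hε0 (neg_eq_zero.1 h12)
  have fin2 : (j + 2 = E + e * (D₀ + 4 * c) ∨ j - 2 = E + e * (D₀ + 4 * c)) → False := by
    intro h10
    rw [ke D₀ kn, ke _ h10] at h9
    nlinarith
  rcases he with rfl | rfl <;> rcases hc with rfl | rfl <;> rcases kn with kn | kn
  · exact fin1 (D₀ - 4) (by omega) (by omega)
  · exact fin2 (by omega)
  · exact fin2 (by omega)
  · exact fin1 (D₀ + 4) (by omega) (by omega)
  · exact fin2 (by omega)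
  · exact fin1 (D₀ - 4) (by omega) (by omega)
  · exact fin1 (D₀ + 4) (by omega) (by omega)
  · exact fin2 (by omega)

end Pool.Agent.TWB
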