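import Pool.Agent.TWB.St
import Pool.Agent.Per.TL

/-!
# TWB: the matrices of the vertex model (module Br)
-/

set_option autoImplicit false

namespace Pool.Agent.TWB

open LaurentPolynomial Pool.Agent.Helper1.PK Pool.Agent.Per

theorem br_eL {B : Type} [CommRing B] (A : Bˣ) (u : List ℤˣ) (x y : ℤˣ) (w : List ℤˣ)
    (f : Ten B) : eL A u.length f (u ++ x :: y :: w) =
      cup2 A x y * ∑ t : ℤˣ, cap1 A t * f (u ++ t :: -t :: w) := by
  induction u generalizing f with
  | nil => simp [eL]
  | cons z u ih =>
    simp only [List.length_cons, List.cons_append, eL]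
    exact ih (fun e' => f (z :: e'))

theorem br_tlW {B : Type} [CommRing B] (A : Bˣ) (x t : ℤˣ) :
    tlW A x t = cup2 A x (-x) * cap1 A t := by
  have h : ((A ^ (2 : ℤ) : Bˣ) : B) * ((A ^ (-2 : ℤ) : Bˣ) : B) = 1 := by
    rw [← Units.val_mul, ← zpow_add]
    simp
  have hne : (-1 : ℤˣ) ≠ 1 := by decide
  rcases Int.units_eq_one_or x with rfl | rfl <;> rcases Int.units_eq_one_or t with rfl | rfl
  · rw [tlW_11]
    simp [cup2, cap1]
  · rw [tlW_12]
    simp only [cup2, cap1, if_true, if_neg hne]
    linear_combination -h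
  · rw [tlW_21]
    simp [cup2, cap1, hne]
  · rw [tlW_22]
    simp [cup2, cap1, hne]

theorem br_get {n : ℕ} (ε : Spin n) (j : ℕ) :
    (lst ε)[j]? = if h : j < n + 1 then some (ε ⟨j, h⟩) else none := by
  unfold lst
  exact List.getElem?_ofFn

theorem br_flip {n : ℕ} (a : Fin n) (t : ℤˣ) (ε : Spin n) :
    lst (tlFlip a t ε) =
      (lst ε).take (a : ℕ) ++ t :: -t :: (lst ε).drop ((a : ℕ) + 2) := by
  have hlen : (lst ε).length = n + 1 := by simp [lst]
  have ha := a.isLt
  have hu : ((lst ε).take (a : ℕ)).length = (a : ℕ) :=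
    List.length_take_of_le (by omega)
  apply List.ext_getElem?
  intro j
  rw [br_get]
  rcases lt_trichotomy j (a : ℕ) with h | h | h
  · rw [dif_pos (by omega), List.getElem?_append_left (by omega),
      List.getElem?_take_of_lt h, br_get, dif_pos (by omega), tlFlip_not_at]
    intro hat
    rcases hat with hat | hat
    · have := congrArg Fin.val hat
      simp at this
      omega
    · have := congrArg Fin.val hat
      simp at this
      omega
  · subst h
    rw [dif_pos (by omega), List.getElem?_append_right (by omega), hu, Nat.sub_self]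
    simp only [List.getElem?_cons_zero]
    congr 1
    exact tlFlip_left a t ε
  · by_cases h2 : j = (a : ℕ) + 1
    · subst h2
      rw [dif_pos (by omega), List.getElem?_append_right (by omega), hu]
      have e1 : (a : ℕ) + 1 - a = 1 := by omega
      rw [e1]
      simp only [List.getElem?_cons_succ, List.getElem?_cons_zero]
      congr 1
      exact tlFlip_right a t ε
    · rw [List.getElem?_append_right (by omega), hu]
      have e1 : j - (a : ℕ) = (j - (a + 2)) + 2 := by omega
      rw [e1]
      simp only [List.getElem?_cons_succ, List.getElem?_drop]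
      have e2 : (a : ℕ) + 2 + (j - (a + 2)) = j := by omega
      rw [e2, br_get]
      split_ifs with h3
      · rw [tlFlip_not_at]
        intro hat
        rcases hat with hat | hat
        · have := congrArg Fin.val hat
          simp at this
          omega
        · have := congrArg Fin.val hat
          simp at this
          omega
      · rfl

theorem br_self {n : ℕ} (a : Fin n) (ε : Spin n) :
    lst ε = (lst ε).take (a : ℕ) ++ ε a.castSucc :: ε a.succ :: (lst ε).drop ((a : ℕ) + 2) := by
  have hlen : (lst ε).length = n + 1 := by simp [lst]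
  have ha := a.isLt
  have h1 : (lst ε).drop (a : ℕ) = ε a.castSucc :: ε a.succ :: (lst ε).drop ((a : ℕ) + 2) := by
    have h3 : (a : ℕ) < (lst ε).length := by omega
    have h4 : (a : ℕ) + 1 < (lst ε).length := by omega
    rw [List.drop_eq_getElem_cons h3, List.drop_eq_getElem_cons h4]
    congr 1
    · simp only [lst, List.getElem_ofFn]
      rfl
    · congr 1
      simp only [lst, List.getElem_ofFn]
      rfl
  rw [← h1, List.take_append_drop]

theorem br_one {B : Type} [CommRing B] (A : Bˣ) {n : ℕ} (a : Fin n) (f : Ten B) :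
    (turnM A a).mulVec (fun ε => f (lst ε)) = fun ε => eL A (a : ℕ) f (lst ε) := by
  funext ε
  have hlen : (lst ε).length = n + 1 := by simp [lst]
  have ha := a.isLt
  have h1 : (turnM A a).mulVec (fun ε => f (lst ε)) ε =
      (turnM A a * (Matrix.of fun (ρ : Spin n) (_ : Spin n) => f (lst ρ))) ε ε := by
    rw [Matrix.mul_apply]
    rfl
  rw [h1, tlM_mul]
  have hu : ((lst ε).take (a : ℕ)).length = (a : ℕ) :=
    List.length_take_of_le (by omega)
  have h2 : eL A (a : ℕ) f (lst ε) = cup2 A (ε a.castSucc) (ε a.succ) *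
      ∑ t : ℤˣ, cap1 A t * f (lst (tlFlip a t ε)) := by
    have h3 := br_eL A ((lst ε).take (a : ℕ)) (ε a.castSucc) (ε a.succ)
      ((lst ε).drop ((a : ℕ) + 2)) f
    rw [hu, ← br_self] at h3
    rw [h3]
    congr 1
    refine Finset.sum_congr rfl fun t _ => ?_
    rw [br_flip]
  rw [h2]
  split_ifs with h
  · rw [h, Finset.mul_sum]
    refine Finset.sum_congr rfl fun t _ => ?_
    rw [br_tlW, mul_assoc]
    rfl
  · unfold cup2
    rw [if_neg h, zero_mul]

theorem br_AA (c : ℤ) : ((AA ^ c : RRˣ) : RR) = T c := by
  have h := unitA_zpow (RingHom.id RR) c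
  simpa using h

theorem thm_Br : St_Br := by
  refine ⟨fun B _ A n a f => br_one A a f, fun n l f hl => ?_⟩
  obtain ⟨a, k⟩ := l
  have hJ : ∀ F : Join → Matrix (Spin n) (Spin n) RR,
      ∑ k : Join, F k = F .straight + (F .swap + F .turn) := by
    intro F
    show ∑ k ∈ ({.straight, .swap, .turn} : Finset Join), F k = _
    rw [Finset.sum_insert (by decide), Finset.sum_insert (by decide), Finset.sum_singleton]
  have h0 := br_one AA a f
  unfold letterM
  rw [hJ]
  cases k with
  | pos =>
    simp only [weight, stepM, Kind.sgn, RingHom.id_apply, smul_zero, zero_add]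
    rw [Matrix.add_mulVec, Matrix.smul_mulVec, Matrix.smul_mulVec, Matrix.one_mulVec, h0]
    funext ε
    simp only [XL, br_AA, Pi.add_apply, Pi.smul_apply]
  | neg =>
    simp only [weight, stepM, Kind.sgn, RingHom.id_apply, smul_zero, zero_add]
    rw [Matrix.add_mulVec, Matrix.smul_mulVec, Matrix.smul_mulVec, Matrix.one_mulVec, h0]
    funext ε
    simp only [XL, br_AA, Pi.add_apply, Pi.smul_apply, neg_neg]
  | turn => exact absurd rfl hl

end Pool.Agent.TWB
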