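import Pool.Agent.TWB.St2

/-!
# TWB: CF1, an even number of strands, the twist is positive
-/

set_option autoImplicit false

namespace Pool.Agent.TWB

open LaurentPolynomial Pool.Agent.Helper1.PK Pool.Agent.Per

/-- the exponent of the contribution of `σ` and `a` -/
def cf1_E {n : ℕ} (e c : ℤ) (k : ℕ) (σ : Spin n) (a : ℤ) : ℤ :=
  2 * e * sm (lst σ) + c * k * ((mm (lst σ) : ℤ) ^ 2 + 2 * mm (lst σ)) - 4 * a

theorem cf1_sum0 {n : ℕ} {L : List (Fin n)} {e c : ℤ} {k : ℕ} {D : ℤ} {σ : Spin n}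
    (h : ∀ a : ℤ, cnt L σ σ a ≠ 0 → cf1_E e c k σ a ≠ D) :
    ∑ a ∈ Finset.Icc (-(od L : ℤ)) (ev L), term L e c k D σ a = 0 := by
  refine Finset.sum_eq_zero fun a _ => ?_
  unfold term
  split_ifs with h1
  · by_cases h2 : cnt L σ σ a = 0
    · rw [h2]; simp
    · exact absurd h1 (h a h2)
  · rfl

theorem cf1_sum1 (hC : St_Cn) {n : ℕ} {L : List (Fin n)} {e c : ℤ} {k : ℕ} {D : ℤ} {σ : Spin n}
    (a₀ : ℤ) (h : cf1_E e c k σ a₀ = D) :
    ∑ a ∈ Finset.Icc (-(od L : ℤ)) (ev L), term L e c k D σ a =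
      (((-1 : ℤˣ) ^ (sm (lst σ) + a₀) : ℤˣ) : ℤ) * (cnt L σ σ a₀ : ℤ) := by
  have h0 : ∀ a : ℤ, a ≠ a₀ → term L e c k D σ a = 0 := by
    intro a ha
    unfold term
    rw [if_neg]
    intro h1
    apply ha
    unfold cf1_E at h
    linarith
  by_cases h1 : a₀ ∈ Finset.Icc (-(od L : ℤ)) (ev L : ℤ)
  · rw [Finset.sum_eq_single a₀ (fun a _ ha => h0 a ha) (fun h2 => absurd h1 h2)]
    unfold term
    exact if_pos h
  · have h2 : cnt L σ σ a₀ = 0 := by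
      by_contra h3
      obtain ⟨_, _, h4, h5⟩ := (hC n L).1 σ σ a₀ h3
      exact h1 (Finset.mem_Icc.2 ⟨h4, h5⟩)
    rw [h2]
    simp only [Nat.cast_zero, mul_zero]
    refine Finset.sum_eq_zero fun a ha => h0 a ?_
    rintro rfl
    exact h1 ha

theorem cf1_sgn (a : ℤ) : (((-1 : ℤˣ) ^ a : ℤˣ) : ℤ) * (((-1 : ℤˣ) ^ a : ℤˣ) : ℤ) = 1 := by
  rw [← Units.val_mul, ← mul_zpow]
  simp

theorem cf1_len {n : ℕ} (σ : Spin n) : (lst σ).length = n + 1 := by
  unfold lst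
  simp

theorem thm_Cf1 (h1 : St_Cmb) (h2 : St_Cn) (h3 : St_Top) : St_Cf1 := by
  classical
  intro n L e k hn hodd hF he hk
  obtain ⟨⟨σ₀, hσ₀, hu⟩, hT⟩ := (h3 n hn).1 hodd
  have hC := h2 n L
  have hC2 := hC.2 hn hF
  have hM : ∀ σ : Spin n, mm (lst σ) % 2 = 0 := by
    intro σ
    have := (h1.2.2.2.1 (lst σ)).2.1
    rw [cf1_len] at this
    omega
  have hS : ∀ σ : Spin n, |sm (lst σ)| ≤ mm (lst σ) := fun σ => (h1.2.2.2.1 (lst σ)).2.2.1
  have hE : ∀ (σ : Spin n) (a : ℤ), (k : ℤ) * (mm (lst σ) : ℤ) ^ 2 +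
      2 * mm (lst σ) * (k - 1) - 4 * a ≤ cf1_E e 1 k σ a := by
    intro σ a
    have h4 := abs_le.1 (hS σ)
    unfold cf1_E
    rcases he with rfl | rfl
    · nlinarith [h4.1]
    · nlinarith [h4.2]
  have hk' : (1 : ℤ) ≤ k := by exact_mod_cast hk
  have hE0 : ∀ (σ : Spin n) (a : ℤ), -4 * a ≤ cf1_E e 1 k σ a := by
    intro σ a
    have h4 := hE σ a
    have h5 : (0 : ℤ) ≤ (k : ℤ) * (mm (lst σ) : ℤ) ^ 2 := by positivity
    have h6 : (0 : ℤ) ≤ 2 * mm (lst σ) * ((k : ℤ) - 1) :=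
      mul_nonneg (by positivity) (by linarith)
    linarith
  have hE2 : ∀ (σ : Spin n) (a : ℤ), mm (lst σ) ≠ 0 → 4 - 4 * a ≤ cf1_E e 1 k σ a := by
    intro σ a hm
    have h4 := hE σ a
    have h7 : (2 : ℤ) ≤ mm (lst σ) := by
      have := hM σ
      have h8 : 2 ≤ mm (lst σ) := by omega
      exact_mod_cast h8
    have h5 : (4 : ℤ) ≤ (k : ℤ) * (mm (lst σ) : ℤ) ^ 2 := by nlinarith
    have h6 : (0 : ℤ) ≤ 2 * mm (lst σ) * ((k : ℤ) - 1) :=
      mul_nonneg (by positivity) (by linarith)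
    linarith
  have hE1 : ∀ (σ : Spin n) (a : ℤ), mm (lst σ) = 0 → cf1_E e 1 k σ a = -4 * a ∧
      sm (lst σ) = 0 := by
    intro σ a hm
    have h4 := hS σ
    rw [hm] at h4
    have h5 : sm (lst σ) = 0 := by
      have := abs_le.1 h4
      push_cast at this
      linarith [this.1, this.2]
    refine ⟨?_, h5⟩
    unfold cf1_E
    rw [hm, h5]
    push_cast
    ring
  set P : ℤ := (ev L : ℤ) with hP
  have hle : ∀ (σ : Spin n) (a : ℤ), cnt L σ σ a ≠ 0 → a ≤ P := fun σ a h => (hC.1 σ σ a h).2.2.2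
  have hlt : ∀ (σ : Spin n) (a : ℤ), ¬ AllE σ → cnt L σ σ a ≠ 0 → a ≤ P - 1 := by
    intro σ a hA h
    have h4 := hle σ a h
    rcases eq_or_lt_of_le h4 with h5 | h5
    · exact absurd (h5 ▸ (hC2 σ).2.1 hA) h
    · omega
  have hc0 : cf L e 1 k (-4 * P) = (((-1 : ℤˣ) ^ P : ℤˣ) : ℤ) := by
    unfold cf
    rw [Finset.sum_eq_single σ₀]
    · rw [cf1_sum1 h2 P (by rw [(hE1 σ₀ P (hT σ₀ hσ₀).1).1]), (hT σ₀ hσ₀).2,
        (hC2 σ₀).1 hσ₀]
      simp
    · intro σ _ hσ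
      apply cf1_sum0
      intro a ha hD
      have hA : ¬ AllE σ := fun h => hσ (hu σ h)
      have h4 := hlt σ a hA ha
      have h5 := hE0 σ a
      rw [hD] at h5
      linarith
    · intro h
      exact absurd (Finset.mem_univ _) h
  have hc1 : cf L e 1 k (-4 * P + 4) = -(((-1 : ℤˣ) ^ P : ℤˣ) : ℤ) *
      ∑ σ : Spin n, if mm (lst σ) = 0 then (cnt L σ σ (P - 1) : ℤ) else 0 := by
    unfold cf
    rw [Finset.mul_sum]
    refine Finset.sum_congr rfl fun σ _ => ?_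
    split_ifs with hm
    · rw [cf1_sum1 h2 (P - 1) (by rw [(hE1 σ (P - 1) hm).1]; ring), (hE1 σ 0 hm).2, zero_add,
        zpow_sub]
      simp
    · rw [mul_zero]
      apply cf1_sum0
      intro a ha hD
      have hA : ¬ AllE σ := fun h => hm (hT σ h).1
      have h4 := hlt σ a hA ha
      have h5 := hE2 σ a hm
      rw [hD] at h5
      linarith
  refine ⟨-4 * P, ?_, ?_, ?_⟩
  · intro D hD
    unfold cf
    refine Finset.sum_eq_zero fun σ _ => cf1_sum0 ?_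
    intro a ha hD2
    have h4 := hle σ a ha
    have h5 := hE0 σ a
    rw [hD2] at h5
    linarith
  · rw [hc0]
    intro h
    have := cf1_sgn P
    rw [h] at this
    simp at this
  · rw [mul_one, hc0, hc1]
    have h4 : (0 : ℤ) ≤ ∑ σ : Spin n, if mm (lst σ) = 0 then (cnt L σ σ (P - 1) : ℤ) else 0 := by
      refine Finset.sum_nonneg fun σ _ => ?_
      split_ifs <;> positivity
    have h5 := cf1_sgn P
    rw [neg_mul, mul_neg, ← mul_assoc, h5, one_mul]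
    linarith

end Pool.Agent.TWB
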