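import Pool.Agent.TWB.Cf1

/-!
# TWB: CF2, an odd number of strands, the twist is positive
-/

set_option autoImplicit false

namespace Pool.Agent.TWB

open LaurentPolynomial Pool.Agent.Helper1.PK Pool.Agent.Per

theorem thm_Cf2 (h1 : St_Cmb) (h2 : St_Cn) (h3 : St_Top) (h4 : St_Ex1) : St_Cf2 := by
  classical
  intro n L e k hn hev hF he hk
  obtain ⟨hT0, hT⟩ := (h3 n hn).2.1 hev
  obtain ⟨σm, hσm, hum⟩ := hT0 (-e) (by rcases he with rfl | rfl <;> simp)
  obtain ⟨σp, hσp, hup⟩ := hT0 e he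
  have hX := h4 n L (-e) hn hF (Or.inr ⟨hev, by rcases he with rfl | rfl <;> simp⟩)
  have hC := h2 n L
  have hC2 := hC.2 hn hF
  have he2 : e * e = 1 := by rcases he with rfl | rfl <;> norm_num
  have hM : ∀ σ : Spin n, mm (lst σ) % 2 = 1 := by
    intro σ
    have := (h1.2.2.2.1 (lst σ)).2.1
    rw [cf1_len] at this
    omega
  have hS : ∀ σ : Spin n, |sm (lst σ)| ≤ mm (lst σ) := fun σ => (h1.2.2.2.1 (lst σ)).2.2.1
  have hS2 : ∀ σ : Spin n, (sm (lst σ) - mm (lst σ)) % 2 = 0 :=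
    fun σ => (h1.2.2.2.1 (lst σ)).2.2.2
  have hk' : (1 : ℤ) ≤ k := by exact_mod_cast hk
  -- the exponent for `m ≥ 3`
  have hE3 : ∀ (σ : Spin n) (a : ℤ), mm (lst σ) ≠ 1 → 9 * k - 4 * a ≤ cf1_E e 1 k σ a := by
    intro σ a hm
    have h7 : (3 : ℤ) ≤ mm (lst σ) := by
      have := hM σ
      have h8 : 3 ≤ mm (lst σ) := by omega
      exact_mod_cast h8
    have h9 : (9 : ℤ) ≤ (mm (lst σ) : ℤ) ^ 2 := by nlinarith
    have h5 : (9 : ℤ) * k ≤ (k : ℤ) * (mm (lst σ) : ℤ) ^ 2 := by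
      rw [mul_comm]
      exact mul_le_mul_of_nonneg_left h9 (by linarith)
    have h6 : (0 : ℤ) ≤ 2 * mm (lst σ) * ((k : ℤ) - 1) :=
      mul_nonneg (by positivity) (by linarith)
    have h8 := abs_le.1 (hS σ)
    unfold cf1_E
    rcases he with rfl | rfl
    · nlinarith [h8.1]
    · nlinarith [h8.2]
  -- the exponent for `m = 1`
  have hE1 : ∀ (σ : Spin n), mm (lst σ) = 1 →
      (sm (lst σ) = e ∧ ∀ a : ℤ, cf1_E e 1 k σ a = 3 * k + 2 - 4 * a) ∨
      (sm (lst σ) = -e ∧ ∀ a : ℤ, cf1_E e 1 k σ a = 3 * k - 2 - 4 * a) := by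
    intro σ hm
    have h5 := hS σ
    have h6 := hS2 σ
    rw [hm] at h5 h6
    have h7 := abs_le.1 h5
    have h8 : sm (lst σ) = 1 ∨ sm (lst σ) = -1 := by
      push_cast at h6 h7
      omega
    have h9 : sm (lst σ) = e ∨ sm (lst σ) = -e := by
      rcases he with rfl | rfl
      · exact h8
      · rcases h8 with h8 | h8
        · right; rw [h8]; norm_num
        · left; exact h8
    rcases h9 with h9 | h9
    · refine Or.inl ⟨h9, fun a => ?_⟩
      unfold cf1_E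
      rw [h9, hm]
      push_cast
      linear_combination 2 * he2
    · refine Or.inr ⟨h9, fun a => ?_⟩
      unfold cf1_E
      rw [h9, hm]
      push_cast
      linear_combination -2 * he2
  set P : ℤ := (ev L : ℤ) with hP
  have hle : ∀ (σ : Spin n) (a : ℤ), cnt L σ σ a ≠ 0 → a ≤ P := fun σ a h => (hC.1 σ σ a h).2.2.2
  have hlt : ∀ (σ : Spin n) (a : ℤ), ¬ AllE σ → cnt L σ σ a ≠ 0 → a ≤ P - 1 := by
    intro σ a hA h
    have h4 := hle σ a h
    rcases eq_or_lt_of_le h4 with h5 | h5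
    · exact absurd (h5 ▸ (hC2 σ).2.1 hA) h
    · omega
  have hsg : ∀ z : ℤ, (((-1 : ℤˣ) ^ (e + z) : ℤˣ) : ℤ) = -(((-1 : ℤˣ) ^ z : ℤˣ) : ℤ) := by
    intro z
    rw [zpow_add]
    rcases he with rfl | rfl <;> simp
  have hsg' : ∀ z : ℤ, (((-1 : ℤˣ) ^ (-e + z) : ℤˣ) : ℤ) = -(((-1 : ℤˣ) ^ z : ℤˣ) : ℤ) := by
    intro z
    rw [zpow_add]
    rcases he with rfl | rfl <;> simp
  have hsg1 : (((-1 : ℤˣ) ^ (P - 1) : ℤˣ) : ℤ) = -(((-1 : ℤˣ) ^ P : ℤˣ) : ℤ) := by
    rw [zpow_sub]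
    simp
  have hEm : ∀ a : ℤ, cf1_E e 1 k σm a = 3 * k - 2 - 4 * a := by
    intro a
    rcases hE1 σm (hT σm hσm.1).1 with ⟨h5, h6⟩ | ⟨h5, h6⟩
    · exfalso
      rw [hσm.2] at h5
      rcases he with rfl | rfl <;> norm_num at h5
    · exact h6 a
  have hEp : ∀ a : ℤ, cf1_E e 1 k σp a = 3 * k + 2 - 4 * a := by
    intro a
    rcases hE1 σp (hT σp hσp.1).1 with ⟨h5, h6⟩ | ⟨h5, h6⟩
    · exact h6 a
    · exfalso
      rw [hσp.2] at h5
      rcases he with rfl | rfl <;> norm_num at h5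
  have hc0 : cf L e 1 k (3 * k - 2 - 4 * P) = -(((-1 : ℤˣ) ^ P : ℤˣ) : ℤ) := by
    unfold cf
    rw [Finset.sum_eq_single σm]
    · rw [cf1_sum1 h2 P (hEm P), hσm.2, hsg', (hC2 σm).1 hσm.1]
      simp
    · intro σ _ hσ
      apply cf1_sum0
      intro a ha hD
      by_cases hm : mm (lst σ) = 1
      · rcases hE1 σ hm with ⟨h5, h6⟩ | ⟨h5, h6⟩
        · rw [h6] at hD
          have := hle σ a ha
          linarith
        · have hA : ¬ AllE σ := fun h => hσ (hum σ ⟨h, h5⟩)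
          rw [h6] at hD
          have := hlt σ a hA ha
          linarith
      · have h5 := hE3 σ a hm
        have := hle σ a ha
        linarith
    · intro h
      exact absurd (Finset.mem_univ _) h
  have hc1 : cf L e 1 k (3 * k - 2 - 4 * P + 4) = -(((-1 : ℤˣ) ^ P : ℤˣ) : ℤ) +
      (((-1 : ℤˣ) ^ P : ℤˣ) : ℤ) * ∑ σ ∈ Finset.univ.filter
        (fun σ : Spin n => mm (lst σ) = (n + 1) % 2 ∧ sm (lst σ) = -e),
        (cnt L σ σ (P - 1) : ℤ) := by
    have e1 : -(((-1 : ℤˣ) ^ P : ℤˣ) : ℤ) =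
        ∑ σ : Spin n, if σ = σp then -(((-1 : ℤˣ) ^ P : ℤˣ) : ℤ) else 0 := by
      rw [Finset.sum_ite_eq' Finset.univ σp, if_pos (Finset.mem_univ _)]
    unfold cf
    rw [e1, Finset.sum_filter, Finset.mul_sum, ← Finset.sum_add_distrib]
    refine Finset.sum_congr rfl fun σ _ => ?_
    have hn2 : (n + 1) % 2 = 1 := by omega
    rw [hn2]
    by_cases hm : mm (lst σ) = 1
    · rcases hE1 σ hm with ⟨h5, h6⟩ | ⟨h5, h6⟩
      · have h7 : ¬ (mm (lst σ) = 1 ∧ sm (lst σ) = -e) := by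
          rintro ⟨_, h8⟩
          rw [h5] at h8
          rcases he with rfl | rfl <;> norm_num at h8
        rw [if_neg h7, mul_zero, add_zero, cf1_sum1 h2 P (by rw [h6]; ring), h5, hsg]
        by_cases hA : AllE σ
        · rw [if_pos (hup σ ⟨hA, h5⟩), (hC2 σ).1 hA]
          simp
        · have h8 : σ ≠ σp := by
            rintro rfl
            exact hA hσp.1
          rw [if_neg h8, (hC2 σ).2.1 hA]
          simp
      · have h7 : σ ≠ σp := by
          rintro rfl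
          rw [hσp.2] at h5
          rcases he with rfl | rfl <;> norm_num at h5
        rw [if_neg h7, if_pos ⟨hm, h5⟩, zero_add,
          cf1_sum1 h2 (P - 1) (by rw [h6]; ring), h5, hsg', hsg1, neg_neg]
    · have h7 : σ ≠ σp := by
        rintro rfl
        exact hm (hT σ hσp.1).1
      rw [if_neg h7, if_neg (fun h => hm h.1), mul_zero, zero_add]
      apply cf1_sum0
      intro a ha hD
      have h5 := hE3 σ a hm
      have := hle σ a ha
      linarith
  refine ⟨3 * k - 2 - 4 * P, ?_, ?_, ?_⟩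
  · intro D hD
    unfold cf
    refine Finset.sum_eq_zero fun σ _ => cf1_sum0 ?_
    intro a ha hD2
    have h4 := hle σ a ha
    by_cases hm : mm (lst σ) = 1
    · rcases hE1 σ hm with ⟨h5, h6⟩ | ⟨h5, h6⟩
      · rw [h6] at hD2
        linarith
      · rw [h6] at hD2
        linarith
    · have h5 := hE3 σ a hm
      linarith
  · rw [hc0]
    intro h
    have := cf1_sgn P
    rw [neg_eq_zero.1 h] at this
    simp at this
  · rw [mul_one, hc0, hc1]
    have h5 := cf1_sgn P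
    have h6 : (1 : ℤ) ≤ ∑ σ ∈ Finset.univ.filter
        (fun σ : Spin n => mm (lst σ) = (n + 1) % 2 ∧ sm (lst σ) = -e),
        (cnt L σ σ (P - 1) : ℤ) := by
      rw [← Nat.cast_sum]
      exact_mod_cast hX
    nlinarith

end Pool.Agent.TWB
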