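import Pool.Agent.TWB.St2

/-!
# TWB: CF3
-/

set_option autoImplicit false

namespace Pool.Agent.TWB

open LaurentPolynomial Pool.Agent.Helper1.PK Pool.Agent.Per

private theorem cf3_zero {n : ℕ} (L : List (Fin n)) (e c : ℤ) (k : ℕ) (D : ℤ) (σ : Spin n)
    (h : ∀ a : ℤ, -(od L : ℤ) ≤ a → a ≤ ev L →
      2 * e * sm (lst σ) + c * k * ((mm (lst σ) : ℤ) ^ 2 + 2 * mm (lst σ)) - 4 * a = D →
      cnt L σ σ a = 0) :
    ∑ a ∈ Finset.Icc (-(od L : ℤ)) (ev L), term L e c k D σ a = 0 := by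
  refine Finset.sum_eq_zero fun a ha => ?_
  rw [Finset.mem_Icc] at ha
  unfold term
  split_ifs with hD
  · rw [h a ha.1 ha.2 hD, Nat.cast_zero, mul_zero]
  · rfl

private theorem cf3_one {n : ℕ} (L : List (Fin n)) (e c : ℤ) (k : ℕ) (D : ℤ) (σ : Spin n)
    (a₀ : ℤ) (h1 : -(od L : ℤ) ≤ a₀) (h2 : a₀ ≤ ev L)
    (h3 : 2 * e * sm (lst σ) + c * k * ((mm (lst σ) : ℤ) ^ 2 + 2 * mm (lst σ)) - 4 * a₀ = D) :
    ∑ a ∈ Finset.Icc (-(od L : ℤ)) (ev L), term L e c k D σ a =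
      (((-1 : ℤˣ) ^ (sm (lst σ) + a₀) : ℤˣ) : ℤ) * (cnt L σ σ a₀ : ℤ) := by
  rw [Finset.sum_eq_single a₀]
  · unfold term
    rw [if_pos h3]
  · intro a _ hne
    unfold term
    rw [if_neg]
    intro h4
    apply hne
    linarith
  · intro h
    exact absurd (Finset.mem_Icc.mpr ⟨h1, h2⟩) h

private theorem cf3_even (z w : ℤ) (h : (z - w) % 2 = 0) : (-1 : ℤˣ) ^ z = (-1 : ℤˣ) ^ w := by
  obtain ⟨t, ht⟩ : ∃ t, z = w + 2 * t := ⟨(z - w) / 2, by omega⟩
  rw [ht, zpow_add, zpow_mul]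
  have h2 : (-1 : ℤˣ) ^ (2 : ℤ) = 1 := by decide
  rw [h2, one_zpow, mul_one]

private theorem cf3_odd (z w : ℤ) (h : (z - w) % 2 = 1) :
    (((-1 : ℤˣ) ^ z : ℤˣ) : ℤ) = -(((-1 : ℤˣ) ^ w : ℤˣ) : ℤ) := by
  rw [cf3_even z (w + 1) (by omega), zpow_add, zpow_one, mul_neg, mul_one, Units.val_neg]

private theorem cf3_sq (z : ℤ) :
    (((-1 : ℤˣ) ^ z : ℤˣ) : ℤ) * (((-1 : ℤˣ) ^ z : ℤˣ) : ℤ) = 1 := by
  rw [← Units.val_mul, ← zpow_add, cf3_even (z + z) 0 (by omega), zpow_zero, Units.val_one]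

/-- the sum over the unique state with a property -/
private theorem cf3_uniq {α : Type} [Fintype α] (p : α → Prop) [DecidablePred p] (h : ∃! x, p x)
    (v : ℤ) : ∑ x, (if p x then v else 0) = v := by
  obtain ⟨y, hy, hu⟩ := h
  rw [Finset.sum_eq_single y]
  · rw [if_pos hy]
  · intro x _ hx
    rw [if_neg fun hp => hx (hu x hp)]
  · intro h
    exact absurd (Finset.mem_univ _) h

private theorem cf3_ev {n : ℕ} (hn : 2 ≤ n) {L : List (Fin n)} (hF : Full L) : 1 ≤ ev L := by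
  unfold ev
  rw [Nat.one_le_iff_ne_zero, ← Nat.pos_iff_ne_zero, List.countP_pos_iff]
  exact ⟨(⟨0, by omega⟩ : Fin n), hF _, by simp⟩

/-- exponents -/
private theorem cf3_E (m k : ℕ) (x y a D e : ℤ) (he : e = 1 ∨ e = -1) (hk : 1 ≤ k)
    (hx : |x| ≤ m) (hm : m % 2 = 1) (hxm : (x - m) % 2 = 0) (hy : y = e * x)
    (h : 2 * e * x + (-1) * k * ((m : ℤ) ^ 2 + 2 * m) - 4 * a = D) :
    (m = 1 ∧ (y = 1 ∨ y = -1) ∧ 2 * y - 3 * k - 4 * a = D) ∨ (3 ≤ m ∧ D ≤ -9 * k - 4 * a) := by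
  have hy' : |y| ≤ m := by
    rcases he with h1 | h1
    · rw [hy, h1, one_mul]
      exact hx
    · rw [hy, h1, neg_mul, one_mul, abs_neg]
      exact hx
  have hk' : (1 : ℤ) ≤ k := by exact_mod_cast hk
  have h' : 2 * y - k * ((m : ℤ) ^ 2 + 2 * m) - 4 * a = D := by
    rw [hy]
    linarith
  have h3 := abs_le.mp hy'
  by_cases h1 : m = 1
  · left
    subst h1
    refine ⟨rfl, ?_, by push_cast at h'; linarith⟩
    have hx1 : x % 2 = 1 ∨ x % 2 = -1 := by omega
    push_cast at h3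
    rcases he with h2 | h2
    · rw [h2, one_mul] at hy
      omega
    · rw [h2, neg_mul, one_mul] at hy
      omega
  · right
    have hm3 : 3 ≤ m := by omega
    refine ⟨hm3, ?_⟩
    have hm3' : (3 : ℤ) ≤ m := by exact_mod_cast hm3
    have h4 : (9 : ℤ) * k ≤ k * (m : ℤ) ^ 2 := by
      have h6 : (9 : ℤ) ≤ (m : ℤ) ^ 2 := by nlinarith
      calc (9 : ℤ) * k = k * 9 := mul_comm _ _
        _ ≤ k * (m : ℤ) ^ 2 := mul_le_mul_of_nonneg_left h6 (by linarith)
    have h5 : 2 * y ≤ k * (2 * (m : ℤ)) := by nlinarith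
    nlinarith

theorem thm_Cf3 (h1 : St_Cmb) (h2 : St_Cn) (h3 : St_Top) (h4 : St_Ex2) : St_Cf3 := by
  classical
  intro n L e k hn hn2 hF he hk
  obtain ⟨-, hTe⟩ := h3 n hn
  obtain ⟨hTu, hTm⟩ := hTe.2.1 hn2
  have hC := (h2 n L).2 hn hF
  have hCO : ∀ σ : Spin n, AllO σ → cnt L σ σ (-(od L : ℤ)) = 1 := fun σ => (hC σ).2.2.1
  have hCN : ∀ σ : Spin n, ¬ AllO σ → cnt L σ σ (-(od L : ℤ)) = 0 := fun σ => (hC σ).2.2.2
  have hlen : ∀ σ : Spin n, (lst σ).length = n + 1 := fun σ => List.length_ofFn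
  have hmm : ∀ σ : Spin n, |sm (lst σ)| ≤ mm (lst σ) ∧ mm (lst σ) % 2 = 1 ∧
      (sm (lst σ) - mm (lst σ)) % 2 = 0 := by
    intro σ
    obtain ⟨-, h5, h6, h7⟩ := h1.2.2.2.1 (lst σ)
    rw [hlen] at h5
    exact ⟨h6, by omega, h7⟩
  have hE : ∀ (σ : Spin n) (a D : ℤ), 2 * e * sm (lst σ) +
      (-1) * k * ((mm (lst σ) : ℤ) ^ 2 + 2 * mm (lst σ)) - 4 * a = D →
      (mm (lst σ) = 1 ∧ (e * sm (lst σ) = 1 ∨ e * sm (lst σ) = -1) ∧
        2 * (e * sm (lst σ)) - 3 * k - 4 * a = D) ∨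
      (3 ≤ mm (lst σ) ∧ D ≤ -9 * k - 4 * a) := by
    intro σ a D h
    obtain ⟨h5, h6, h7⟩ := hmm σ
    exact cf3_E (mm (lst σ)) k (sm (lst σ)) (e * sm (lst σ)) a D e he hk h5 h6 h7 rfl h
  have hee : e * e = 1 := by
    rcases he with h | h
    · rw [h]; norm_num
    · rw [h]; norm_num
  have hes : ∀ x y : ℤ, e * x = y → x = e * y := by
    intro x y hxy
    rw [← hxy, ← mul_assoc, hee, one_mul]
  have hk' : (1 : ℤ) ≤ k := by exact_mod_cast hk
  have hev := cf3_ev hn hF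
  have hev' : (1 : ℤ) ≤ ev L := by exact_mod_cast hev
  obtain ⟨Q, hQ⟩ : ∃ Q : ℤ, Q = od L := ⟨_, rfl⟩
  have hQ0 : 0 ≤ Q := by rw [hQ]; positivity
  have heo : e % 2 = 1 := by omega
  obtain ⟨s, hs⟩ : ∃ s : ℤ, s = (((-1 : ℤˣ) ^ Q : ℤˣ) : ℤ) := ⟨_, rfl⟩
  have hss : s * s = 1 := by rw [hs]; exact cf3_sq Q
  refine ⟨2 - 3 * k + 4 * Q, ?_, ?_⟩
  · intro D hD
    unfold cf
    refine Finset.sum_eq_zero fun σ _ => cf3_zero L e (-1) k D σ fun a ha ha' hEq => ?_
    exfalso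
    rw [← hQ] at ha
    rcases hE σ a D hEq with ⟨-, h5, h6⟩ | ⟨-, h6⟩
    · rcases h5 with h5 | h5 <;> rw [h5] at h6 <;> omega
    · omega
  · -- the extreme coefficient
    have hf0 : ∀ σ : Spin n, ∑ a ∈ Finset.Icc (-(od L : ℤ)) (ev L),
        term L e (-1) k (2 - 3 * k + 4 * Q) σ a =
          if AllO σ ∧ sm (lst σ) = e then -s else 0 := by
      intro σ
      by_cases hA : AllO σ ∧ sm (lst σ) = e
      · rw [if_pos hA, cf3_one L e (-1) k _ σ (-Q) (by rw [hQ]) (by omega)]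
        · rw [hQ, hCO σ hA.1, ← hQ, hA.2, Nat.cast_one, mul_one, hs]
          exact cf3_odd _ _ (by omega)
        · rw [(hTm σ hA.1).1, hA.2]
          push_cast
          linear_combination 2 * hee
      · rw [if_neg hA]
        refine cf3_zero L e (-1) k _ σ fun a ha ha' hEq => ?_
        rcases hE σ a _ hEq with ⟨h5, h6, h7⟩ | ⟨-, h6⟩
        · rw [← hQ] at ha
          rcases h6 with h6 | h6
          · rw [h6] at h7
            have h8 : a = -Q := by omega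
            rw [h8, hQ]
            apply hCN
            intro hO
            apply hA
            refine ⟨hO, ?_⟩
            rw [hes _ _ h6, mul_one]
          · rw [h6] at h7
            omega
        · rw [← hQ] at ha
          omega
    have hc0 : cf L e (-1) k (2 - 3 * k + 4 * Q) = -s := by
      unfold cf
      rw [Finset.sum_congr rfl fun σ _ => hf0 σ]
      exact cf3_uniq _ (hTu e he) _
    -- the next coefficient
    have hf1 : ∀ σ : Spin n, ∑ a ∈ Finset.Icc (-(od L : ℤ)) (ev L),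
        term L e (-1) k (2 - 3 * k + 4 * Q + 4 * (-1)) σ a =
          (if mm (lst σ) = 1 ∧ sm (lst σ) = e then s * (cnt L σ σ (-(od L : ℤ) + 1) : ℤ) else 0) +
          if AllO σ ∧ sm (lst σ) = -e then -s else 0 := by
      intro σ
      by_cases hB : mm (lst σ) = 1 ∧ sm (lst σ) = e
      · rw [if_pos hB, if_neg (by rintro ⟨-, h5⟩; rw [hB.2] at h5; omega), add_zero,
          cf3_one L e (-1) k _ σ (-(od L : ℤ) + 1) (by omega) (by omega)]
        · rw [hB.2, hs, cf3_even (e + (-(od L : ℤ) + 1)) Q (by omega)]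
        · rw [hB.1, hB.2, ← hQ]
          push_cast
          linear_combination 2 * hee
      rw [if_neg hB, zero_add]
      by_cases hA : AllO σ ∧ sm (lst σ) = -e
      · rw [if_pos hA, cf3_one L e (-1) k _ σ (-Q) (by rw [hQ]) (by omega)]
        · rw [hQ, hCO σ hA.1, ← hQ, hA.2, Nat.cast_one, mul_one, hs]
          exact cf3_odd _ _ (by omega)
        · rw [(hTm σ hA.1).1, hA.2]
          push_cast
          linear_combination (-2) * hee
      · rw [if_neg hA]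
        refine cf3_zero L e (-1) k _ σ fun a ha ha' hEq => ?_
        rcases hE σ a _ hEq with ⟨h5, h6, h7⟩ | ⟨h5, h6⟩
        · rw [← hQ] at ha
          rcases h6 with h6 | h6
          · exact absurd ⟨h5, by rw [hes _ _ h6, mul_one]⟩ hB
          · rw [h6] at h7
            have h8 : a = -Q := by omega
            rw [h8, hQ]
            apply hCN
            intro hO
            apply hA
            refine ⟨hO, ?_⟩
            rw [hes _ _ h6]
            ring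
        · rw [← hQ] at ha
          have h8 : a = -Q := by omega
          rw [h8, hQ]
          apply hCN
          intro hO
          rw [(hTm σ hO).1] at h5
          omega
    obtain ⟨S, hS⟩ : ∃ S : ℕ, S = ∑ σ ∈ Finset.univ.filter
        (fun σ : Spin n => mm (lst σ) = (n + 1) % 2 ∧ sm (lst σ) = e),
        cnt L σ σ (-(od L : ℤ) + 1) := ⟨_, rfl⟩
    have hS1 : 1 ≤ S := by
      rw [hS]
      exact h4 n L e hn hF (Or.inr ⟨hn2, he⟩)
    have hc1 : cf L e (-1) k (2 - 3 * k + 4 * Q + 4 * (-1)) = s * S - s := by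
      unfold cf
      rw [Finset.sum_congr rfl fun σ _ => hf1 σ, Finset.sum_add_distrib,
        cf3_uniq _ (hTu (-e) (by omega)), ← Finset.sum_filter, ← Finset.mul_sum, hS]
      have h5 : (n + 1) % 2 = 1 := by omega
      rw [h5]
      push_cast
      ring
    refine ⟨?_, ?_⟩
    · rw [hc0]
      intro h5
      have h6 : s = 0 := by linarith
      rw [h6] at hss
      norm_num at hss
    · rw [hc0, hc1]
      have h5 : -s * (s * S - s) = 1 - S := by
        linear_combination (1 - (S : ℤ)) * hss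
      rw [h5]
      have h6 : (1 : ℤ) ≤ S := by exact_mod_cast hS1
      linarith

end Pool.Agent.TWB
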