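import Pool.Agent.TWB.St2

/-!
# TWB: CF4
-/

set_option autoImplicit false

namespace Pool.Agent.TWB

open LaurentPolynomial Pool.Agent.Helper1.PK Pool.Agent.Per

private theorem cf4_zero {n : ℕ} (L : List (Fin n)) (e c : ℤ) (k : ℕ) (D : ℤ) (σ : Spin n)
    (h : ∀ a : ℤ, -(od L : ℤ) ≤ a → a ≤ ev L →
      2 * e * sm (lst σ) + c * k * ((mm (lst σ) : ℤ) ^ 2 + 2 * mm (lst σ)) - 4 * a = D →
      cnt L σ σ a = 0) :
    ∑ a ∈ Finset.Icc (-(od L : ℤ)) (ev L), term L e c k D σ a = 0 := by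
  refine Finset.sum_eq_zero fun a ha => ?_
  rw [Finset.mem_Icc] at ha
  unfold term
  split_ifs with hD
  · rw [h a ha.1 ha.2 hD, Nat.cast_zero, mul_zero]
  · rfl

private theorem cf4_one {n : ℕ} (L : List (Fin n)) (e c : ℤ) (k : ℕ) (D : ℤ) (σ : Spin n)
    (a₀ : ℤ) (h1 : -(od L : ℤ) ≤ a₀) (h2 : a₀ ≤ ev L)
    (h3 : 2 * e * sm (lst σ) + c * k * ((mm (lst σ) : ℤ) ^ 2 + 2 * mm (lst σ)) - 4 * a₀ = D) :
    ∑ a ∈ Finset.Icc (-(od L : ℤ)) (ev L), term L e c k D σ a =
      (((-1 : ℤˣ) ^ (sm (lst σ) + a₀) : ℤˣ) : ℤ) * (cnt L σ σ a₀ : ℤ) := by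
  rw [Finset.sum_eq_single a₀]
  · unfold term
    rw [if_pos h3]
  · intro a _ hne
    unfold term
    rw [if_neg]
    intro h4
    apply hne
    linarith
  · intro h
    exact absurd (Finset.mem_Icc.mpr ⟨h1, h2⟩) h

private theorem cf4_even (z w : ℤ) (h : (z - w) % 2 = 0) : (-1 : ℤˣ) ^ z = (-1 : ℤˣ) ^ w := by
  obtain ⟨t, ht⟩ : ∃ t, z = w + 2 * t := ⟨(z - w) / 2, by omega⟩
  rw [ht, zpow_add, zpow_mul]
  have h2 : (-1 : ℤˣ) ^ (2 : ℤ) = 1 := by decide
  rw [h2, one_zpow, mul_one]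

private theorem cf4_odd (z w : ℤ) (h : (z - w) % 2 = 1) :
    (((-1 : ℤˣ) ^ z : ℤˣ) : ℤ) = -(((-1 : ℤˣ) ^ w : ℤˣ) : ℤ) := by
  rw [cf4_even z (w + 1) (by omega), zpow_add, zpow_one, mul_neg, mul_one, Units.val_neg]

private theorem cf4_sq (z : ℤ) :
    (((-1 : ℤˣ) ^ z : ℤˣ) : ℤ) * (((-1 : ℤˣ) ^ z : ℤˣ) : ℤ) = 1 := by
  rw [← Units.val_mul, ← zpow_add, cf4_even (z + z) 0 (by omega), zpow_zero, Units.val_one]

/-- the sum over the unique state with a property -/
private theorem cf4_uniq {α : Type} [Fintype α] (p : α → Prop) [DecidablePred p] (h : ∃! x, p x)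
    (v : ℤ) : ∑ x, (if p x then v else 0) = v := by
  obtain ⟨y, hy, hu⟩ := h
  rw [Finset.sum_eq_single y]
  · rw [if_pos hy]
  · intro x _ hx
    rw [if_neg fun hp => hx (hu x hp)]
  · intro h
    exact absurd (Finset.mem_univ _) h

private theorem cf4_ev {n : ℕ} (hn : 2 ≤ n) {L : List (Fin n)} (hF : Full L) : 1 ≤ ev L := by
  unfold ev
  rw [Nat.one_le_iff_ne_zero, ← Nat.pos_iff_ne_zero, List.countP_pos_iff]
  exact ⟨(⟨0, by omega⟩ : Fin n), hF _, by simp⟩

/-- exponents -/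
private theorem cf4_E (m k : ℕ) (x a D e : ℤ) (he : e = 1 ∨ e = -1) (hk : 1 ≤ k)
    (hx : |x| ≤ m) (hm : m % 2 = 0) (hxm : (x - m) % 2 = 0)
    (h : 2 * e * x + (-1) * k * ((m : ℤ) ^ 2 + 2 * m) - 4 * a = D) :
    (m = 0 ∧ x = 0 ∧ - 4 * a = D) ∨
    (m = 2 ∧ (e * x = 2 ∨ e * x = 0 ∨ e * x = -2) ∧ 2 * (e * x) - 8 * k - 4 * a = D) ∨
    (4 ≤ m ∧ D ≤ -16 * k - 4 * a) := by
  have hy' : |e * x| ≤ m := by
    rcases he with h1 | h1
    · rw [h1, one_mul]
      exact hx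
    · rw [h1, neg_mul, one_mul, abs_neg]
      exact hx
  have hk' : (1 : ℤ) ≤ k := by exact_mod_cast hk
  have h' : 2 * (e * x) - k * ((m : ℤ) ^ 2 + 2 * m) - 4 * a = D := by linarith
  have h3 := abs_le.mp hy'
  by_cases h0 : m = 0
  · left
    subst h0
    have hx0 : x = 0 := by
      have := abs_le.mp hx
      push_cast at this
      omega
    refine ⟨rfl, hx0, ?_⟩
    rw [hx0] at h'
    push_cast at h'
    linarith
  right
  by_cases h1 : m = 2
  · left
    subst h1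
    refine ⟨rfl, ?_, by push_cast at h'; linarith⟩
    push_cast at h3
    rcases he with h2 | h2
    · rw [h2, one_mul] at h3 ⊢
      omega
    · rw [h2, neg_mul, one_mul] at h3 ⊢
      omega
  · right
    have hm3 : 4 ≤ m := by omega
    refine ⟨hm3, ?_⟩
    have hm3' : (4 : ℤ) ≤ m := by exact_mod_cast hm3
    have h4 : (16 : ℤ) * k ≤ k * (m : ℤ) ^ 2 := by
      have h6 : (16 : ℤ) ≤ (m : ℤ) ^ 2 := by nlinarith
      calc (16 : ℤ) * k = k * 16 := mul_comm _ _
        _ ≤ k * (m : ℤ) ^ 2 := mul_le_mul_of_nonneg_left h6 (by linarith)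
    have h5 : 2 * (e * x) ≤ k * (2 * (m : ℤ)) := by nlinarith
    nlinarith

theorem thm_Cf4 (h1 : St_Cmb) (h2 : St_Cn) (h3 : St_Top) (h4 : St_Ex2) : St_Cf4 := by
  classical
  intro n L e k hn hn2 hF he hk
  obtain ⟨-, -, -, hTo⟩ := h3 n hn
  obtain ⟨hT0, hTp, hTn, hTm⟩ := hTo hn2
  have hC := (h2 n L).2 hn hF
  have hCO : ∀ σ : Spin n, AllO σ → cnt L σ σ (-(od L : ℤ)) = 1 := fun σ => (hC σ).2.2.1
  have hCN : ∀ σ : Spin n, ¬ AllO σ → cnt L σ σ (-(od L : ℤ)) = 0 := fun σ => (hC σ).2.2.2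
  have hlen : ∀ σ : Spin n, (lst σ).length = n + 1 := fun σ => List.length_ofFn
  have hmm : ∀ σ : Spin n, |sm (lst σ)| ≤ mm (lst σ) ∧ mm (lst σ) % 2 = 0 ∧
      (sm (lst σ) - mm (lst σ)) % 2 = 0 := by
    intro σ
    obtain ⟨-, h5, h6, h7⟩ := h1.2.2.2.1 (lst σ)
    rw [hlen] at h5
    exact ⟨h6, by omega, h7⟩
  have hE : ∀ (σ : Spin n) (a D : ℤ), 2 * e * sm (lst σ) +
      (-1) * k * ((mm (lst σ) : ℤ) ^ 2 + 2 * mm (lst σ)) - 4 * a = D →
      (mm (lst σ) = 0 ∧ sm (lst σ) = 0 ∧ - 4 * a = D) ∨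
      (mm (lst σ) = 2 ∧ (e * sm (lst σ) = 2 ∨ e * sm (lst σ) = 0 ∨ e * sm (lst σ) = -2) ∧
        2 * (e * sm (lst σ)) - 8 * k - 4 * a = D) ∨
      (4 ≤ mm (lst σ) ∧ D ≤ -16 * k - 4 * a) := by
    intro σ a D h
    obtain ⟨h5, h6, h7⟩ := hmm σ
    exact cf4_E (mm (lst σ)) k (sm (lst σ)) a D e he hk h5 h6 h7 h
  have hee : e * e = 1 := by
    rcases he with h | h
    · rw [h]; norm_num
    · rw [h]; norm_num
  have hes : ∀ x y : ℤ, e * x = y → x = e * y := by
    intro x y hxy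
    rw [← hxy, ← mul_assoc, hee, one_mul]
  have hk' : (1 : ℤ) ≤ k := by exact_mod_cast hk
  have hev := cf4_ev hn hF
  have hev' : (1 : ℤ) ≤ ev L := by exact_mod_cast hev
  obtain ⟨Q, hQ⟩ : ∃ Q : ℤ, Q = od L := ⟨_, rfl⟩
  have hQ0 : 0 ≤ Q := by rw [hQ]; positivity
  have heo : e % 2 = 1 := by omega
  -- the states joined at all odd places with the sum `2 e`
  have hT2 : ∃! σ : Spin n, AllO σ ∧ sm (lst σ) = 2 * e := by
    rcases he with h | h
    · rw [h, mul_one]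
      exact hTp
    · rw [h, mul_neg, mul_one]
      exact hTn
  have hT2m : ∀ σ : Spin n, AllO σ → sm (lst σ) = 2 * e → mm (lst σ) = 2 := by
    intro σ hO hsm
    rcases hTm σ hO with ⟨-, h6⟩ | ⟨h6, -⟩
    · omega
    · exact h6
  obtain ⟨s, hs⟩ : ∃ s : ℤ, s = (((-1 : ℤˣ) ^ Q : ℤˣ) : ℤ) := ⟨_, rfl⟩
  have hss : s * s = 1 := by rw [hs]; exact cf4_sq Q
  refine ⟨4 * Q, ?_, ?_⟩
  · intro D hD
    unfold cf
    refine Finset.sum_eq_zero fun σ _ => cf4_zero L e (-1) k D σ fun a ha ha' hEq => ?_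
    exfalso
    rw [← hQ] at ha
    rcases hE σ a D hEq with ⟨-, -, h6⟩ | ⟨-, h5, h6⟩ | ⟨-, h6⟩
    · omega
    · rcases h5 with h5 | h5 | h5 <;> rw [h5] at h6 <;> omega
    · omega
  · -- the extreme coefficient
    have hf0 : ∀ σ : Spin n, ∑ a ∈ Finset.Icc (-(od L : ℤ)) (ev L),
        term L e (-1) k (4 * Q) σ a =
          if AllO σ ∧ mm (lst σ) = 0 then s else 0 := by
      intro σ
      by_cases hA : AllO σ ∧ mm (lst σ) = 0
      · have hsm : sm (lst σ) = 0 := by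
          have h5 := (hmm σ).1
          rw [hA.2] at h5
          have h6 := abs_le.mp h5
          push_cast at h6
          omega
        rw [if_pos hA, cf4_one L e (-1) k _ σ (-Q) (by rw [hQ]) (by omega)]
        · rw [hQ, hCO σ hA.1, ← hQ, hsm, Nat.cast_one, mul_one, hs, cf4_even (0 + -Q) Q (by omega)]
        · rw [hA.2, hsm]
          push_cast
          ring
      · rw [if_neg hA]
        refine cf4_zero L e (-1) k _ σ fun a ha ha' hEq => ?_
        rw [← hQ] at ha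
        rcases hE σ a _ hEq with ⟨h5, h6, h7⟩ | ⟨-, h5, h6⟩ | ⟨-, h6⟩
        · have h8 : a = -Q := by omega
          rw [h8, hQ]
          exact hCN σ fun hO => hA ⟨hO, h5⟩
        · exfalso
          rcases h5 with h5 | h5 | h5 <;> rw [h5] at h6 <;> omega
        · exfalso
          omega
    have hc0 : cf L e (-1) k (4 * Q) = s := by
      unfold cf
      rw [Finset.sum_congr rfl fun σ _ => hf0 σ]
      exact cf4_uniq _ hT0 _
    -- the next coefficient
    have hf1 : ∀ σ : Spin n, ∑ a ∈ Finset.Icc (-(od L : ℤ)) (ev L),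
        term L e (-1) k (4 * Q + 4 * (-1)) σ a =
          (if mm (lst σ) = 0 ∧ sm (lst σ) = 0 then
            -s * (cnt L σ σ (-(od L : ℤ) + 1) : ℤ) else 0) +
          if AllO σ ∧ sm (lst σ) = 2 * e then (if k = 1 then s else 0) else 0 := by
      intro σ
      by_cases hB : mm (lst σ) = 0 ∧ sm (lst σ) = 0
      · rw [if_pos hB, if_neg (by rintro ⟨-, h5⟩; rw [hB.2] at h5; omega), add_zero,
          cf4_one L e (-1) k _ σ (-(od L : ℤ) + 1) (by omega) (by omega)]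
        · rw [hB.2, hs, cf4_odd (0 + (-(od L : ℤ) + 1)) Q (by omega)]
        · rw [hB.1, hB.2, ← hQ]
          push_cast
          ring
      rw [if_neg hB, zero_add]
      by_cases hA : AllO σ ∧ sm (lst σ) = 2 * e
      · rw [if_pos hA]
        by_cases hk1 : k = 1
        · rw [if_pos hk1, cf4_one L e (-1) k _ σ (-Q) (by rw [hQ]) (by omega)]
          · rw [hQ, hCO σ hA.1, ← hQ, hA.2, Nat.cast_one, mul_one, hs,
              cf4_even (2 * e + -Q) Q (by omega)]
          · rw [hT2m σ hA.1 hA.2, hA.2, hk1]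
            push_cast
            linear_combination 4 * hee
        · rw [if_neg hk1]
          refine cf4_zero L e (-1) k _ σ fun a ha ha' hEq => ?_
          exfalso
          rw [← hQ] at ha
          rcases hE σ a _ hEq with ⟨h5, -, -⟩ | ⟨-, h5, h6⟩ | ⟨-, h6⟩
          · rw [hT2m σ hA.1 hA.2] at h5
            omega
          · rcases h5 with h5 | h5 | h5 <;> rw [h5] at h6 <;> omega
          · omega
      · rw [if_neg hA]
        refine cf4_zero L e (-1) k _ σ fun a ha ha' hEq => ?_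
        rw [← hQ] at ha
        rcases hE σ a _ hEq with ⟨h5, h6, h7⟩ | ⟨h4', h5, h6⟩ | ⟨-, h6⟩
        · exact absurd ⟨h5, h6⟩ hB
        · rcases h5 with h5 | h5 | h5
          · rw [h5] at h6
            have h8 : a = -Q := by omega
            rw [h8, hQ]
            refine hCN σ fun hO => hA ⟨hO, ?_⟩
            rw [hes _ _ h5]
            ring
          · exfalso
            rw [h5] at h6
            omega
          · exfalso
            rw [h5] at h6
            omega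
        · exfalso
          omega
    obtain ⟨S, hS⟩ : ∃ S : ℕ, S = ∑ σ ∈ Finset.univ.filter
        (fun σ : Spin n => mm (lst σ) = (n + 1) % 2 ∧ sm (lst σ) = 0),
        cnt L σ σ (-(od L : ℤ) + 1) := ⟨_, rfl⟩
    have hS1 : 1 ≤ S := by
      rw [hS]
      exact h4 n L 0 hn hF (Or.inl ⟨hn2, rfl⟩)
    have hc1 : cf L e (-1) k (4 * Q + 4 * (-1)) = -s * S + if k = 1 then s else 0 := by
      unfold cf
      rw [Finset.sum_congr rfl fun σ _ => hf1 σ, Finset.sum_add_distrib,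
        cf4_uniq _ hT2, ← Finset.sum_filter, ← Finset.mul_sum, hS]
      have h5 : (n + 1) % 2 = 0 := by omega
      rw [h5]
      push_cast
      rfl
    refine ⟨?_, ?_⟩
    · rw [hc0]
      intro h5
      rw [h5] at hss
      norm_num at hss
    · rw [hc0, hc1]
      have h6 : (1 : ℤ) ≤ S := by exact_mod_cast hS1
      by_cases hk1 : k = 1
      · rw [if_pos hk1]
        have h5 : s * (-s * S + s) = 1 - S := by
          linear_combination (1 - (S : ℤ)) * hss
        rw [h5]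
        linarith
      · rw [if_neg hk1]
        have h5 : s * (-s * S + 0) = -S := by
          linear_combination (-(S : ℤ)) * hss
        rw [h5]
        linarith

end Pool.Agent.TWB
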