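import Pool.Agent.TWB.St

/-!
# TWB: combinatorics of sequences of signs (module Cmb)
-/

set_option autoImplicit false

namespace Pool.Agent.TWB

open LaurentPolynomial Pool.Agent.Helper1.PK Pool.Agent.Per

theorem cmb_ne : (1 : ℤˣ) ≠ -1 := by decide

theorem cmb_ne' : (-1 : ℤˣ) ≠ 1 := by decide

theorem cmb_sgn (x : ℤˣ) : x = 1 ∨ x = -1 := Int.units_eq_one_or x

theorem cmb_ins (u w : List ℤˣ) : ins u.length (u ++ w) = u ++ 1 :: -1 :: w := by
  simp [ins]

theorem cmb_ins' {i : ℕ} {u : List ℤˣ} (h : u.length = i) (w : List ℤˣ) :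
    ins i (u ++ w) = u ++ 1 :: -1 :: w := by
  rw [← h]
  exact cmb_ins u w

theorem cmb_split {i : ℕ} {t : List ℤˣ} (h : i ≤ t.length) :
    ∃ u w : List ℤˣ, u.length = i ∧ t = u ++ w :=
  ⟨t.take i, t.drop i, List.length_take_of_le h, (List.take_append_drop i t).symm⟩

theorem cmb_five (i : ℕ) (s : List ℤˣ) : Jn i s ↔
    ∃ u w : List ℤˣ, u.length = i ∧ s = u ++ (1 : ℤˣ) :: (-1 : ℤˣ) :: w := by
  constructor
  · rintro ⟨t, h, rfl⟩
    exact ⟨t.take i, t.drop i, List.length_take_of_le h, rfl⟩
  · rintro ⟨u, w, h, rfl⟩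
    refine ⟨u ++ w, ?_, (cmb_ins' h w).symm⟩
    rw [List.length_append]
    omega

theorem cmb_get (i : ℕ) (s : List ℤˣ) : Jn i s ↔ s[i]? = some 1 ∧ s[i + 1]? = some (-1) := by
  rw [cmb_five]
  constructor
  · rintro ⟨u, w, rfl, rfl⟩
    constructor
    · simp
    · simp
  · rintro ⟨h1, h2⟩
    have h3 : i + 1 < s.length := by
      rw [List.getElem?_eq_some_iff] at h2
      exact h2.1
    have h4 : i < s.length := by omega
    refine ⟨s.take i, s.drop (i + 2), List.length_take_of_le (by omega), ?_⟩
    have h5 : s[i] = 1 := by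
      rw [List.getElem?_eq_getElem h4] at h1
      exact Option.some.inj h1
    have h6 : s[i + 1] = -1 := by
      rw [List.getElem?_eq_getElem h3] at h2
      exact Option.some.inj h2
    have h7 : s.drop i = 1 :: -1 :: s.drop (i + 2) := by
      rw [List.drop_eq_getElem_cons h4, List.drop_eq_getElem_cons h3, h5, h6]
    rw [← h7, List.take_append_drop]

theorem cmb_get_lt {i j : ℕ} {t : List ℤˣ} (hi : i ≤ t.length) (h : j < i) :
    (ins i t)[j]? = t[j]? := by
  obtain ⟨u, w, rfl, rfl⟩ := cmb_split hi
  rw [cmb_ins, List.getElem?_append_left h, List.getElem?_append_left h]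

theorem cmb_get_ge {i j : ℕ} {t : List ℤˣ} (hi : i ≤ t.length) (h : i ≤ j) :
    (ins i t)[j + 2]? = t[j]? := by
  obtain ⟨u, w, rfl, rfl⟩ := cmb_split hi
  rw [cmb_ins, List.getElem?_append_right (by omega), List.getElem?_append_right h]
  have h1 : j + 2 - u.length = (j - u.length) + 2 := by omega
  rw [h1]
  simp

theorem cmb_unm (u w : List ℤˣ) (h : ℕ) : unm h (u ++ 1 :: -1 :: w) = unm h (u ++ w) := by
  induction u generalizing h with
  | nil =>
    cases h with
    | zero => simp [unm, cmb_ne']
    | succ h => simp [unm, cmb_ne']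
  | cons x u ih =>
    rcases cmb_sgn x with rfl | rfl
    · cases h with
      | zero => simp [unm, ih]
      | succ h => simp [unm, ih]
    · cases h with
      | zero => simp [unm, ih, cmb_ne']
      | succ h => simp [unm, ih, cmb_ne']

theorem cmb_sm (u w : List ℤˣ) : sm (u ++ 1 :: -1 :: w) = sm (u ++ w) := by
  simp [sm]

theorem cmb_po (u w : List ℤˣ) (b : Bool) : po b (u ++ 1 :: -1 :: w) =
    po b (u ++ w) + if (u.length % 2 = 0 ↔ b = true) then 1 else 0 := by
  induction u generalizing b with
  | nil =>
    cases b with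
    | false => simp [po, cmb_ne']
    | true => simp [po, cmb_ne']; ring
  | cons x u ih =>
    rw [List.cons_append, List.cons_append]
    simp only [po]
    rw [ih]
    have h1 : (u.length % 2 = 0 ↔ (!b) = true) ↔ ((x :: u).length % 2 = 0 ↔ b = true) := by
      rw [List.length_cons]
      cases b with
      | false =>
        simp only [Bool.not_false, iff_true, Bool.false_eq_true, iff_false]
        omega
      | true =>
        simp only [Bool.not_true, Bool.false_eq_true, iff_false, iff_true]
        omega
    simp only [h1]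
    ring

theorem cmb_two (i : ℕ) (t : List ℤˣ) (hi : i ≤ t.length) :
    (ins i t).length = t.length + 2 ∧ mm (ins i t) = mm t ∧ sm (ins i t) = sm t ∧
    po true (ins i t) = po true t + if i % 2 = 0 then 1 else 0 := by
  obtain ⟨u, w, rfl, rfl⟩ := cmb_split hi
  rw [cmb_ins]
  refine ⟨?_, cmb_unm u w 0, cmb_sm u w, ?_⟩
  · simp only [List.length_append, List.length_cons]
    omega
  · rw [cmb_po]
    simp

theorem cmb_ones (b h : ℕ) : unm h (List.replicate b 1) = h + b := by
  induction b generalizing h with
  | zero => simp [unm]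
  | succ b ih =>
    rw [List.replicate_succ]
    cases h with
    | zero =>
      simp only [unm, if_true]
      rw [ih]
      omega
    | succ h =>
      simp only [unm, if_true]
      rw [ih]
      omega

theorem cmb_three (a b : ℕ) : mm (List.replicate a (-1) ++ List.replicate b 1) = a + b := by
  unfold mm
  induction a with
  | zero =>
    rw [List.replicate_zero, List.nil_append, cmb_ones]
  | succ a ih =>
    rw [List.replicate_succ, List.cons_append]
    simp only [unm, if_neg cmb_ne']
    rw [ih]
    omega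

theorem cmb_four (s : List ℤˣ) (h : ℕ) : unm h s ≤ h + s.length ∧
    unm h s % 2 = (h + s.length) % 2 ∧ |sm s + h| ≤ unm h s ∧ (sm s + h - unm h s) % 2 = 0 := by
  induction s generalizing h with
  | nil => simp [unm, sm]
  | cons x s ih =>
    have h0 : sm (x :: s) = (x : ℤ) + sm s := by simp [sm]
    rw [h0]
    rcases cmb_sgn x with rfl | rfl
    · cases h with
      | zero =>
        simp only [unm, if_true, List.length_cons, Units.val_one]
        obtain ⟨h1, h2, h3, h4⟩ := ih 1
        rw [abs_le] at h3
        push_cast at *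
        refine ⟨by omega, by omega, abs_le.2 ⟨by omega, by omega⟩, by omega⟩
      | succ h =>
        simp only [unm, if_true, List.length_cons, Units.val_one]
        obtain ⟨h1, h2, h3, h4⟩ := ih (h + 2)
        rw [abs_le] at h3
        push_cast at *
        refine ⟨by omega, by omega, abs_le.2 ⟨by omega, by omega⟩, by omega⟩
    · cases h with
      | zero =>
        simp only [unm, if_neg cmb_ne', List.length_cons, Units.val_neg, Units.val_one]
        obtain ⟨h1, h2, h3, h4⟩ := ih 0
        rw [abs_le] at h3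
        push_cast at *
        refine ⟨by omega, by omega, abs_le.2 ⟨by omega, by omega⟩, by omega⟩
      | succ h =>
        simp only [unm, if_neg cmb_ne', List.length_cons, Units.val_neg, Units.val_one]
        obtain ⟨h1, h2, h3, h4⟩ := ih h
        rw [abs_le] at h3
        push_cast at *
        refine ⟨by omega, by omega, abs_le.2 ⟨by omega, by omega⟩, by omega⟩

theorem cmb_one (s : List ℤˣ) : (∃ i : ℕ, Jn i s) ∨
    ∃ a b : ℕ, s = List.replicate a (-1) ++ List.replicate b 1 := by
  induction s with
  | nil => exact Or.inr ⟨0, 0, rfl⟩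
  | cons x s ih =>
    rcases ih with ⟨i, hi⟩ | ⟨a, b, hs⟩
    · left
      rw [cmb_five] at hi
      obtain ⟨u, w, hu, rfl⟩ := hi
      refine ⟨i + 1, (cmb_five _ _).2 ⟨x :: u, w, ?_, rfl⟩⟩
      rw [List.length_cons, hu]
    · rcases cmb_sgn x with rfl | rfl
      · cases a with
        | zero =>
          right
          refine ⟨0, b + 1, ?_⟩
          rw [hs]
          simp [List.replicate_succ]
        | succ a =>
          left
          refine ⟨0, (cmb_five _ _).2 ⟨[], List.replicate a (-1) ++ List.replicate b 1, rfl, ?_⟩⟩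
          rw [hs]
          simp [List.replicate_succ]
      · right
        refine ⟨a + 1, b, ?_⟩
        rw [hs]
        simp [List.replicate_succ]

theorem cmb_nine (i j : ℕ) (t : List ℤˣ) (h1 : i ≤ j) (h2 : j ≤ t.length) :
    ins (j + 2) (ins i t) = ins i (ins j t) := by
  obtain ⟨u, r, hu, rfl⟩ := cmb_split (h1.trans h2)
  rw [List.length_append] at h2
  obtain ⟨v, w, hv, rfl⟩ := cmb_split (t := r) (i := j - i) (by omega)
  rw [cmb_ins' hu]
  have e1 : u ++ 1 :: -1 :: (v ++ w) = (u ++ 1 :: -1 :: v) ++ w := by simp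
  have e2 : u ++ (v ++ w) = (u ++ v) ++ w := by simp
  rw [e1, cmb_ins' (by
    simp only [List.length_append, List.length_cons]
    omega), e2, cmb_ins' (u := u ++ v) (by
    rw [List.length_append]
    omega)]
  have e3 : (u ++ v) ++ 1 :: -1 :: w = u ++ (v ++ 1 :: -1 :: w) := by simp
  rw [e3, cmb_ins' hu]
  simp

theorem thm_Cmb : St_Cmb := by
  refine ⟨cmb_one, cmb_two, cmb_three, fun s => ?_, cmb_five, fun i s h1 h2 => ?_,
    fun i l t hi => ?_, fun i l t hi => ?_, cmb_nine⟩
  · have h := cmb_four s 0
    simpa [mm] using h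
  · rw [cmb_get] at h1 h2
    have h3 := h1.2.symm.trans h2.1
    exact cmb_ne' (Option.some.inj h3)
  · rw [cmb_get, cmb_get]
    have e1 : i + 2 + l = (i + l) + 2 := by omega
    have e2 : i + 2 + l + 1 = (i + l + 1) + 2 := by omega
    rw [e2, e1, cmb_get_ge hi (by omega), cmb_get_ge hi (by omega)]
  · rw [cmb_get, cmb_get, cmb_get_lt (by omega) (by omega), cmb_get_lt (by omega) (by omega)]

end Pool.Agent.TWB
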