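import Pool.Agent.TWB.St

/-!
# TWB: the numbers of paths
-/

set_option autoImplicit false

namespace Pool.Agent.TWB

open LaurentPolynomial Pool.Agent.Helper1.PK Pool.Agent.Per

section Cn

variable {n : ℕ}

theorem cn_ev_cons (i : Fin n) (L : List (Fin n)) :
    (ev (i :: L) : ℤ) = ev L + if (i : ℕ) % 2 = 0 then 1 else 0 := by
  unfold ev
  rw [List.countP_cons]
  by_cases h : (i : ℕ) % 2 = 0 <;> simp [h]

theorem cn_od_cons (i : Fin n) (L : List (Fin n)) :
    (od (i :: L) : ℤ) = od L + if (i : ℕ) % 2 = 1 then 1 else 0 := by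
  unfold od
  rw [List.countP_cons]
  by_cases h : (i : ℕ) % 2 = 1 <;> simp [h]

/-- the statement for one word -/
def cnAll (L : List (Fin n)) : Prop := ∀ (τ σ : Spin n) (a : ℤ), cnt L τ σ a ≠ 0 →
  mm (lst τ) = mm (lst σ) ∧ sm (lst τ) = sm (lst σ) ∧ -(od L : ℤ) ≤ a ∧ a ≤ ev L ∧
  po true (lst τ) - po true (lst σ) ≤ ev L - a ∧ po true (lst σ) - po true (lst τ) ≤ a + od L

theorem cn_all (h : St_Mv) (L : List (Fin n)) : cnAll L := by
  classical
  induction L with
  | nil =>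
    intro τ σ a ha
    unfold cnt at ha
    split_ifs at ha with h1
    · obtain ⟨rfl, rfl⟩ := h1
      simp [ev, od]
    · exact absurd rfl ha
  | cons i L ih =>
    intro τ σ a ha
    rw [cn_ev_cons, cn_od_cons]
    unfold cnt at ha
    rcases Nat.add_eq_zero_iff.not.mp ha |> not_and_or.mp with h1 | h1
    · obtain ⟨e1, e2, e3, e4, e5, e6⟩ := ih τ σ _ h1
      refine ⟨e1, e2, ?_⟩
      unfold pr at e3 e4 e5 e6
      split_ifs at e3 e4 e5 e6 ⊢ <;> omega
    · obtain ⟨ρ, hρ, h2⟩ := Finset.exists_ne_zero_of_sum_ne_zero h1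
      obtain ⟨e1, e2, e3, e4, e5, e6⟩ := ih ρ σ _ h2
      obtain ⟨f1, f2, f3, -⟩ := (h n i).1 ρ τ (Finset.mem_filter.mp hρ).2
      rw [f1, f2]
      refine ⟨e1, e2, ?_⟩
      unfold pr at f3
      split_ifs at f3 ⊢ <;> omega

theorem cn_top (h : St_Mv) (L : List (Fin n)) :
    (∀ τ σ : Spin n, po true (lst τ) = po true (lst σ) → cnt L τ σ (ev L) ≠ 0 → τ = σ) ∧
    ∀ σ : Spin n, ((∀ i ∈ L, ((i : ℕ) % 2 = 0 → Jn i (lst σ)) ∧
        ((i : ℕ) % 2 = 1 → ¬ Jn i (lst σ))) → cnt L σ σ (ev L) = 1) ∧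
      (¬ (∀ i ∈ L, ((i : ℕ) % 2 = 0 → Jn i (lst σ)) ∧
        ((i : ℕ) % 2 = 1 → ¬ Jn i (lst σ))) → cnt L σ σ (ev L) = 0) := by
  classical
  induction L with
  | nil =>
    refine ⟨fun τ σ _ h1 => ?_, fun σ => ⟨fun _ => ?_, fun h1 => ?_⟩⟩
    · unfold cnt at h1
      split_ifs at h1 with h2
      · exact h2.1
      · exact absurd rfl h1
    · simp [cnt, ev]
    · exact absurd (by simp) h1
  | cons i L ih =>
    obtain ⟨ih1, ih2⟩ := ih
    have hz : ∀ (τ σ : Spin n) (a : ℤ), (ev L : ℤ) < a → cnt L τ σ a = 0 := by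
      intro τ σ a ha
      by_contra h1
      have := (cn_all h L τ σ a h1).2.2.2.1
      omega
    have hi : (i : ℕ) % 2 = 0 ∨ (i : ℕ) % 2 = 1 := Nat.mod_two_eq_zero_or_one _
    have key : ∀ τ σ : Spin n, po true (lst τ) = po true (lst σ) →
        cnt (i :: L) τ σ (ev (i :: L)) = if ((i : ℕ) % 2 = 0 → Jn i (lst τ)) ∧
          ((i : ℕ) % 2 = 1 → ¬ Jn i (lst τ)) then cnt L τ σ (ev L) else 0 := by
      intro τ σ hp
      rw [cn_ev_cons]
      show cnt L τ σ _ + ∑ ρ ∈ Finset.univ.filter (fun ρ => Mv i ρ τ), cnt L ρ σ _ = _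
      have hs : ∑ ρ ∈ Finset.univ.filter (fun ρ => Mv i ρ τ),
          cnt L ρ σ ((ev L : ℤ) + if (i : ℕ) % 2 = 0 then 1 else 0) = 0 := by
        refine Finset.sum_eq_zero fun ρ hρ => ?_
        rcases hi with hi | hi
        · rw [if_pos hi]
          exact hz _ _ _ (by omega)
        · rw [if_neg (by omega), add_zero]
          by_contra h1
          have h2 := (cn_all h L ρ σ _ h1).2.2.2.2.1
          have h3 := ((h n i).1 ρ τ (Finset.mem_filter.mp hρ).2).2.2.1
          unfold pr at h3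
          rw [if_neg (by omega)] at h3
          omega
      rw [hs, add_zero]
      unfold pr
      rcases hi with hi | hi
      · by_cases hj : Jn i (lst τ)
        · rw [if_pos hi, if_pos hj, if_pos hi, if_pos ⟨fun _ => hj, fun h1 => by omega⟩]
          congr 1
          omega
        · rw [if_pos hi, if_neg hj, if_neg (fun h1 => hj (h1.1 hi))]
          exact hz _ _ _ (by omega)
      · have hi' : ¬ (i : ℕ) % 2 = 0 := by omega
        by_cases hj : Jn i (lst τ)
        · rw [if_neg hi', if_pos hj, if_neg hi', if_neg (fun h1 => h1.2 hi hj)]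
          exact hz _ _ _ (by omega)
        · rw [if_neg hi', if_neg hj, if_pos ⟨fun h1 => absurd h1 hi', fun _ => hj⟩]
          rw [add_zero, sub_zero]
    refine ⟨fun τ σ hp h1 => ?_, fun σ => ⟨fun h1 => ?_, fun h1 => ?_⟩⟩
    · rw [key τ σ hp] at h1
      split_ifs at h1
      · exact ih1 τ σ hp h1
      · exact absurd rfl h1
    · rw [key σ σ rfl, if_pos (h1 i (by simp))]
      exact (ih2 σ).1 fun j hj => h1 j (by simp [hj])
    · rw [key σ σ rfl]
      split_ifs with h2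
      · refine (ih2 σ).2 fun h3 => h1 fun j hj => ?_
        rcases List.mem_cons.mp hj with rfl | hj
        · exact h2
        · exact h3 j hj
      · rfl

theorem cn_bot (h : St_Mv) (L : List (Fin n)) :
    (∀ τ σ : Spin n, po true (lst τ) = po true (lst σ) → cnt L τ σ (-(od L : ℤ)) ≠ 0 → τ = σ) ∧
    ∀ σ : Spin n, ((∀ i ∈ L, ((i : ℕ) % 2 = 1 → Jn i (lst σ)) ∧
        ((i : ℕ) % 2 = 0 → ¬ Jn i (lst σ))) → cnt L σ σ (-(od L : ℤ)) = 1) ∧
      (¬ (∀ i ∈ L, ((i : ℕ) % 2 = 1 → Jn i (lst σ)) ∧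
        ((i : ℕ) % 2 = 0 → ¬ Jn i (lst σ))) → cnt L σ σ (-(od L : ℤ)) = 0) := by
  classical
  induction L with
  | nil =>
    refine ⟨fun τ σ _ h1 => ?_, fun σ => ⟨fun _ => ?_, fun h1 => ?_⟩⟩
    · unfold cnt at h1
      split_ifs at h1 with h2
      · exact h2.1
      · exact absurd rfl h1
    · simp [cnt, od]
    · exact absurd (by simp) h1
  | cons i L ih =>
    obtain ⟨ih1, ih2⟩ := ih
    have hz : ∀ (τ σ : Spin n) (a : ℤ), a < -(od L : ℤ) → cnt L τ σ a = 0 := by
      intro τ σ a ha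
      by_contra h1
      have := (cn_all h L τ σ a h1).2.2.1
      omega
    have hi : (i : ℕ) % 2 = 0 ∨ (i : ℕ) % 2 = 1 := Nat.mod_two_eq_zero_or_one _
    have key : ∀ τ σ : Spin n, po true (lst τ) = po true (lst σ) →
        cnt (i :: L) τ σ (-(od (i :: L) : ℤ)) = if ((i : ℕ) % 2 = 1 → Jn i (lst τ)) ∧
          ((i : ℕ) % 2 = 0 → ¬ Jn i (lst τ)) then cnt L τ σ (-(od L : ℤ)) else 0 := by
      intro τ σ hp
      rw [cn_od_cons]
      show cnt L τ σ _ + ∑ ρ ∈ Finset.univ.filter (fun ρ => Mv i ρ τ), cnt L ρ σ _ = _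
      have hs : ∑ ρ ∈ Finset.univ.filter (fun ρ => Mv i ρ τ),
          cnt L ρ σ (-((od L : ℤ) + if (i : ℕ) % 2 = 1 then 1 else 0)) = 0 := by
        refine Finset.sum_eq_zero fun ρ hρ => ?_
        rcases hi with hi | hi
        · rw [if_neg (by omega), add_zero]
          by_contra h1
          have h2 := (cn_all h L ρ σ _ h1).2.2.2.2.2
          have h3 := ((h n i).1 ρ τ (Finset.mem_filter.mp hρ).2).2.2.1
          unfold pr at h3
          rw [if_pos hi] at h3
          omega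
        · rw [if_pos hi]
          exact hz _ _ _ (by omega)
      rw [hs, add_zero]
      unfold pr
      rcases hi with hi | hi
      · have hi' : ¬ (i : ℕ) % 2 = 1 := by omega
        by_cases hj : Jn i (lst τ)
        · rw [if_neg hi', if_pos hj, if_pos hi, if_neg (fun h1 => h1.2 hi hj)]
          exact hz _ _ _ (by omega)
        · rw [if_neg hi', if_neg hj, if_pos ⟨fun h1 => absurd h1 hi', fun _ => hj⟩]
          congr 1
          omega
      · have hi' : ¬ (i : ℕ) % 2 = 0 := by omega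
        by_cases hj : Jn i (lst τ)
        · rw [if_pos hi, if_pos hj, if_neg hi', if_pos ⟨fun _ => hj, fun h1 => absurd h1 hi'⟩]
          congr 1
          omega
        · rw [if_pos hi, if_neg hj, if_neg (fun h1 => hj (h1.1 hi))]
          exact hz _ _ _ (by omega)
    refine ⟨fun τ σ hp h1 => ?_, fun σ => ⟨fun h1 => ?_, fun h1 => ?_⟩⟩
    · rw [key τ σ hp] at h1
      split_ifs at h1
      · exact ih1 τ σ hp h1
      · exact absurd rfl h1
    · rw [key σ σ rfl, if_pos (h1 i (by simp))]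
      exact (ih2 σ).1 fun j hj => h1 j (by simp [hj])
    · rw [key σ σ rfl]
      split_ifs with h2
      · refine (ih2 σ).2 fun h3 => h1 fun j hj => ?_
        rcases List.mem_cons.mp hj with rfl | hj
        · exact h2
        · exact h3 j hj
      · rfl

end Cn

theorem thm_Cn (h : St_Mv) (h2 : St_Cmb) : St_Cn := by
  intro n L
  refine ⟨fun τ σ a ha => ?_, fun hn hL σ => ?_⟩
  · obtain ⟨e1, e2, e3, e4, -⟩ := cn_all h L τ σ a ha
    exact ⟨e1, e2, e3, e4⟩
  · have hadj := h2.2.2.2.2.2.1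
    have hE : AllE σ → ∀ i ∈ L, ((i : ℕ) % 2 = 0 → Jn i (lst σ)) ∧
        ((i : ℕ) % 2 = 1 → ¬ Jn i (lst σ)) := by
      intro h1 i _
      refine ⟨fun hi => h1 i hi, fun hi => ?_⟩
      have h3 := hadj ((i : ℕ) - 1) (lst σ) (h1 ⟨(i : ℕ) - 1, by have := i.2; omega⟩
        (by show ((i : ℕ) - 1) % 2 = 0; omega))
      rwa [show (i : ℕ) - 1 + 1 = i by omega] at h3
    have hO : AllO σ → ∀ i ∈ L, ((i : ℕ) % 2 = 1 → Jn i (lst σ)) ∧
        ((i : ℕ) % 2 = 0 → ¬ Jn i (lst σ)) := by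
      intro h1 i _
      refine ⟨fun hi => h1 i hi, fun hi => ?_⟩
      by_cases h0 : (i : ℕ) = 0
      · intro h3
        exact hadj (i : ℕ) (lst σ) h3 (by
          rw [h0]
          exact h1 ⟨1, by omega⟩ rfl)
      · have h3 := hadj ((i : ℕ) - 1) (lst σ) (h1 ⟨(i : ℕ) - 1, by have := i.2; omega⟩
          (by show ((i : ℕ) - 1) % 2 = 1; omega))
        rwa [show (i : ℕ) - 1 + 1 = i by omega] at h3
    refine ⟨fun h1 => ((cn_top h L).2 σ).1 (hE h1), fun h1 => ((cn_top h L).2 σ).2 ?_,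
      fun h1 => ((cn_bot h L).2 σ).1 (hO h1), fun h1 => ((cn_bot h L).2 σ).2 ?_⟩
    · exact fun h3 => h1 fun i hi => (h3 i (hL i)).1 hi
    · exact fun h3 => h1 fun i hi => (h3 i (hL i)).1 hi

end Pool.Agent.TWB
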