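import Pool.Agent.TWB.St

/-!
# TWB: an excursion from the state which is joined at the even places
-/

set_option autoImplicit false

namespace Pool.Agent.TWB

open LaurentPolynomial Pool.Agent.Helper1.PK Pool.Agent.Per

/-! ### general facts on paths -/

open Classical in
theorem ex1_cons {n : ℕ} (i : Fin n) (L : List (Fin n)) (τ σ : Spin n) (a : ℤ) :
    cnt (i :: L) τ σ a = cnt L τ σ (a - if Jn i (lst τ) then pr i else 0) +
      ∑ ρ ∈ Finset.univ.filter (fun ρ => Mv i ρ τ), cnt L ρ σ a := rfl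

open Classical in
theorem ex1_stay {n : ℕ} (i : Fin n) (L : List (Fin n)) (τ σ : Spin n) (a : ℤ) :
    cnt L τ σ a ≤ cnt (i :: L) τ σ (a + if Jn i (lst τ) then pr i else 0) := by
  rw [ex1_cons, add_sub_cancel_right]
  exact Nat.le_add_right _ _

theorem ex1_move {n : ℕ} (i : Fin n) (L : List (Fin n)) (ρ τ σ : Spin n) (a : ℤ)
    (h : Mv i ρ τ) : cnt L ρ σ a ≤ cnt (i :: L) τ σ a := by
  classical
  rw [ex1_cons]
  refine le_trans ?_ (Nat.le_add_left _ _)
  exact Finset.single_le_sum (f := fun ρ => cnt L ρ σ a) (fun _ _ => Nat.zero_le _)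
    (Finset.mem_filter.2 ⟨Finset.mem_univ ρ, h⟩)

theorem ex1_ev_cons {n : ℕ} (i : Fin n) (L : List (Fin n)) :
    ev (i :: L) = ev L + if (i : ℕ) % 2 = 0 then 1 else 0 := by
  unfold ev
  rw [List.countP_cons]
  simp only [decide_eq_true_eq]

theorem ex1_ev_append {n : ℕ} (L₁ L₂ : List (Fin n)) : ev (L₁ ++ L₂) = ev L₁ + ev L₂ := by
  induction L₁ with
  | nil =>
    have h1 : ev ([] : List (Fin n)) = 0 := rfl
    rw [h1, zero_add, List.nil_append]
  | cons i L₁ ih =>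
    rw [List.cons_append, ex1_ev_cons, ex1_ev_cons, ih]
    ring

theorem ex1_ev_one {n : ℕ} (i : Fin n) : ev [i] = if (i : ℕ) % 2 = 0 then 1 else 0 := by
  rw [ex1_ev_cons]
  have h1 : ev ([] : List (Fin n)) = 0 := rfl
  rw [h1, zero_add]

open Classical in
/-- staying at a state whose joined places are the even ones -/
theorem ex1_stays {n : ℕ} (L₁ L : List (Fin n)) (τ σ : Spin n) (a : ℤ)
    (h : ∀ i ∈ L₁, (Jn i (lst τ) ↔ (i : ℕ) % 2 = 0)) :
    cnt L τ σ a ≤ cnt (L₁ ++ L) τ σ (a + ev L₁) := by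
  induction L₁ with
  | nil =>
    have h1 : (ev ([] : List (Fin n)) : ℤ) = 0 := rfl
    rw [h1, add_zero]
    exact le_refl _
  | cons i L₁ ih =>
    have h1 := ih (fun j hj => h j (List.mem_cons_of_mem _ hj))
    have h2 := ex1_stay i (L₁ ++ L) τ σ (a + ev L₁)
    have h3 : a + (ev L₁ : ℤ) + (if Jn i (lst τ) then pr i else 0) = a + (ev (i :: L₁) : ℤ) := by
      rw [ex1_ev_cons]
      by_cases hi : (i : ℕ) % 2 = 0
      · rw [if_pos ((h i List.mem_cons_self).2 hi), if_pos hi]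
        unfold pr
        rw [if_pos hi]
        push_cast
        ring
      · rw [if_neg (fun hj => hi ((h i List.mem_cons_self).1 hj)), if_neg hi]
        push_cast
        ring
    rw [h3] at h2
    exact h1.trans h2

/-! ### lists of signs -/

/-- every list of length `n + 1` is the list of a state -/
theorem ex1_surj {n : ℕ} (s : List ℤˣ) (hs : s.length = n + 1) : ∃ σ : Spin n, lst σ = s := by
  refine ⟨fun i => s[(i : ℕ)]'(by omega), ?_⟩
  unfold lst
  apply List.ext_getElem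
  · rw [List.length_ofFn, hs]
  · intro i h1 h2
    rw [List.getElem_ofFn]

theorem ex1_Jn (h3 : St_Cmb) (i : ℕ) (s : List ℤˣ) :
    Jn i s ↔ s[i]? = some 1 ∧ s[i + 1]? = some (-1) := by
  rw [h3.2.2.2.2.1 i s]
  constructor
  · rintro ⟨u, w, hu, rfl⟩
    subst hu
    rw [List.getElem?_append_right (le_refl _), List.getElem?_append_right (Nat.le_succ _)]
    simp
  · rintro ⟨h1, h2⟩
    obtain ⟨h1a, h1b⟩ := List.getElem?_eq_some_iff.1 h1
    obtain ⟨h2a, h2b⟩ := List.getElem?_eq_some_iff.1 h2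
    refine ⟨s.take i, s.drop (i + 2), ?_, ?_⟩
    · rw [List.length_take]
      omega
    · have e1 : s = s.take i ++ s.drop i := (List.take_append_drop i s).symm
      have e2 : s.drop i = s[i] :: s.drop (i + 1) := List.drop_eq_getElem_cons h1a
      have e3 : s.drop (i + 1) = s[i + 1] :: s.drop (i + 1 + 1) := List.drop_eq_getElem_cons h2a
      rw [e2, e3, h1b, h2b] at e1
      exact e1

/-- `K` pairs `+ -` in front of `r` -/
def ex1_al (r : List ℤˣ) : ℕ → List ℤˣ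
  | 0 => r
  | K + 1 => 1 :: -1 :: ex1_al r K

theorem ex1_al_ins (r : List ℤˣ) (K : ℕ) : ex1_al r (K + 1) = ins 0 (ex1_al r K) := rfl

theorem ex1_al_length (r : List ℤˣ) (K : ℕ) : (ex1_al r K).length = 2 * K + r.length := by
  induction K with
  | zero => simp [ex1_al]
  | succ K ih =>
    rw [ex1_al, List.length_cons, List.length_cons, ih]
    ring

theorem ex1_al_get (r : List ℤˣ) (K i : ℕ) (h : i < 2 * K) :
    (ex1_al r K)[i]? = some (if i % 2 = 0 then 1 else -1) := by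
  induction K generalizing i with
  | zero => omega
  | succ K ih =>
    match i with
    | 0 => rfl
    | 1 => rfl
    | i + 2 =>
      rw [ex1_al, List.getElem?_cons_succ, List.getElem?_cons_succ, ih i (by omega)]
      rw [Nat.add_mod_right]

theorem ex1_al_mm (h3 : St_Cmb) (r : List ℤˣ) (K : ℕ) : mm (ex1_al r K) = mm r := by
  induction K with
  | zero => rfl
  | succ K ih => rw [ex1_al_ins, (h3.2.1 0 _ (Nat.zero_le _)).2.1, ih]

theorem ex1_al_sm (h3 : St_Cmb) (r : List ℤˣ) (K : ℕ) : sm (ex1_al r K) = sm r := by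
  induction K with
  | zero => rfl
  | succ K ih => rw [ex1_al_ins, (h3.2.1 0 _ (Nat.zero_le _)).2.2.1, ih]

/-! ### moves -/

/-- from `ins i t` to `ins (i + 1) t` -/
theorem ex1_mv_up (h1 : St_Rel) (h2 : St_Val) (h3 : St_Cmb) {n : ℕ} (a : Fin n) (t : List ℤˣ)
    (ρ τ : Spin n) (i : ℕ) (ha : (a : ℕ) = i + 1) (hi : i + 1 ≤ t.length)
    (hρ : lst ρ = ins i t) (hτ : lst τ = ins (i + 1) t) : Mv a ρ τ := by
  refine ⟨?_, ?_, ?_⟩
  · rw [hρ, ha]
    exact h3.2.2.2.2.2.1 i _ ⟨t, by omega, rfl⟩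
  · rw [hρ, hτ, ha, (h2 RR AA).1 i t (by omega), (h2 RR AA).1 (i + 1) t hi]
    exact (h1 RR AA).2.2.2.1 i _
  · rw [hρ, hτ, (h3.2.1 i t (by omega)).2.1, (h3.2.1 (i + 1) t hi).2.1]

/-- from `ins (i + 1) t` to `ins i t` -/
theorem ex1_mv_down (h1 : St_Rel) (h2 : St_Val) (h3 : St_Cmb) {n : ℕ} (a : Fin n) (t : List ℤˣ)
    (ρ τ : Spin n) (i : ℕ) (ha : (a : ℕ) = i) (hi : i + 1 ≤ t.length)
    (hρ : lst ρ = ins (i + 1) t) (hτ : lst τ = ins i t) : Mv a ρ τ := by
  refine ⟨?_, ?_, ?_⟩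
  · rw [hρ, ha]
    intro h
    exact h3.2.2.2.2.2.1 i _ h ⟨t, hi, rfl⟩
  · rw [hρ, hτ, ha, (h2 RR AA).1 i t (by omega), (h2 RR AA).1 (i + 1) t hi]
    exact (h1 RR AA).2.2.2.2.1 t.length i _ ((h2 RR AA).2.1 t) hi
  · rw [hρ, hτ, (h3.2.1 i t (by omega)).2.1, (h3.2.1 (i + 1) t hi).2.1]

/-! ### the closed path -/

/-- the property of a word -/
private def ex1_G {n : ℕ} (x : ℤ) (L : List (Fin n)) : Prop :=
  1 ≤ ∑ σ ∈ Finset.univ.filter
    (fun σ : Spin n => mm (lst σ) = (n + 1) % 2 ∧ sm (lst σ) = x), cnt L σ σ (ev L - 1)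

private theorem ex1_rot (h4 : St_Rot) {n : ℕ} (x : ℤ) (L₁ L₂ : List (Fin n))
    (h : ex1_G x (L₁ ++ L₂)) : ex1_G x (L₂ ++ L₁) := by
  unfold ex1_G at h ⊢
  rw [ex1_ev_append] at h ⊢
  rw [h4 n L₂ L₁, add_comm (ev L₂) (ev L₁)]
  exact h

private theorem ex1_main (h1 : St_Rel) (h2 : St_Val) (h3 : St_Cmb) {n : ℕ} (x : ℤ) (hn : 2 ≤ n)
    (hx : (n % 2 = 1 ∧ x = 0) ∨ (n % 2 = 0 ∧ (x = 1 ∨ x = -1))) (q one : Fin n)
    (hone : (one : ℕ) = 1) (hq : (q : ℕ) = 0 ∨ (q : ℕ) = 2) (L₂ L₁ : List (Fin n))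
    (hL₁ : ∀ i ∈ L₁, 3 ≤ (i : ℕ)) : ex1_G x (L₂ ++ q :: (L₁ ++ [one])) := by
  -- the end of the list
  obtain ⟨r, K, hr, hrK, hmr, hsr⟩ : ∃ (r : List ℤˣ) (K : ℕ), r.length ≤ 1 ∧
      2 * (K + 1) + r.length = n + 1 ∧ mm r = (n + 1) % 2 ∧ sm r = x := by
    rcases hx with ⟨h, rfl⟩ | ⟨h, hx⟩
    · refine ⟨[], (n - 1) / 2, by simp, by simp; omega, ?_, rfl⟩
      show 0 = _
      omega
    · rcases hx with rfl | rfl
      · refine ⟨[1], n / 2 - 1, by simp, by simp; omega, ?_, rfl⟩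
        have : mm [(1 : ℤˣ)] = 1 := rfl
        omega
      · refine ⟨[-1], n / 2 - 1, by simp, by simp; omega, ?_, rfl⟩
        have : mm [(-1 : ℤˣ)] = 1 := rfl
        omega
  have ht : (ex1_al r K).length = n - 1 := by
    rw [ex1_al_length]
    omega
  obtain ⟨X, hX⟩ : ∃ σ : Spin n, lst σ = ins 0 (ex1_al r K) := by
    apply ex1_surj
    rw [(h3.2.1 0 _ (Nat.zero_le _)).1, ht]
    omega
  obtain ⟨Y, hY⟩ : ∃ σ : Spin n, lst σ = ins 1 (ex1_al r K) := by
    apply ex1_surj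
    rw [(h3.2.1 1 _ (by omega)).1, ht]
    omega
  have m1 : Mv one X Y := ex1_mv_up h1 h2 h3 one (ex1_al r K) X Y 0 hone (by omega) hX hY
  have m2 : Mv q Y X := by
    rcases hq with hq | hq
    · exact ex1_mv_down h1 h2 h3 q (ex1_al r K) Y X 0 hq (by omega) hY hX
    · have hqn := q.2
      obtain ⟨K', rfl⟩ : ∃ K', K = K' + 1 := ⟨K - 1, by omega⟩
      refine ex1_mv_up h1 h2 h3 q (ex1_al r (K' + 1)) Y X 1 hq (by omega) hY ?_
      rw [hX]
      rfl
  -- staying
  have s1 : ∀ i : Fin n, Jn i (lst X) ↔ (i : ℕ) % 2 = 0 := by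
    intro i
    have hi := i.2
    rw [hX, ← ex1_al_ins, ex1_Jn h3]
    constructor
    · rintro ⟨h5, -⟩
      by_contra h6
      rw [ex1_al_get r (K + 1) i (by omega), if_neg h6] at h5
      exact absurd (Option.some_injective _ h5) (by decide)
    · intro h5
      rw [ex1_al_get r (K + 1) i (by omega), ex1_al_get r (K + 1) (i + 1) (by omega), if_pos h5,
        if_neg (by omega)]
      exact ⟨rfl, rfl⟩
  have s2 : ∀ i ∈ L₁, (Jn i (lst Y) ↔ (i : ℕ) % 2 = 0) := by
    intro i hi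
    have hi3 := hL₁ i hi
    have hin := i.2
    obtain ⟨K', rfl⟩ : ∃ K', K = K' + 1 := ⟨K - 1, by omega⟩
    have e1 : lst Y = 1 :: 1 :: -1 :: -1 :: ex1_al r K' := hY
    rw [ex1_Jn h3, e1]
    obtain ⟨j, hj⟩ : ∃ j, (i : ℕ) = j + 3 := ⟨i - 3, by omega⟩
    rw [hj, List.getElem?_cons_succ, List.getElem?_cons_succ, List.getElem?_cons_succ,
      List.getElem?_cons_succ, List.getElem?_cons_succ, List.getElem?_cons_succ,
      List.getElem?_cons_succ]
    match j with
    | 0 =>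
      constructor
      · rintro ⟨h5, -⟩
        exact absurd (Option.some_injective _ h5) (by decide)
      · intro h5
        omega
    | j + 1 =>
      rw [List.getElem?_cons_succ]
      constructor
      · rintro ⟨h5, -⟩
        by_contra h6
        rw [ex1_al_get r K' j (by omega), if_neg (by omega)] at h5
        exact absurd (Option.some_injective _ h5) (by decide)
      · intro h5
        rw [ex1_al_get r K' j (by omega), ex1_al_get r K' (j + 1) (by omega), if_pos (by omega),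
          if_neg (by omega)]
        exact ⟨rfl, rfl⟩
  -- the path
  have p0 : (1 : ℕ) ≤ cnt ([] : List (Fin n)) X X 0 := by
    unfold cnt
    rw [if_pos ⟨rfl, rfl⟩]
  have p1 := p0.trans (ex1_move one [] X Y X 0 m1)
  have p2 := p1.trans (ex1_stays L₁ [one] Y X 0 s2)
  have p3 := p2.trans (ex1_move q (L₁ ++ [one]) Y X X _ m2)
  have p4 := p3.trans (ex1_stays L₂ (q :: (L₁ ++ [one])) X X _ (fun i _ => s1 i))
  have e2 : ((ev (L₂ ++ q :: (L₁ ++ [one])) : ℕ) : ℤ) - 1 = 0 + (ev L₁ : ℤ) + (ev L₂ : ℤ) := by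
    have e3 : L₂ ++ q :: (L₁ ++ [one]) = L₂ ++ ([q] ++ (L₁ ++ [one])) := rfl
    rw [e3, ex1_ev_append, ex1_ev_append, ex1_ev_append, ex1_ev_one, ex1_ev_one, hone,
      if_pos (by omega), if_neg (by omega)]
    push_cast
    ring
  unfold ex1_G
  rw [e2]
  refine p4.trans ?_
  refine Finset.single_le_sum
    (f := fun σ : Spin n => cnt (L₂ ++ q :: (L₁ ++ [one])) σ σ (0 + (ev L₁ : ℤ) + (ev L₂ : ℤ)))
    (fun _ _ => Nat.zero_le _) (Finset.mem_filter.2 ⟨Finset.mem_univ X, ?_, ?_⟩)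
  · rw [hX, ← ex1_al_ins, ex1_al_mm h3, hmr]
  · rw [hX, ← ex1_al_ins, ex1_al_sm h3, hsr]

private theorem ex1_ind (h1 : St_Rel) (h2 : St_Val) (h3 : St_Cmb) (h4 : St_Rot) {n : ℕ} (x : ℤ)
    (hn : 2 ≤ n) (hx : (n % 2 = 1 ∧ x = 0) ∨ (n % 2 = 0 ∧ (x = 1 ∨ x = -1))) (zero one : Fin n)
    (hzero : (zero : ℕ) = 0) (hone : (one : ℕ) = 1) (M : List (Fin n)) :
    ∀ K L₁ : List (Fin n), (∀ i ∈ L₁, 3 ≤ (i : ℕ)) → zero ∈ M →
      ex1_G x (K ++ M ++ (L₁ ++ [one])) := by
  induction M using List.reverseRecOn with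
  | nil =>
    intro K L₁ _ h
    simp at h
  | append_singleton M q ih =>
    intro K L₁ hL₁ h0
    by_cases hq1 : (q : ℕ) = 1
    · have hq : q = one := Fin.ext (hq1.trans hone.symm)
      subst hq
      have h0' : zero ∈ M := by
        rcases List.mem_append.1 h0 with h | h
        · exact h
        · rw [List.mem_singleton] at h
          rw [h, hone] at hzero
          omega
      have h5 := ih (L₁ ++ [q] ++ K) [] (fun i hi => by simp at hi) h0'
      have h6 : L₁ ++ [q] ++ K ++ M ++ ([] ++ [q]) = (L₁ ++ [q]) ++ (K ++ (M ++ [q])) := by simp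
      rw [h6] at h5
      exact ex1_rot h4 x _ _ h5
    · by_cases hq2 : (q : ℕ) = 0 ∨ (q : ℕ) = 2
      · have h5 := ex1_main h1 h2 h3 x hn hx q one hone hq2 (K ++ M) L₁ hL₁
        have h6 : K ++ M ++ q :: (L₁ ++ [one]) = K ++ (M ++ [q]) ++ (L₁ ++ [one]) := by simp
        rwa [h6] at h5
      · have h0' : zero ∈ M := by
          rcases List.mem_append.1 h0 with h | h
          · exact h
          · rw [List.mem_singleton] at h
            rw [← h, hzero] at hq2
            exact absurd (Or.inl rfl) hq2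
        have h5 := ih K (q :: L₁) (fun i hi => by
          rcases List.mem_cons.1 hi with h | h
          · rw [h]
            omega
          · exact hL₁ i h) h0'
        have h6 : K ++ M ++ (q :: L₁ ++ [one]) = K ++ (M ++ [q]) ++ (L₁ ++ [one]) := by simp
        rwa [h6] at h5

/-- an excursion by the place `1` -/
theorem thm_Ex1 (h1 : St_Rel) (h2 : St_Val) (h3 : St_Cmb) (h4 : St_Rot) : St_Ex1 := by
  intro n L x hn hfull hx
  obtain ⟨A, B, hAB⟩ := List.append_of_mem (hfull ⟨1, by omega⟩)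
  have h0 : (⟨0, by omega⟩ : Fin n) ∈ B ++ A := by
    have h := hfull ⟨0, by omega⟩
    rw [hAB, List.mem_append, List.mem_cons] at h
    rcases h with h | h | h
    · exact List.mem_append_right _ h
    · exact absurd (congrArg Fin.val h) (by simp)
    · exact List.mem_append_left _ h
  have h5 := ex1_ind h1 h2 h3 h4 x hn hx ⟨0, by omega⟩ ⟨1, by omega⟩ rfl rfl (B ++ A) [] []
    (fun i hi => by simp at hi) h0
  have h6 : [] ++ (B ++ A) ++ ([] ++ [(⟨1, by omega⟩ : Fin n)]) = B ++ (A ++ [⟨1, by omega⟩]) := by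
    simp
  rw [h6] at h5
  have h7 := ex1_rot h4 x _ _ h5
  have h8 : A ++ [(⟨1, by omega⟩ : Fin n)] ++ B = L := by
    rw [hAB]
    simp
  rw [h8] at h7
  exact h7

end Pool.Agent.TWB
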