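import Pool.Agent.TWB.Ex1

/-!
# TWB: an excursion from the state which is joined at the odd places
-/

set_option autoImplicit false

namespace Pool.Agent.TWB

open LaurentPolynomial Pool.Agent.Helper1.PK Pool.Agent.Per

private theorem ex2_od_cons {n : ℕ} (i : Fin n) (L : List (Fin n)) :
    od (i :: L) = od L + if (i : ℕ) % 2 = 1 then 1 else 0 := by
  unfold od
  rw [List.countP_cons]
  simp only [decide_eq_true_eq]

private theorem ex2_od_append {n : ℕ} (L₁ L₂ : List (Fin n)) :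
    od (L₁ ++ L₂) = od L₁ + od L₂ := by
  unfold od
  rw [List.countP_append]

private theorem ex2_od_one {n : ℕ} (i : Fin n) :
    od [i] = if (i : ℕ) % 2 = 1 then 1 else 0 := by
  rw [ex2_od_cons]
  have h1 : od ([] : List (Fin n)) = 0 := rfl
  rw [h1, zero_add]

open Classical in
/-- staying at a state whose joined places are the odd ones -/
private theorem ex2_stays {n : ℕ} (L₁ L : List (Fin n)) (τ σ : Spin n) (a : ℤ)
    (h : ∀ i ∈ L₁, (Jn i (lst τ) ↔ (i : ℕ) % 2 = 1)) :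
    cnt L τ σ a ≤ cnt (L₁ ++ L) τ σ (a - od L₁) := by
  induction L₁ with
  | nil =>
    have h1 : (od ([] : List (Fin n)) : ℤ) = 0 := rfl
    rw [h1, sub_zero]
    exact le_refl _
  | cons i L₁ ih =>
    have h1 := ih (fun j hj => h j (List.mem_cons_of_mem _ hj))
    have h2 := ex1_stay i (L₁ ++ L) τ σ (a - od L₁)
    have h3 : a - (od L₁ : ℤ) + (if Jn i (lst τ) then pr i else 0) = a - (od (i :: L₁) : ℤ) := by
      rw [ex2_od_cons]
      by_cases hi : (i : ℕ) % 2 = 1
      · rw [if_pos ((h i List.mem_cons_self).2 hi), if_pos hi]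
        unfold pr
        rw [if_neg (by omega)]
        push_cast
        ring
      · rw [if_neg (fun hj => hi ((h i List.mem_cons_self).1 hj)), if_neg hi]
        push_cast
        ring
    rw [h3] at h2
    exact h1.trans h2

private theorem ex2_ins (z : ℤˣ) (r : List ℤˣ) (K : ℕ) :
    z :: ex1_al r (K + 1) = ins 1 (z :: ex1_al r K) := rfl

private theorem ex2_mm (h3 : St_Cmb) (z : ℤˣ) (r : List ℤˣ) (K : ℕ) :
    mm (z :: ex1_al r K) = mm (z :: r) := by
  induction K with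
  | zero => rfl
  | succ K ih =>
    rw [ex2_ins, (h3.2.1 1 _ (by rw [List.length_cons]; omega)).2.1, ih]

private theorem ex2_sm (h3 : St_Cmb) (z : ℤˣ) (r : List ℤˣ) (K : ℕ) :
    sm (z :: ex1_al r K) = sm (z :: r) := by
  induction K with
  | zero => rfl
  | succ K ih =>
    rw [ex2_ins, (h3.2.1 1 _ (by rw [List.length_cons]; omega)).2.2.1, ih]

/-- the property of a word -/
private def ex2_G {n : ℕ} (x : ℤ) (L : List (Fin n)) : Prop :=
  1 ≤ ∑ σ ∈ Finset.univ.filter
    (fun σ : Spin n => mm (lst σ) = (n + 1) % 2 ∧ sm (lst σ) = x), cnt L σ σ (-(od L : ℤ) + 1)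

private theorem ex2_rot (h4 : St_Rot) {n : ℕ} (x : ℤ) (L₁ L₂ : List (Fin n))
    (h : ex2_G x (L₁ ++ L₂)) : ex2_G x (L₂ ++ L₁) := by
  unfold ex2_G at h ⊢
  rw [ex2_od_append] at h ⊢
  rw [h4 n L₂ L₁, add_comm (od L₂) (od L₁)]
  exact h

/-- the parameters of the state `x` -/
private theorem ex2_par {n : ℕ} (x : ℤ) (hn : 2 ≤ n)
    (hx : (n % 2 = 1 ∧ x = 0) ∨ (n % 2 = 0 ∧ (x = 1 ∨ x = -1))) :
    ∃ (z : ℤˣ) (r : List ℤˣ) (K : ℕ), r.length ≤ 1 ∧ 2 * K + 2 + r.length + 1 = n + 1 ∧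
      mm (z :: r) = (n + 1) % 2 ∧ sm (z :: r) = x := by
  rcases hx with ⟨h, rfl⟩ | ⟨h, hx⟩
  · refine ⟨1, [-1], (n - 3) / 2, by simp, by simp; omega, ?_, rfl⟩
    have : mm [(1 : ℤˣ), -1] = 0 := rfl
    omega
  · rcases hx with rfl | rfl
    · refine ⟨1, [], n / 2 - 1, by simp, by simp; omega, ?_, rfl⟩
      have : mm [(1 : ℤˣ)] = 1 := rfl
      omega
    · refine ⟨-1, [], n / 2 - 1, by simp, by simp; omega, ?_, rfl⟩
      have : mm [(-1 : ℤˣ)] = 1 := rfl
      omega

/-- the joined places of `x` -/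
private theorem ex2_JX (h3 : St_Cmb) {n : ℕ} (z : ℤˣ) (r : List ℤˣ) (K : ℕ)
    (hr : r.length ≤ 1) (hn : 2 * K + 2 + r.length + 1 = n + 1) (X : Spin n)
    (hX : lst X = ins 1 (z :: ex1_al r K)) (i : Fin n) : Jn i (lst X) ↔ (i : ℕ) % 2 = 1 := by
  have hi := i.2
  rw [hX, ← ex2_ins, ex1_Jn h3, List.getElem?_cons_succ]
  obtain ⟨j, hj⟩ : ∃ j, (i : ℕ) = j := ⟨i, rfl⟩
  rw [hj] at hi ⊢
  match j, hi with
  | 0, hi =>
    constructor
    · rintro ⟨-, h5⟩
      rw [ex1_al_get r (K + 1) 0 (by omega)] at h5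
      exact absurd (Option.some_injective _ h5) (by decide)
    · intro h5
      omega
  | j + 1, hi =>
    rw [List.getElem?_cons_succ]
    constructor
    · rintro ⟨h5, -⟩
      by_contra h6
      rw [ex1_al_get r (K + 1) j (by omega), if_neg (by omega)] at h5
      exact absurd (Option.some_injective _ h5) (by decide)
    · intro h5
      rw [ex1_al_get r (K + 1) j (by omega), ex1_al_get r (K + 1) (j + 1) (by omega),
        if_pos (by omega), if_neg (by omega)]
      exact ⟨rfl, rfl⟩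

private theorem ex2_fin (h3 : St_Cmb) {n : ℕ} (x : ℤ) (z : ℤˣ) (r : List ℤˣ) (K : ℕ)
    (hmr : mm (z :: r) = (n + 1) % 2) (hsr : sm (z :: r) = x) (X : Spin n)
    (hX : lst X = ins 1 (z :: ex1_al r K)) (L : List (Fin n))
    (h : 1 ≤ cnt L X X (-(od L : ℤ) + 1)) : ex2_G x L := by
  unfold ex2_G
  refine h.trans ?_
  refine Finset.single_le_sum (f := fun σ : Spin n => cnt L σ σ (-(od L : ℤ) + 1))
    (fun _ _ => Nat.zero_le _) (Finset.mem_filter.2 ⟨Finset.mem_univ X, ?_, ?_⟩)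
  · rw [hX, ← ex2_ins, ex2_mm h3, hmr]
  · rw [hX, ← ex2_ins, ex2_sm h3, hsr]

private theorem ex2_p0 {n : ℕ} (X : Spin n) : (1 : ℕ) ≤ cnt ([] : List (Fin n)) X X 0 := by
  unfold cnt
  rw [if_pos ⟨rfl, rfl⟩]

/-- the path for `n ≠ 3` -/
private theorem ex2_main (h1 : St_Rel) (h2 : St_Val) (h3 : St_Cmb) {n : ℕ} (x : ℤ) (hn : 2 ≤ n)
    (hn3 : n ≠ 3) (hx : (n % 2 = 1 ∧ x = 0) ∨ (n % 2 = 0 ∧ (x = 1 ∨ x = -1)))
    (zero one : Fin n) (hzero : (zero : ℕ) = 0) (hone : (one : ℕ) = 1) (L₂ L₁ : List (Fin n))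
    (hL₁ : ∀ i ∈ L₁, 2 ≤ (i : ℕ)) : ex2_G x (L₂ ++ one :: (L₁ ++ [zero])) := by
  obtain ⟨z, r, K, hr, hrK, hmr, hsr⟩ := ex2_par x hn hx
  have ht : (z :: ex1_al r K).length = n - 1 := by
    rw [List.length_cons, ex1_al_length]
    omega
  obtain ⟨X, hX⟩ : ∃ σ : Spin n, lst σ = ins 1 (z :: ex1_al r K) := by
    apply ex1_surj
    rw [(h3.2.1 1 _ (by omega)).1, ht]
    omega
  obtain ⟨Y, hY⟩ : ∃ σ : Spin n, lst σ = ins 0 (z :: ex1_al r K) := by
    apply ex1_surj
    rw [(h3.2.1 0 _ (by omega)).1, ht]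
    omega
  have m1 : Mv zero X Y :=
    ex1_mv_down h1 h2 h3 zero (z :: ex1_al r K) X Y 0 hzero (by omega) hX hY
  have m2 : Mv one Y X := ex1_mv_up h1 h2 h3 one (z :: ex1_al r K) Y X 0 hone (by omega) hY hX
  have s2 : ∀ i ∈ L₁, (Jn i (lst Y) ↔ (i : ℕ) % 2 = 1) := by
    intro i hi
    have hi2 := hL₁ i hi
    have hin := i.2
    have e1 : lst Y = 1 :: -1 :: z :: ex1_al r K := hY
    rw [ex1_Jn h3, e1]
    obtain ⟨j, hj⟩ : ∃ j, (i : ℕ) = j + 2 := ⟨i - 2, by omega⟩
    have hK : 1 ≤ K := by omega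
    rw [hj] at hin ⊢
    rw [List.getElem?_cons_succ, List.getElem?_cons_succ, List.getElem?_cons_succ,
      List.getElem?_cons_succ, List.getElem?_cons_succ]
    match j, hin with
    | 0, hin =>
      constructor
      · rintro ⟨-, h5⟩
        rw [ex1_al_get r K 0 (by omega)] at h5
        exact absurd (Option.some_injective _ h5) (by decide)
      · intro h5
        omega
    | j + 1, hin =>
      rw [List.getElem?_cons_succ]
      constructor
      · rintro ⟨h5, -⟩
        by_contra h6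
        rw [ex1_al_get r K j (by omega), if_neg (by omega)] at h5
        exact absurd (Option.some_injective _ h5) (by decide)
      · intro h5
        rw [ex1_al_get r K j (by omega), ex1_al_get r K (j + 1) (by omega), if_pos (by omega),
          if_neg (by omega)]
        exact ⟨rfl, rfl⟩
  have p1 := (ex2_p0 X).trans (ex1_move zero [] X Y X 0 m1)
  have p2 := p1.trans (ex2_stays L₁ [zero] Y X 0 s2)
  have p3 := p2.trans (ex1_move one (L₁ ++ [zero]) Y X X _ m2)
  have p4 := p3.trans (ex2_stays L₂ (one :: (L₁ ++ [zero])) X X _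
    (fun i _ => ex2_JX h3 z r K hr hrK X hX i))
  have e2 : -(od (L₂ ++ one :: (L₁ ++ [zero])) : ℤ) + 1 = 0 - (od L₁ : ℤ) - (od L₂ : ℤ) := by
    have e3 : L₂ ++ one :: (L₁ ++ [zero]) = L₂ ++ ([one] ++ (L₁ ++ [zero])) := rfl
    rw [e3, ex2_od_append, ex2_od_append, ex2_od_append, ex2_od_one, ex2_od_one, hone, hzero,
      if_pos (by norm_num), if_neg (by norm_num)]
    push_cast
    ring
  refine ex2_fin h3 x z r K hmr hsr X hX _ ?_
  rw [e2]
  exact p4

/-- the path for `n = 3` -/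
private theorem ex2_three (h1 : St_Rel) (h2 : St_Val) (h3 : St_Cmb) (q one : Fin 3)
    (hone : (one : ℕ) = 1) (hq : (q : ℕ) ≠ 1) (L₂ : List (Fin 3)) :
    ex2_G 0 (L₂ ++ one :: [q]) := by
  obtain ⟨X, hX⟩ : ∃ σ : Spin 3, lst σ = ins 1 (1 :: ex1_al [-1] 0) := ex1_surj _ rfl
  obtain ⟨Y, hY⟩ : ∃ σ : Spin 3, lst σ = ins 0 (1 :: ex1_al [-1] 0) := ex1_surj _ rfl
  have m1 : Mv q X Y := by
    have hq3 := q.2
    have hq' : (q : ℕ) = 0 ∨ (q : ℕ) = 2 := by omega
    rcases hq' with hq' | hq'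
    · exact ex1_mv_down h1 h2 h3 q (1 :: ex1_al [-1] 0) X Y 0 hq' (by decide) hX hY
    · exact ex1_mv_up h1 h2 h3 q (1 :: ex1_al [-1] 0) X Y 1 hq' (by decide) hX hY
  have m2 : Mv one Y X := ex1_mv_up h1 h2 h3 one (1 :: ex1_al [-1] 0) Y X 0 hone (by decide) hY hX
  have p1 := (ex2_p0 X).trans (ex1_move q [] X Y X 0 m1)
  have p3 := p1.trans (ex1_move one [q] Y X X _ m2)
  have p4 := p3.trans (ex2_stays L₂ (one :: [q]) X X _
    (fun i _ => ex2_JX h3 1 [-1] 0 (by decide) (by decide) X hX i))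
  have e2 : -(od (L₂ ++ one :: [q]) : ℤ) + 1 = 0 - (od L₂ : ℤ) := by
    have e3 : L₂ ++ one :: [q] = L₂ ++ ([one] ++ [q]) := rfl
    have hq3 := q.2
    rw [e3, ex2_od_append, ex2_od_append, ex2_od_one, ex2_od_one, hone,
      if_pos (by norm_num), if_neg (by omega)]
    push_cast
    ring
  refine ex2_fin h3 0 1 [-1] 0 rfl rfl X hX _ ?_
  rw [e2]
  exact p4

private theorem ex2_ind (h1 : St_Rel) (h2 : St_Val) (h3 : St_Cmb) (h4 : St_Rot) {n : ℕ} (x : ℤ)
    (hn : 2 ≤ n) (hn3 : n ≠ 3) (hx : (n % 2 = 1 ∧ x = 0) ∨ (n % 2 = 0 ∧ (x = 1 ∨ x = -1)))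
    (zero one : Fin n) (hzero : (zero : ℕ) = 0) (hone : (one : ℕ) = 1) (M : List (Fin n)) :
    ∀ K L₁ : List (Fin n), (∀ i ∈ L₁, 2 ≤ (i : ℕ)) → one ∈ M →
      ex2_G x (K ++ M ++ (L₁ ++ [zero])) := by
  induction M using List.reverseRecOn with
  | nil =>
    intro K L₁ _ h
    simp at h
  | append_singleton M q ih =>
    intro K L₁ hL₁ h0
    by_cases hq1 : (q : ℕ) = 0
    · have hq : q = zero := Fin.ext (hq1.trans hzero.symm)
      subst hq
      have h0' : one ∈ M := by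
        rcases List.mem_append.1 h0 with h | h
        · exact h
        · rw [List.mem_singleton] at h
          rw [h, hzero] at hone
          omega
      have h5 := ih (L₁ ++ [q] ++ K) [] (fun i hi => by simp at hi) h0'
      have h6 : L₁ ++ [q] ++ K ++ M ++ ([] ++ [q]) = (L₁ ++ [q]) ++ (K ++ (M ++ [q])) := by simp
      rw [h6] at h5
      exact ex2_rot h4 x _ _ h5
    · by_cases hq2 : (q : ℕ) = 1
      · have hq : q = one := Fin.ext (hq2.trans hone.symm)
        subst hq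
        have h5 := ex2_main h1 h2 h3 x hn hn3 hx zero q hzero hone (K ++ M) L₁ hL₁
        have h6 : K ++ M ++ q :: (L₁ ++ [zero]) = K ++ (M ++ [q]) ++ (L₁ ++ [zero]) := by simp
        rwa [h6] at h5
      · have h0' : one ∈ M := by
          rcases List.mem_append.1 h0 with h | h
          · exact h
          · rw [List.mem_singleton] at h
            rw [← h, hone] at hq2
            exact absurd rfl hq2
        have h5 := ih K (q :: L₁) (fun i hi => by
          rcases List.mem_cons.1 hi with h | h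
          · rw [h]
            omega
          · exact hL₁ i h) h0'
        have h6 : K ++ M ++ (q :: L₁ ++ [zero]) = K ++ (M ++ [q]) ++ (L₁ ++ [zero]) := by simp
        rwa [h6] at h5

private theorem ex2_ind3 (h1 : St_Rel) (h2 : St_Val) (h3 : St_Cmb) (h4 : St_Rot)
    (one : Fin 3) (hone : (one : ℕ) = 1) (M : List (Fin 3)) :
    ∀ (K : List (Fin 3)) (q : Fin 3), (q : ℕ) ≠ 1 → one ∈ M → ex2_G 0 (K ++ M ++ [q]) := by
  induction M using List.reverseRecOn with
  | nil =>
    intro K q _ h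
    simp at h
  | append_singleton M p ih =>
    intro K q hq h0
    by_cases hp : (p : ℕ) = 1
    · have hp' : p = one := Fin.ext (hp.trans hone.symm)
      subst hp'
      have h5 := ex2_three h1 h2 h3 q p hone hq (K ++ M)
      have h6 : K ++ M ++ p :: [q] = K ++ (M ++ [p]) ++ [q] := by simp
      rwa [h6] at h5
    · have h0' : one ∈ M := by
        rcases List.mem_append.1 h0 with h | h
        · exact h
        · rw [List.mem_singleton] at h
          rw [← h, hone] at hp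
          exact absurd rfl hp
      have h5 := ih (q :: K) p hp h0'
      have h6 : q :: K ++ M ++ [p] = [q] ++ (K ++ (M ++ [p])) := by simp
      rw [h6] at h5
      exact ex2_rot h4 0 _ _ h5

/-- an excursion by the place `0` -/
theorem thm_Ex2 (h1 : St_Rel) (h2 : St_Val) (h3 : St_Cmb) (h4 : St_Rot) : St_Ex2 := by
  intro n L x hn hfull hx
  obtain ⟨A, B, hAB⟩ := List.append_of_mem (hfull ⟨0, by omega⟩)
  have h0 : (⟨1, by omega⟩ : Fin n) ∈ B ++ A := by
    have h := hfull ⟨1, by omega⟩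
    rw [hAB, List.mem_append, List.mem_cons] at h
    rcases h with h | h | h
    · exact List.mem_append_right _ h
    · exact absurd (congrArg Fin.val h) (by simp)
    · exact List.mem_append_left _ h
  have h8 : A ++ [(⟨0, by omega⟩ : Fin n)] ++ B = L := by
    rw [hAB]
    simp
  have h5 : ex2_G x (B ++ (A ++ [(⟨0, by omega⟩ : Fin n)])) := by
    by_cases hn3 : n = 3
    · subst hn3
      have hx0 : x = 0 := by
        rcases hx with h | h
        · exact h.2
        · omega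
      rw [hx0]
      have h5 := ex2_ind3 h1 h2 h3 h4 ⟨1, by omega⟩ rfl (B ++ A) [] ⟨0, by omega⟩ (by simp) h0
      have h6 : [] ++ (B ++ A) ++ [(⟨0, by omega⟩ : Fin 3)] = B ++ (A ++ [⟨0, by omega⟩]) := by
        simp
      rwa [h6] at h5
    · have h5 := ex2_ind h1 h2 h3 h4 x hn hn3 hx ⟨0, by omega⟩ ⟨1, by omega⟩ rfl rfl (B ++ A) [] []
        (fun i hi => by simp at hi) h0
      have h6 : [] ++ (B ++ A) ++ ([] ++ [(⟨0, by omega⟩ : Fin n)]) =
          B ++ (A ++ [⟨0, by omega⟩]) := by simp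
      rwa [h6] at h5
  have h7 := ex2_rot h4 x _ _ h5
  rw [h8] at h7
  exact h7

end Pool.Agent.TWB
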