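import Pool.Agent.TWB.Sw

/-!
# TWB, FTC: a cup slides through the full twist
-/

set_option autoImplicit false

namespace Pool.Agent.TWB

open LaurentPolynomial Pool.Agent.Helper1.PK Pool.Agent.Per

variable {B : Type} [CommRing B] (A : Bˣ) {c : ℤ}

theorem ftc_hom {m : ℕ} (l k : ℕ) {f : Ten B} (h : Hom m f) : Hom m ((sw A c 0 l)^[k] f) := by
  induction k with
  | zero => exact h
  | succ k ih =>
    rw [Function.iterate_succ_apply']
    exact sw_hom A l 0 ih

theorem ftc_lin (l k : ℕ) (b : B) (f g : Ten B) : (sw A c 0 l)^[k] (b • f + g) =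
    b • (sw A c 0 l)^[k] f + (sw A c 0 l)^[k] g := by
  induction k with
  | zero => rfl
  | succ k ih =>
    rw [Function.iterate_succ_apply', Function.iterate_succ_apply',
      Function.iterate_succ_apply', ih, sw_lin]

theorem ftc_z (l k : ℕ) : (sw A c 0 l)^[k] (0 : Ten B) = 0 := by
  induction k with
  | zero => rfl
  | succ k ih => rw [Function.iterate_succ_apply', ih, sw_z]

theorem ftc_sm (l k : ℕ) (b : B) (f : Ten B) : (sw A c 0 l)^[k] (b • f) =
    b • (sw A c 0 l)^[k] f := by
  have h := ftc_lin A l k b f 0 (c := c)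
  rwa [add_zero, ftc_z, add_zero] at h

/-- powers of the sweep move a cup -/
theorem ftc_mv (hc : c = 1 ∨ c = -1) {m : ℕ} (k : ℕ) : ∀ (i : ℕ) {f : Ten B}, Hom m f →
    i + k ≤ m → (sw A c 0 (m + 1))^[k] (cupL A i f) =
      cupL A (i + k) ((sw A c 0 (m - 1))^[k] f) := by
  induction k with
  | zero => exact fun i f _ _ => rfl
  | succ k ih =>
    intro i f hf hk
    have h1 : sw A c 0 (m + 1) (cupL A i f) = cupL A (i + 1) (sw A c 0 (m - 1) f) := by
      obtain ⟨m, rfl⟩ : ∃ m', m = m' + 1 := ⟨m - 1, by omega⟩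
      exact sw_cup A hc hf i i 0 m (by omega) (by omega) (by omega)
    rw [Function.iterate_succ_apply, Function.iterate_succ_apply, h1,
      ih (i + 1) (sw_hom A (m - 1) 0 hf) (by omega), show i + 1 + k = i + (k + 1) by omega]

theorem ftc_3 (hc : c = 1 ∨ c = -1) {m : ℕ} (i : ℕ) {f : Ten B} (hf : Hom m f) (hi : i ≤ m) :
    FT A c (m + 2) (cupL A i f) = ((A ^ (-6 * c) : Bˣ) : B) • cupL A i (FT A c m f) := by
  unfold FT
  have h1 : m + 2 = i + (2 + (m - i)) := by omega
  have h2 : m + 2 - 1 = m + 1 := by omega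
  rw [h2]
  conv_lhs => rw [h1]
  rw [Function.iterate_add_apply, Function.iterate_add_apply,
    ftc_mv A hc (m - i) i hf (by omega), show i + (m - i) = m by omega]
  set g := (sw A c 0 (m - 1))^[m - i] f with hg
  have hgm : Hom m g := ftc_hom A (m - 1) (m - i) hf
  have h3 : (sw A c 0 (m + 1))^[2] (cupL A m g) = ((A ^ (-6 * c) : Bˣ) : B) • cupL A 0 g :=
    sw_two A hc hgm
  rw [h3, ftc_sm, ftc_mv A hc i 0 hgm (by omega), zero_add, hg, ← Function.iterate_add_apply,
    show i + (m - i) = m by omega]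

theorem thm_Ftc : St_Ftc := by
  intro B _ A c hc
  exact ⟨fun m N f h => ftc_hom A (N - 1) N h, fun N b f g => ftc_lin A (N - 1) N b f g,
    fun m i f h hi => ftc_3 A hc i h hi⟩

end Pool.Agent.TWB
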