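import Pool.Agent.TWB.St2

/-!
# TWB.Main: full twists times alternating braids
-/

set_option autoImplicit false

namespace Pool.Agent.TWB

open LaurentPolynomial Pool.Agent.Helper1.PK Pool.Agent.Per

theorem main_pr (i : ℕ) : pr i = 1 ∨ pr i = -1 := by
  unfold pr
  split_ifs
  · exact Or.inl rfl
  · exact Or.inr rfl

theorem main_sgn {κ : Helper1.PK.Kind} (h : κ ≠ .turn) : κ.sgn = 1 ∨ κ.sgn = -1 := by
  cases κ
  · exact Or.inl rfl
  · exact Or.inr rfl
  · exact absurd rfl h

/-- two letters of an alternating word -/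
theorem main_two {κ κ' : Helper1.PK.Kind} {i j : ℕ} (h : κ ≠ .turn) (h' : κ' ≠ .turn)
    (hk : κ = κ' ↔ (i + j) % 2 = 0) : κ'.sgn = κ.sgn * pr i * pr j := by
  have hi := Nat.mod_two_eq_zero_or_one i
  have hj := Nat.mod_two_eq_zero_or_one j
  rcases hi with hi | hi <;> rcases hj with hj | hj
  · have e : κ = κ' := hk.2 (by omega)
    subst e
    unfold pr
    rw [hi, hj]
    simp
  · have e : κ ≠ κ' := fun e => by have := hk.1 e; omega
    unfold pr
    rw [hi, hj]
    revert h h' e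
    cases κ <;> cases κ' <;> simp [Helper1.PK.Kind.sgn]
  · have e : κ ≠ κ' := fun e => by have := hk.1 e; omega
    unfold pr
    rw [hi, hj]
    revert h h' e
    cases κ <;> cases κ' <;> simp [Helper1.PK.Kind.sgn]
  · have e : κ = κ' := hk.2 (by omega)
    subst e
    unfold pr
    rw [hi, hj]
    simp

theorem thm_Main (h : St_Bn) : St_Main := by
  intro N n k _ w κ L o hn hk hκ hL hfull hw hu
  obtain ⟨l₀, hl₀, -⟩ := hfull ⟨0, by omega⟩
  have h0 := (hL l₀ hl₀).1
  have he : l₀.kind.sgn * pr (l₀.place : ℕ) = 1 ∨ l₀.kind.sgn * pr (l₀.place : ℕ) = -1 := by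
    rcases main_sgn h0 with h1 | h1 <;> rcases main_pr (l₀.place : ℕ) with h2 | h2 <;>
      rw [h1, h2] <;> norm_num
  have hAlt : AltE (l₀.kind.sgn * pr (l₀.place : ℕ)) L := by
    intro l hl
    exact ⟨(hL l hl).1, main_two h0 (hL l hl).1 ((hL l₀ hl₀).2 l hl)⟩
  have hF : Full (L.map Letter.place) := by
    intro i
    obtain ⟨l, hl, hi⟩ := hfull i
    exact List.mem_map.2 ⟨l, hl, hi⟩
  refine h N n k w κ _ L hn hk hκ he hAlt hF hw ?_
  unfold normalized at hu
  exact isUnit_of_mul_isUnit_right hu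

end Pool.Agent.TWB
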