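import Pool.Agent.TWB.St

/-!
# TWB [Mv]: the moves
-/

set_option autoImplicit false

namespace Pool.Agent.TWB

open LaurentPolynomial Pool.Agent.Helper1.PK Pool.Agent.Per

section

variable {n : ℕ}

private theorem mv_col (h4 : St_Spn) (τ τ' : Spin n) (c : RR)
    (h : vL AA (lst τ) = c • vL AA (lst τ')) : τ = τ' := by
  classical
  obtain ⟨C, -, hC⟩ := h4 RR AA n
  by_contra hne
  have h1 := congrFun (congrFun hC τ) τ
  have h2 := congrFun (congrFun hC τ) τ'
  rw [Matrix.mul_apply, Matrix.one_apply_eq] at h1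
  rw [Matrix.mul_apply, Matrix.one_apply_ne hne] at h2
  have h3 : ∑ ε, C τ ε * Vm AA n ε τ = c * ∑ ε, C τ ε * Vm AA n ε τ' := by
    rw [Finset.mul_sum]
    refine Finset.sum_congr rfl fun ε _ => ?_
    have h4 : Vm AA n ε τ = c * Vm AA n ε τ' := by
      show vL AA (lst τ) (lst ε) = c * vL AA (lst τ') (lst ε)
      rw [h]
      rfl
    rw [h4]
    ring
  rw [h1, h2, mul_zero] at h3
  exact one_ne_zero h3

private theorem mv_inj (h4 : St_Spn) (τ τ' : Spin n) (h : vL AA (lst τ) = vL AA (lst τ')) :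
    τ = τ' := mv_col h4 τ τ' 1 (by rw [one_smul]; exact h)

private theorem mv_ne (h4 : St_Spn) (τ : Spin n) : vL AA (lst τ) ≠ 0 := by
  classical
  intro h
  obtain ⟨C, -, hC⟩ := h4 RR AA n
  have h1 := congrFun (congrFun hC τ) τ
  rw [Matrix.mul_apply, Matrix.one_apply_eq] at h1
  have h3 : ∑ ε, C τ ε * Vm AA n ε τ = 0 := by
    refine Finset.sum_eq_zero fun ε _ => ?_
    have h5 : Vm AA n ε τ = 0 := by
      show vL AA (lst τ) (lst ε) = 0
      rw [h]
      rfl
    rw [h5, mul_zero]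
  rw [h3] at h1
  exact zero_ne_one h1

private theorem mv_lst (s : List ℤˣ) (hs : s.length = n + 1) : ∃ υ : Spin n, lst υ = s := by
  refine ⟨fun i => s.get (Fin.cast hs.symm i), ?_⟩
  unfold lst
  apply List.ext_getElem
  · rw [List.length_ofFn, hs]
  · intro k hk hk'
    rw [List.getElem_ofFn]
    rfl

theorem thm_Mv (h2 : St_Cmb) (h3 : St_Act) (h4 : St_Spn) : St_Mv := by
  intro n a
  have hlen : ∀ ρ : Spin n, (lst ρ).length = n + 1 := fun ρ => List.length_ofFn
  have ha : ∀ ρ : Spin n, (a : ℕ) + 2 ≤ (lst ρ).length := by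
    intro ρ
    rw [hlen]
    have := a.2
    omega
  refine ⟨?_, ?_, ?_⟩
  · intro ρ τ h
    obtain ⟨hj, he, hm⟩ := h
    rcases (h3 RR AA (lst ρ) a (ha ρ)).2 hj with h0 | ⟨t, ht1, ht2, ht3, h5⟩
    · rw [h0] at he
      exact absurd he.symm (mv_ne h4 τ)
    · obtain ⟨hi1, hi2, hi3, hi4⟩ := h2.2.1 (a : ℕ) t ht1
      obtain ⟨υ, hυ⟩ := mv_lst (n := n) (ins a t) (by rw [hi1, ht2, hlen])
      rcases h5 with ⟨h6, h7, h8⟩ | ⟨h6, c, h7⟩
      · have h9 : υ = τ := by
          apply mv_inj h4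
          rw [hυ, ← h6, he]
        rw [h9] at hυ
        refine ⟨?_, hm, ?_, ⟨t, ht1, hυ⟩, hj⟩
        · rw [hυ, hi3, ht3]
        · rw [hυ, h8]
      · exfalso
        have h9 : τ = υ := by
          apply mv_col h4 τ υ c
          rw [hυ, ← h7, he]
        rw [h9, hυ, hi2] at hm
        omega
  · intro ρ τ τ' h h'
    apply mv_inj h4
    rw [← h.2.1, ← h'.2.1]
  · intro ρ hj
    rcases (h3 RR AA (lst ρ) a (ha ρ)).2 hj with h0 | ⟨t, ht1, ht2, ht3, h5⟩
    · right
      rw [h0]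
      exact Submodule.zero_mem _
    · obtain ⟨hi1, hi2, hi3, hi4⟩ := h2.2.1 (a : ℕ) t ht1
      rcases h5 with ⟨h6, h7, h8⟩ | ⟨h6, c, h7⟩
      · left
        obtain ⟨υ, hυ⟩ := mv_lst (n := n) (ins a t) (by rw [hi1, ht2, hlen])
        refine ⟨υ, hj, ?_, ?_⟩
        · rw [hυ, h6]
        · rw [hυ, hi2, h7]
      · right
        rw [h7]
        refine Submodule.smul_mem _ _ (Submodule.subset_span ⟨ins a t, ?_, ?_, rfl⟩)
        · rw [hi1, ht2, hlen]
        · rw [hi2]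
          omega

end

end Pool.Agent.TWB
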