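import Pool.Agent.TWB.St

/-!
# TWB, module PW: the operator of an alternating word on the basis
-/

set_option autoImplicit false

namespace Pool.Agent.TWB

open LaurentPolynomial Pool.Agent.Helper1.PK Pool.Agent.Per

/-! ### the generating function of the paths -/

/-- one term -/
private noncomputable def pw_t {n : ℕ} (e : ℤ) (L : List (Fin n)) (σ τ : Spin n) (a : ℤ) : RR :=
  C ((((-1 : ℤˣ) ^ a : ℤˣ) : ℤ) * (cnt L τ σ a : ℤ)) *
    T (-4 * e * a - 2 * e * (po true (lst τ) - po true (lst σ)))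

/-- the generating function of the paths -/
private noncomputable def pw_G {n : ℕ} (e : ℤ) (L : List (Fin n)) (σ τ : Spin n) : RR :=
  ∑ᶠ a : ℤ, pw_t e L σ τ a

private theorem pw_ev_le {n : ℕ} (L : List (Fin n)) :
    (ev L : ℤ) ≤ L.length ∧ -(L.length : ℤ) ≤ -(od L : ℤ) := by
  have h1 : ev L ≤ L.length := by
    unfold ev
    refine List.countP_le_length.trans ?_
    simp
  have h2 : od L ≤ L.length := by
    unfold od
    refine List.countP_le_length.trans ?_
    simp
  constructor
  · exact_mod_cast h1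
  · have : (od L : ℤ) ≤ L.length := by exact_mod_cast h2
    linarith

private theorem pw_supp (h6 : St_Cn) {n : ℕ} (e : ℤ) (L : List (Fin n)) (σ τ : Spin n) :
    Function.support (pw_t e L σ τ) ⊆ (Finset.Icc (-(L.length : ℤ)) L.length : Finset ℤ) := by
  intro a ha
  have h0 : cnt L τ σ a ≠ 0 := by
    intro h0
    apply ha
    unfold pw_t
    rw [h0]
    simp
  obtain ⟨-, -, h1, h2⟩ := (h6 n L).1 τ σ a h0
  have := pw_ev_le L
  rw [Finset.mem_coe, Finset.mem_Icc]
  constructor <;> linarith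

private theorem pw_fin (h6 : St_Cn) {n : ℕ} (e : ℤ) (L : List (Fin n)) (σ τ : Spin n) :
    (Function.support (pw_t e L σ τ)).Finite :=
  (Finset.finite_toSet _).subset (pw_supp h6 e L σ τ)

private theorem pw_G_eq (h6 : St_Cn) {n : ℕ} (e : ℤ) (L : List (Fin n)) (σ τ : Spin n) :
    pw_G e L σ τ = ∑ a ∈ Finset.Icc (-(L.length : ℤ)) L.length, pw_t e L σ τ a :=
  finsum_eq_sum_of_support_subset _ (pw_supp h6 e L σ τ)

private theorem pw_G_ne (h6 : St_Cn) {n : ℕ} (e : ℤ) (L : List (Fin n)) (σ τ : Spin n)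
    (h : pw_G e L σ τ ≠ 0) : mm (lst τ) = mm (lst σ) := by
  by_contra hne
  apply h
  unfold pw_G
  refine (finsum_congr fun a => ?_).trans finsum_zero
  have h0 : cnt L τ σ a = 0 := by
    by_contra h0
    exact hne ((h6 n L).1 τ σ a h0).1
  unfold pw_t
  rw [h0]
  simp

private theorem pw_G_nil {n : ℕ} (e : ℤ) (σ τ : Spin n) :
    pw_G e [] σ τ = if τ = σ then 1 else 0 := by
  unfold pw_G
  rw [finsum_eq_single _ (0 : ℤ)]
  · unfold pw_t cnt
    by_cases h : τ = σ
    · subst h
      simp
    · simp [h]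
  · intro a ha
    unfold pw_t cnt
    simp [ha]

/-- the factor of a stay -/
private noncomputable def pw_K {n : ℕ} (s : ℤ) (i : Fin n) (τ : Spin n) : RR :=
  open Classical in if Jn i (lst τ) then -T (-4 * s) else 1

private theorem pw_pr (i : ℕ) : pr i = 1 ∨ pr i = -1 := by
  unfold pr
  split_ifs
  · exact Or.inl rfl
  · exact Or.inr rfl

private theorem pw_sg (a s : ℤ) (hs : s = 1 ∨ s = -1) :
    (((-1 : ℤˣ) ^ a : ℤˣ) : ℤ) = -(((-1 : ℤˣ) ^ (a - s) : ℤˣ) : ℤ) := by
  rcases hs with rfl | rfl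
  · have : (a : ℤ) = (a - 1) + 1 := by ring
    conv_lhs => rw [this, zpow_add, zpow_one]
    simp
  · have : (a : ℤ) = (a - -1) + (-1) := by ring
    conv_lhs => rw [this, zpow_add]
    simp

open Classical in
private theorem pw_t_cons (h5 : St_Mv) {n : ℕ} (e : ℤ) (i : Fin n) (L : List (Fin n))
    (σ τ : Spin n) (a : ℤ) : pw_t e (i :: L) σ τ a =
      pw_K (e * pr i) i τ * pw_t e L σ τ (a - if Jn i (lst τ) then pr i else 0) +
        ∑ ρ ∈ Finset.univ.filter (fun ρ => Mv i ρ τ), T (-2 * (e * pr i)) * pw_t e L σ ρ a := by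
  have h1 : pw_t e (i :: L) σ τ a =
      C ((((-1 : ℤˣ) ^ a : ℤˣ) : ℤ) * (cnt L τ σ (a - if Jn i (lst τ) then pr i else 0) : ℤ)) *
        T (-4 * e * a - 2 * e * (po true (lst τ) - po true (lst σ))) +
      ∑ ρ ∈ Finset.univ.filter (fun ρ => Mv i ρ τ),
        C ((((-1 : ℤˣ) ^ a : ℤˣ) : ℤ) * (cnt L ρ σ a : ℤ)) *
          T (-4 * e * a - 2 * e * (po true (lst τ) - po true (lst σ))) := by
    unfold pw_t
    rw [cnt, ← Finset.sum_mul, ← add_mul]
    congr 1
    push_cast
    rw [mul_add, Finset.mul_sum, map_add, map_sum]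
  rw [h1]
  congr 1
  · unfold pw_K pw_t
    split_ifs with hJ
    · have hT : (T (-4 * e * a - 2 * e * (po true (lst τ) - po true (lst σ))) : RR) =
          T (-4 * (e * pr i)) *
            T (-4 * e * (a - pr i) - 2 * e * (po true (lst τ) - po true (lst σ))) := by
        rw [← T_add]
        congr 1
        ring
      rw [hT, pw_sg a (pr i) (pw_pr i), neg_mul, map_neg]
      ring
    · rw [one_mul, sub_zero]
  · refine Finset.sum_congr rfl fun ρ hρ => ?_
    have hM := (Finset.mem_filter.1 hρ).2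
    obtain ⟨-, -, hp, -, -⟩ := (h5 n i).1 ρ τ hM
    have hT : (T (-4 * e * a - 2 * e * (po true (lst τ) - po true (lst σ))) : RR) =
        T (-2 * (e * pr i)) *
          T (-4 * e * a - 2 * e * (po true (lst ρ) - po true (lst σ))) := by
      rw [← T_add, hp]
      congr 1
      ring
    unfold pw_t
    rw [hT]
    ring

open Classical in
private theorem pw_G_cons (h5 : St_Mv) (h6 : St_Cn) {n : ℕ} (e : ℤ) (i : Fin n) (L : List (Fin n))
    (σ τ : Spin n) : pw_G e (i :: L) σ τ = pw_K (e * pr i) i τ * pw_G e L σ τ +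
      ∑ ρ ∈ Finset.univ.filter (fun ρ => Mv i ρ τ), T (-2 * (e * pr i)) * pw_G e L σ ρ := by
  have hf := pw_fin h6 e L σ
  obtain ⟨s, hs⟩ : ∃ s : ℤ, s = if Jn i (lst τ) then pr i else 0 := ⟨_, rfl⟩
  have hshift : (Function.support fun a => pw_t e L σ τ (a - s)).Finite := by
    have : (Function.support fun a => pw_t e L σ τ (a - s)) =
        (fun a => a - s) ⁻¹' Function.support (pw_t e L σ τ) := rfl
    rw [this]
    exact (hf τ).preimage (fun a _ b _ h => by simpa using h)
  have hs1 : (Function.support fun a => pw_K (e * pr i) i τ * pw_t e L σ τ (a - s)).Finite :=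
    hshift.subset (Function.support_mul_subset_right _ _)
  have hs2 : ∀ ρ, (Function.support fun a => T (-2 * (e * pr i)) * pw_t e L σ ρ a).Finite :=
    fun ρ => (hf ρ).subset (Function.support_mul_subset_right _ _)
  have hs3 : (Function.support fun a => ∑ ρ ∈ Finset.univ.filter (fun ρ => Mv i ρ τ),
      T (-2 * (e * pr i)) * pw_t e L σ ρ a).Finite := by
    refine Set.Finite.subset (Set.Finite.biUnion (Finset.finite_toSet
      (Finset.univ.filter (fun ρ => Mv i ρ τ))) fun ρ _ => hs2 ρ) ?_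
    exact Finset.support_sum _ _
  unfold pw_G
  rw [finsum_congr (fun a => pw_t_cons h5 e i L σ τ a), ← hs,
    finsum_add_distrib hs1 hs3, finsum_sum_comm _ _ (fun ρ _ => hs2 ρ)]
  congr 1
  · rw [← mul_finsum]
    congr 1
    exact finsum_comp_equiv (Equiv.subRight s) (f := pw_t e L σ τ)
  · refine Finset.sum_congr rfl fun ρ _ => ?_
    rw [mul_finsum]

/-! ### the operators -/

/-- the crossing as a linear map -/
private noncomputable def pw_X (h1 : St_Rel) (c : ℤ) (i : ℕ) : Ten RR →ₗ[RR] Ten RR where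
  toFun := XL AA c i
  map_add' f g := by
    have h := ((h1 RR AA).2.1 i 1 f g).2
    rw [one_smul, one_smul] at h
    unfold XL
    rw [h, smul_add, smul_add]
    abel
  map_smul' b f := by
    have h0 : eL AA i 0 = 0 := by
      have h := ((h1 RR AA).2.1 i 1 0 0).2
      rw [one_smul, one_smul, add_zero] at h
      exact left_eq_add.1 h
    have h := ((h1 RR AA).2.1 i b f 0).2
    rw [add_zero, h0, add_zero] at h
    unfold XL
    rw [h, RingHom.id_apply, smul_add, smul_smul, smul_smul, smul_smul, smul_smul,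
      mul_comm b, mul_comm b]

private theorem pw_AA (k : ℤ) : ((AA ^ k : RRˣ) : RR) = T k := by
  rw [unitA_zpow]
  rfl

private theorem pw_K_eq (s : ℤ) (hs : s = 1 ∨ s = -1) :
    (T s : RR) + T (-s) * loopv AA = T s * -T (-4 * s) := by
  have h : (loopv AA : RR) = -T 2 - T (-2) := by
    rw [loopv_unitA]
    rfl
  rw [h, mul_sub, mul_neg, ← T_add, ← T_add, mul_neg, ← T_add]
  rcases hs with rfl | rfl
  · norm_num
    abel
  · norm_num

open Classical in
private theorem pw_step (h3 : St_Act) (h5 : St_Mv) {n : ℕ} (s : ℤ) (hs : s = 1 ∨ s = -1)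
    (i : Fin n) (ρ : Spin n) :
    XL AA s (i : ℕ) (vL AA (lst ρ)) - (T s : RR) • (pw_K s i ρ • vL AA (lst ρ) +
      (T (-2 * s) : RR) • ∑ τ ∈ Finset.univ.filter (fun τ => Mv i ρ τ), vL AA (lst τ)) ∈
        Low AA (n + 1) (mm (lst ρ)) := by
  have hlen : (lst ρ).length = n + 1 := List.length_ofFn
  have hX : XL AA s (i : ℕ) (vL AA (lst ρ)) =
      (T s : RR) • vL AA (lst ρ) + (T (-s) : RR) • eL AA (i : ℕ) (vL AA (lst ρ)) := by
    unfold XL
    rw [pw_AA, pw_AA]
  rw [hX]
  by_cases hJ : Jn i (lst ρ)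
  · have he := (h3 RR AA (lst ρ) i (by rw [hlen]; have := i.2; omega)).1 hJ
    have hemp : Finset.univ.filter (fun τ => Mv i ρ τ) = ∅ := by
      refine Finset.filter_eq_empty_iff.2 fun τ _ hM => hM.1 hJ
    rw [he, hemp, Finset.sum_empty, smul_zero, add_zero, smul_smul, smul_smul, ← add_smul]
    have hK : pw_K s i ρ = -T (-4 * s) := by
      unfold pw_K
      rw [if_pos hJ]
    rw [hK, pw_K_eq s hs, sub_self]
    exact Submodule.zero_mem _
  · have hK : pw_K s i ρ = 1 := by
      unfold pw_K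
      rw [if_neg hJ]
    rw [hK, one_smul]
    by_cases hM : ∃ τ, Mv i ρ τ
    · obtain ⟨τ, hM⟩ := hM
      have hsing : Finset.univ.filter (fun τ => Mv i ρ τ) = {τ} := by
        ext τ'
        rw [Finset.mem_filter, Finset.mem_singleton]
        constructor
        · intro h
          exact (h5 n i).2.1 ρ τ' τ h.2 hM
        · rintro rfl
          exact ⟨Finset.mem_univ _, hM⟩
      rw [hsing, Finset.sum_singleton, hM.2.1, smul_add, smul_smul, ← T_add]
      rw [show s + -2 * s = -s by ring, sub_self]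
      exact Submodule.zero_mem _
    · have hemp : Finset.univ.filter (fun τ => Mv i ρ τ) = ∅ := by
        refine Finset.filter_eq_empty_iff.2 fun τ _ h => hM ⟨τ, h⟩
      rw [hemp, Finset.sum_empty, smul_zero, add_zero, add_sub_cancel_left]
      refine Submodule.smul_mem _ _ ?_
      rcases (h5 n i).2.2 ρ hJ with h | h
      · exact absurd h hM
      · exact h

open Classical in
private theorem pw_main (h1 : St_Rel) (h3 : St_Act) (h4 : St_Twa) (h5 : St_Mv) (h6 : St_Cn)
    {n : ℕ} (e : ℤ) (he : e = 1 ∨ e = -1) (σ : Spin n) (L : List (Letter n)) (hL : AltE e L) :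
    WL L (vL AA (lst σ)) - (T (L.map fun l => l.kind.sgn).sum : RR) •
      ∑ τ : Spin n, pw_G e (L.map Letter.place) σ τ • vL AA (lst τ) ∈
        Low AA (n + 1) (mm (lst σ)) := by
  induction L with
  | nil =>
    have : ∑ τ : Spin n, pw_G e (([] : List (Letter n)).map Letter.place) σ τ • vL AA (lst τ) =
        vL AA (lst σ) := by
      rw [Finset.sum_eq_single σ]
      · rw [List.map_nil, pw_G_nil, if_pos rfl, one_smul]
      · intro τ _ hτ
        rw [List.map_nil, pw_G_nil, if_neg hτ, zero_smul]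
      · intro h
        exact absurd (Finset.mem_univ _) h
    rw [this, List.map_nil, List.sum_nil, T_zero, one_smul]
    show vL AA (lst σ) - vL AA (lst σ) ∈ _
    rw [sub_self]
    exact Submodule.zero_mem _
  | cons l L ih =>
    have ih := ih (fun l' hl' => hL l' (List.mem_cons_of_mem _ hl'))
    obtain ⟨-, hsg⟩ := hL l List.mem_cons_self
    obtain ⟨s, hs⟩ : ∃ s : ℤ, s = l.kind.sgn := ⟨_, rfl⟩
    rw [← hs] at hsg
    have hs1 : s = 1 ∨ s = -1 := by
      rw [hsg]
      rcases he with rfl | rfl <;> rcases pw_pr l.place with h | h <;> rw [h] <;> norm_num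
    have hi : (l.place : ℕ) + 2 ≤ n + 1 := by
      have := l.place.2
      omega
    obtain ⟨S, hS⟩ : ∃ S : Ten RR,
      S = ∑ τ : Spin n, pw_G e (L.map Letter.place) σ τ • vL AA (lst τ) := ⟨_, rfl⟩
    obtain ⟨sL, hsL⟩ : ∃ sL : ℤ, sL = (L.map fun l => l.kind.sgn).sum := ⟨_, rfl⟩
    rw [← hS, ← hsL] at ih
    have hWL : WL (l :: L) (vL AA (lst σ)) = pw_X h1 s l.place (WL L (vL AA (lst σ))) := by
      rw [hs]
      rfl
    have hsplit : WL L (vL AA (lst σ)) = (WL L (vL AA (lst σ)) - (T sL : RR) • S) +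
        (T sL : RR) • S := by abel
    have hlow1 := ((h4 RR AA s hs1).1 (n + 1) (mm (lst σ)) l.place _ hi ih).2
    -- the main part
    have hmain : pw_X h1 s l.place S - (T s : RR) •
        ∑ τ : Spin n, pw_G e ((l :: L).map Letter.place) σ τ • vL AA (lst τ) ∈
          Low AA (n + 1) (mm (lst σ)) := by
      have e1 : pw_X h1 s l.place S = ∑ ρ : Spin n, pw_G e (L.map Letter.place) σ ρ •
          XL AA s l.place (vL AA (lst ρ)) := by
        rw [hS, map_sum]
        refine Finset.sum_congr rfl fun ρ _ => ?_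
        rw [map_smul]
        rfl
      have e2 : ∑ τ : Spin n, pw_G e ((l :: L).map Letter.place) σ τ • vL AA (lst τ) =
          ∑ ρ : Spin n, pw_G e (L.map Letter.place) σ ρ • (pw_K s l.place ρ • vL AA (lst ρ) +
            (T (-2 * s) : RR) • ∑ τ ∈ Finset.univ.filter (fun τ => Mv l.place ρ τ),
              vL AA (lst τ)) := by
        have e3 : ∀ τ : Spin n, pw_G e ((l :: L).map Letter.place) σ τ • vL AA (lst τ) =
            (pw_K s l.place τ * pw_G e (L.map Letter.place) σ τ) • vL AA (lst τ) +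
            ∑ ρ ∈ Finset.univ.filter (fun ρ => Mv l.place ρ τ),
              (T (-2 * s) * pw_G e (L.map Letter.place) σ ρ) • vL AA (lst τ) := by
          intro τ
          rw [List.map_cons, pw_G_cons h5 h6, ← hsg, add_smul, Finset.sum_smul]
        rw [Finset.sum_congr rfl (fun τ _ => e3 τ), Finset.sum_add_distrib]
        have e4 : ∑ τ : Spin n, ∑ ρ ∈ Finset.univ.filter (fun ρ => Mv l.place ρ τ),
            (T (-2 * s) * pw_G e (L.map Letter.place) σ ρ) • vL AA (lst τ) =
            ∑ ρ : Spin n, ∑ τ ∈ Finset.univ.filter (fun τ => Mv l.place ρ τ),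
            (T (-2 * s) * pw_G e (L.map Letter.place) σ ρ) • vL AA (lst τ) := by
          refine Finset.sum_comm' ?_
          intro τ ρ
          simp
        rw [e4, ← Finset.sum_add_distrib]
        refine Finset.sum_congr rfl fun ρ _ => ?_
        rw [smul_add, smul_smul, smul_smul, mul_comm (pw_K _ _ _), ← Finset.smul_sum,
          mul_comm (T _)]
      rw [e1, e2, Finset.smul_sum, ← Finset.sum_sub_distrib]
      refine Submodule.sum_mem _ fun ρ _ => ?_
      rw [smul_comm (T s) (pw_G _ _ _ _), ← smul_sub]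
      by_cases hG : pw_G e (L.map Letter.place) σ ρ = 0
      · rw [hG, zero_smul]
        exact Submodule.zero_mem _
      · have hmm := pw_G_ne h6 e _ σ ρ hG
        rw [← hmm]
        exact Submodule.smul_mem _ _ (pw_step h3 h5 s hs1 l.place ρ)
    rw [hWL, hsplit, map_add, map_smul, List.map_cons, List.sum_cons, ← hs, ← hsL, T_add]
    have e5 : pw_X h1 s l.place (WL L (vL AA (lst σ)) - (T sL : RR) • S) +
        (T sL : RR) • pw_X h1 s l.place S - (T s * T sL : RR) •
          ∑ τ : Spin n, pw_G e ((l :: L).map Letter.place) σ τ • vL AA (lst τ) =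
        XL AA s l.place (WL L (vL AA (lst σ)) - (T sL : RR) • S) +
        (T sL : RR) • (pw_X h1 s l.place S - (T s : RR) •
          ∑ τ : Spin n, pw_G e ((l :: L).map Letter.place) σ τ • vL AA (lst τ)) := by
      rw [smul_sub, smul_smul, mul_comm (T s)]
      show XL AA s l.place (WL L (vL AA (lst σ)) - (T sL : RR) • S) + _ - _ = _
      abel
    rw [e5]
    exact Submodule.add_mem _ hlow1 (Submodule.smul_mem _ _ hmain)

/-- PW -/
theorem thm_Pw (h1 : St_Rel) (h3 : St_Act) (h4 : St_Twa) (h5 : St_Mv) (h6 : St_Cn) : St_Pw := by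
  intro n e L σ he hL
  have h := pw_main h1 h3 h4 h5 h6 e he σ L hL
  have h7 : ∀ τ : Spin n, pw_G e (L.map Letter.place) σ τ =
      ∑ a ∈ Finset.Icc (-(L.length : ℤ)) L.length,
        pw_t e (L.map Letter.place) σ τ a := by
    intro τ
    rw [pw_G_eq h6, List.length_map]
  simp only [h7] at h
  exact h

end Pool.Agent.TWB
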