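import Pool.Agent.TWB.Rel

/-!
# TWB, RE2: Temperley-Lieb relations
-/

set_option autoImplicit false

namespace Pool.Agent.TWB

open LaurentPolynomial Pool.Agent.Helper1.PK Pool.Agent.Per

variable {B : Type} [CommRing B] (A : Bˣ)

/-- the cap at the place `i` -/
def re2_cap : ℕ → Ten B → Ten B
  | 0, f, e => ∑ t : ℤˣ, cap1 A t * f (t :: -t :: e)
  | i + 1, f, x :: e => re2_cap i (fun e' => f (x :: e')) e
  | _ + 1, _, [] => 0

theorem re2_eq (i : ℕ) : ∀ f : Ten B, eL A i f = cupL A i (re2_cap A i f) := by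
  induction i with
  | zero =>
    intro f
    funext e
    match e with
    | [] => rfl
    | [_] => rfl
    | x :: y :: e => rfl
  | succ i ih =>
    intro f
    funext e
    match e with
    | [] => rfl
    | x :: e => exact congrFun (ih (fun e' => f (x :: e'))) e

theorem re2_cap0 (i : ℕ) : ∀ (f : Ten B) (e : List ℤˣ),
    (∀ e' : List ℤˣ, e'.length = e.length + 2 → f e' = 0) → re2_cap A i f e = 0 := by
  induction i with
  | zero =>
    intro f e h
    show ∑ t : ℤˣ, cap1 A t * f (t :: -t :: e) = 0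
    refine Finset.sum_eq_zero fun t _ => ?_
    rw [h (t :: -t :: e) rfl, mul_zero]
  | succ i ih =>
    intro f e h
    match e with
    | [] => rfl
    | x :: e =>
      refine ih (fun e' => f (x :: e')) e fun e' he' => h _ ?_
      simp only [List.length_cons]
      omega

theorem re2_hcap {m : ℕ} (i : ℕ) {f : Ten B} (h : Hom m f) : Hom (m - 2) (re2_cap A i f) :=
  fun e he => re2_cap0 A i f e fun e' he' => h e' (by omega)

theorem re2_lin (i : ℕ) : ∀ (b : B) (f g : Ten B),
    re2_cap A i (b • f + g) = b • re2_cap A i f + re2_cap A i g := by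
  induction i with
  | zero =>
    intro b f g
    funext e
    show ∑ t : ℤˣ, cap1 A t * (b * f (t :: -t :: e) + g (t :: -t :: e)) =
        b * (∑ t : ℤˣ, cap1 A t * f (t :: -t :: e)) +
          ∑ t : ℤˣ, cap1 A t * g (t :: -t :: e)
    rw [rel_sum, rel_sum, rel_sum]
    ring
  | succ i ih =>
    intro b f g
    funext e
    match e with
    | [] =>
      show (0 : B) = b * 0 + 0
      rw [mul_zero, add_zero]
    | x :: e =>
      exact congrFun (ih b (fun e' => f (x :: e')) (fun e' => g (x :: e'))) e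

theorem re2_capz (i : ℕ) : re2_cap A i (0 : Ten B) = 0 := by
  funext e
  exact re2_cap0 A i 0 e fun _ _ => rfl

theorem re2_smul (i : ℕ) (b : B) (f : Ten B) : re2_cap A i (b • f) = b • re2_cap A i f := by
  have h := re2_lin A i b f 0
  rwa [add_zero, re2_capz, add_zero] at h

/-- the cap commutes with generators far away -/
theorem re2_comm (i : ℕ) : ∀ (l : ℕ) (f : Ten B),
    re2_cap A (l + 2 + i) (eL A i f) = eL A i (re2_cap A (l + 2 + i) f) := by
  induction i with
  | zero =>
    intro l f
    funext e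
    match e with
    | [] => rfl
    | [_] => rfl
    | x :: y :: e =>
      show re2_cap A l (fun e' => cup2 A x y * ∑ t : ℤˣ, cap1 A t * f (t :: -t :: e')) e =
        cup2 A x y * ∑ t : ℤˣ, cap1 A t * re2_cap A l (fun e' => f (t :: -t :: e')) e
      have h : (fun e' => cup2 A x y * ∑ t : ℤˣ, cap1 A t * f (t :: -t :: e')) =
          (cup2 A x y * cap1 A 1) • (fun e' => f (1 :: -1 :: e')) +
            ((cup2 A x y * cap1 A (-1)) • fun e' => f (-1 :: - -1 :: e')) := by
        funext e'
        rw [rel_sum]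
        show _ = cup2 A x y * cap1 A 1 * f (1 :: -1 :: e') +
          cup2 A x y * cap1 A (-1) * f (-1 :: - -1 :: e')
        ring
      rw [h, re2_lin, re2_smul, rel_sum]
      show cup2 A x y * cap1 A 1 * re2_cap A l (fun e' => f (1 :: -1 :: e')) e +
        cup2 A x y * cap1 A (-1) * re2_cap A l (fun e' => f (-1 :: - -1 :: e')) e = _
      ring
  | succ i ih =>
    intro l f
    funext e
    match e with
    | [] => rfl
    | x :: e => exact congrFun (ih l (fun e' => f (x :: e'))) e

theorem re2_sq (i : ℕ) (f : Ten B) : eL A i (eL A i f) = loopv A • eL A i f := by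
  rw [re2_eq A i f, rel_3]

theorem re2_a {m : ℕ} (i : ℕ) {f : Ten B} (h : Hom m f) (hm : i + 3 ≤ m) :
    eL A i (eL A (i + 1) (eL A i f)) = eL A i f := by
  rw [re2_eq A i f, rel_4]
  exact rel_5 A i (m - 2) _ (re2_hcap A i h) (by omega)

theorem re2_b {m : ℕ} (i : ℕ) {f : Ten B} (h : Hom m f) (hm : i + 3 ≤ m) :
    eL A (i + 1) (eL A i (eL A (i + 1) f)) = eL A (i + 1) f := by
  rw [re2_eq A (i + 1) f, rel_5 A i (m - 2) _ (re2_hcap A (i + 1) h) (by omega), rel_4]

theorem re2_far (i l : ℕ) (f : Ten B) :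
    eL A i (eL A (l + 2 + i) f) = eL A (l + 2 + i) (eL A i f) := by
  rw [re2_eq A (l + 2 + i) f, rel_7, re2_eq A (l + 2 + i) (eL A i f), re2_comm]

theorem thm_Re2 : St_Re2 := by
  intro B _ A
  refine ⟨re2_sq A, fun m i f h hm => ⟨re2_a A i h hm, re2_b A i h hm⟩, fun i l f => ?_⟩
  rw [show i + 2 + l = l + 2 + i by omega]
  exact re2_far A i l f

end Pool.Agent.TWB
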