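import Pool.Agent.TWB.St

/-!
# TWB [Rot]: closed paths and rotation of the word
-/

set_option autoImplicit false

namespace Pool.Agent.TWB

open LaurentPolynomial Pool.Agent.Helper1.PK Pool.Agent.Per

section

variable {n : ℕ}

open Classical in
private theorem rot_cons (i : Fin n) (L : List (Fin n)) (τ σ : Spin n) (a : ℤ) :
    cnt (i :: L) τ σ a = cnt L τ σ (a - if Jn i (lst τ) then pr i else 0) +
      ∑ ρ ∈ Finset.univ.filter (fun ρ => Mv i ρ τ), cnt L ρ σ a := rfl

private theorem rot_pr (i : ℕ) : |pr i| ≤ 1 := by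
  unfold pr
  split_ifs <;> norm_num

private theorem rot_bound (L : List (Fin n)) : ∀ (τ σ : Spin n) (a : ℤ),
    cnt L τ σ a ≠ 0 → |a| ≤ (L.length : ℤ) := by
  classical
  induction L with
  | nil =>
    intro τ σ a h
    have h1 : (if τ = σ ∧ a = 0 then 1 else 0) ≠ 0 := h
    by_cases h2 : τ = σ ∧ a = 0
    · rw [h2.2]
      simp
    · rw [if_neg h2] at h1
      exact absurd rfl h1
  | cons i L ih =>
    intro τ σ a h
    rw [rot_cons] at h
    rw [List.length_cons]
    push_cast
    by_cases h1 : cnt L τ σ (a - if Jn i (lst τ) then pr i else 0) = 0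
    · rw [h1, zero_add] at h
      obtain ⟨ρ, -, hρ⟩ := Finset.exists_ne_zero_of_sum_ne_zero h
      have := ih ρ σ a hρ
      linarith
    · have h2 := ih _ _ _ h1
      have h3 : |(if Jn i (lst τ) then pr i else 0 : ℤ)| ≤ 1 := by
        split_ifs
        · exact rot_pr _
        · norm_num
      rw [abs_le] at h2 h3 ⊢
      constructor <;> linarith [h2.1, h2.2, h3.1, h3.2]

private theorem rot_ext (g : ℤ → ℕ) (K : ℤ) (hg : ∀ b, g b ≠ 0 → |b| ≤ K) (x y : ℤ)
    (hx : x ≤ -K) (hy : K ≤ y) :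
    ∑ b ∈ Finset.Icc x y, g b = ∑ b ∈ Finset.Icc (-K) K, g b := by
  symm
  apply Finset.sum_subset (Finset.Icc_subset_Icc hx hy)
  intro b _ hb
  by_contra h
  exact hb (Finset.mem_Icc.2 (abs_le.1 (hg b h)))

private theorem rot_comp (L₂ : List (Fin n)) (L₁ : List (Fin n)) : ∀ (τ σ : Spin n) (a : ℤ),
    cnt (L₁ ++ L₂) τ σ a = ∑ ρ : Spin n, ∑ b ∈ Finset.Icc (-(L₁.length : ℤ)) L₁.length,
      cnt L₁ τ ρ b * cnt L₂ ρ σ (a - b) := by
  classical
  induction L₁ with
  | nil =>
    intro τ σ a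
    rw [List.nil_append, Finset.sum_eq_single τ]
    · rw [Finset.sum_eq_single 0]
      · have h : cnt [] τ τ 0 = 1 := by
          show (if τ = τ ∧ (0 : ℤ) = 0 then 1 else 0) = 1
          rw [if_pos ⟨rfl, rfl⟩]
        rw [h, one_mul, sub_zero]
      · intro b _ hb
        have h : cnt [] τ τ b = 0 := by
          show (if τ = τ ∧ b = 0 then 1 else 0) = 0
          rw [if_neg fun h => hb h.2]
        rw [h, zero_mul]
      · intro h
        exact absurd (by simp) h
    · intro ρ _ hρ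
      refine Finset.sum_eq_zero fun b _ => ?_
      have h : cnt [] τ ρ b = 0 := by
        show (if τ = ρ ∧ b = 0 then 1 else 0) = 0
        rw [if_neg fun h => hρ h.1.symm]
      rw [h, zero_mul]
    · intro h
      exact absurd (Finset.mem_univ τ) h
  | cons i L ih =>
    intro τ σ a
    obtain ⟨s, hs⟩ : ∃ s : ℤ, s = if Jn i (lst τ) then pr i else 0 := ⟨_, rfl⟩
    have hs1 : |s| ≤ 1 := by
      rw [hs]
      split_ifs
      · exact rot_pr _
      · norm_num
    rw [abs_le] at hs1
    have e1 : ∀ ρ : Spin n, ∑ b ∈ Finset.Icc (-((i :: L).length : ℤ)) (i :: L).length,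
        cnt L τ ρ (b - s) * cnt L₂ ρ σ (a - b) =
        ∑ b ∈ Finset.Icc (-(L.length : ℤ)) L.length, cnt L τ ρ b * cnt L₂ ρ σ (a - s - b) := by
      intro ρ
      have e2 : ∑ b ∈ Finset.Icc (-((i :: L).length : ℤ)) (i :: L).length,
          cnt L τ ρ (b - s) * cnt L₂ ρ σ (a - b) =
          ∑ b ∈ Finset.Icc (-((i :: L).length : ℤ) - s) ((i :: L).length - s),
            cnt L τ ρ b * cnt L₂ ρ σ (a - s - b) := by
        refine Finset.sum_nbij' (fun b => b - s) (fun b => b + s) ?_ ?_ ?_ ?_ ?_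
        · intro b hb
          rw [Finset.mem_Icc] at hb ⊢
          constructor <;> linarith [hb.1, hb.2]
        · intro b hb
          rw [Finset.mem_Icc] at hb ⊢
          constructor <;> linarith [hb.1, hb.2]
        · intro b _
          ring
        · intro b _
          ring
        · intro b _
          rw [show a - s - (b - s) = a - b by ring]
      rw [e2]
      apply rot_ext
      · intro b hb
        exact rot_bound L τ ρ b (left_ne_zero_of_mul hb)
      · rw [List.length_cons]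
        push_cast
        linarith [hs1.1]
      · rw [List.length_cons]
        push_cast
        linarith [hs1.2]
    have e3 : ∀ ρ ρ' : Spin n, ∑ b ∈ Finset.Icc (-((i :: L).length : ℤ)) (i :: L).length,
        cnt L ρ' ρ b * cnt L₂ ρ σ (a - b) =
        ∑ b ∈ Finset.Icc (-(L.length : ℤ)) L.length, cnt L ρ' ρ b * cnt L₂ ρ σ (a - b) := by
      intro ρ ρ'
      apply rot_ext
      · intro b hb
        exact rot_bound L ρ' ρ b (left_ne_zero_of_mul hb)
      · rw [List.length_cons]
        push_cast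
        linarith
      · rw [List.length_cons]
        push_cast
        linarith
    have e4 : ∀ (ρ : Spin n) (b : ℤ), cnt (i :: L) τ ρ b * cnt L₂ ρ σ (a - b) =
        cnt L τ ρ (b - s) * cnt L₂ ρ σ (a - b) +
          ∑ ρ' ∈ Finset.univ.filter (fun ρ' => Mv i ρ' τ),
            cnt L ρ' ρ b * cnt L₂ ρ σ (a - b) := by
      intro ρ b
      rw [rot_cons, add_mul, Finset.sum_mul, ← hs]
    simp only [e4, Finset.sum_add_distrib, e1]
    rw [List.cons_append, rot_cons, ← hs, ih]
    congr 1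
    have e5 : ∀ ρ : Spin n, ∑ b ∈ Finset.Icc (-((i :: L).length : ℤ)) (i :: L).length,
        ∑ ρ' ∈ Finset.univ.filter (fun ρ' => Mv i ρ' τ), cnt L ρ' ρ b * cnt L₂ ρ σ (a - b) =
        ∑ ρ' ∈ Finset.univ.filter (fun ρ' => Mv i ρ' τ),
          ∑ b ∈ Finset.Icc (-(L.length : ℤ)) L.length, cnt L ρ' ρ b * cnt L₂ ρ σ (a - b) := by
      intro ρ
      rw [Finset.sum_comm]
      exact Finset.sum_congr rfl fun ρ' _ => e3 ρ ρ'
    simp only [e5]
    rw [Finset.sum_comm]
    exact Finset.sum_congr rfl fun ρ' _ => ih ρ' σ a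

theorem thm_Rot (h : St_Cn) : St_Rot := by
  classical
  intro n L₁ L₂ m x a
  have key : ∀ (L L' : List (Fin n)),
      ∑ σ ∈ Finset.univ.filter (fun σ : Spin n => mm (lst σ) = m ∧ sm (lst σ) = x),
        cnt (L ++ L') σ σ a =
      ∑ σ ∈ Finset.univ.filter (fun σ : Spin n => mm (lst σ) = m ∧ sm (lst σ) = x),
        ∑ ρ ∈ Finset.univ.filter (fun σ : Spin n => mm (lst σ) = m ∧ sm (lst σ) = x),
          ∑ b ∈ Finset.Icc (-(L.length : ℤ)) L.length, cnt L σ ρ b * cnt L' ρ σ (a - b) := by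
    intro L L'
    refine Finset.sum_congr rfl fun σ hσ => ?_
    rw [rot_comp]
    symm
    apply Finset.sum_subset (Finset.filter_subset _ _)
    intro ρ _ hρ
    refine Finset.sum_eq_zero fun b _ => ?_
    by_contra hne
    apply hρ
    have h1 := (h n L).1 σ ρ b (left_ne_zero_of_mul hne)
    rw [Finset.mem_filter] at hσ ⊢
    exact ⟨Finset.mem_univ _, h1.1 ▸ hσ.2.1, h1.2.1 ▸ hσ.2.2⟩
  rw [key, key, Finset.sum_comm]
  refine Finset.sum_congr rfl fun ρ _ => Finset.sum_congr rfl fun σ _ => ?_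
  have e1 : ∑ b ∈ Finset.Icc (-(L₁.length : ℤ)) L₁.length, cnt L₁ σ ρ b * cnt L₂ ρ σ (a - b) =
      ∑ b ∈ Finset.Icc (a - (L₁.length + |a| + L₂.length)) (a + (L₁.length + |a| + L₂.length)),
        cnt L₁ σ ρ b * cnt L₂ ρ σ (a - b) := by
    symm
    apply rot_ext
    · intro b hb
      exact rot_bound L₁ σ ρ b (left_ne_zero_of_mul hb)
    · linarith [le_abs_self a, Int.natCast_nonneg L₂.length]
    · linarith [neg_abs_le a, Int.natCast_nonneg L₂.length]
  have e2 : ∑ b ∈ Finset.Icc (-(L₂.length : ℤ)) L₂.length, cnt L₂ ρ σ b * cnt L₁ σ ρ (a - b) =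
      ∑ b ∈ Finset.Icc (-(L₁.length + |a| + L₂.length : ℤ)) (L₁.length + |a| + L₂.length),
        cnt L₂ ρ σ b * cnt L₁ σ ρ (a - b) := by
    symm
    apply rot_ext
    · intro b hb
      exact rot_bound L₂ ρ σ b (left_ne_zero_of_mul hb)
    · linarith [abs_nonneg a, Int.natCast_nonneg L₁.length]
    · linarith [abs_nonneg a, Int.natCast_nonneg L₁.length]
  rw [e1, e2]
  refine Finset.sum_nbij' (fun b => a - b) (fun b => a - b) ?_ ?_ ?_ ?_ ?_
  · intro b hb
    rw [Finset.mem_Icc] at hb ⊢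
    constructor <;> linarith [hb.1, hb.2]
  · intro b hb
    rw [Finset.mem_Icc] at hb ⊢
    constructor <;> linarith [hb.1, hb.2]
  · intro b _
    ring
  · intro b _
    ring
  · intro b _
    rw [show a - (a - b) = b by ring, mul_comm]

end

end Pool.Agent.TWB
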