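import Pool.Agent.TWB.Re2

/-!
# TWB, SL: crossings and cups
-/

set_option autoImplicit false

namespace Pool.Agent.TWB

open LaurentPolynomial Pool.Agent.Helper1.PK Pool.Agent.Per

variable {B : Type} [CommRing B] (A : Bˣ) {c : ℤ}

theorem sl_ab (c : ℤ) : ((A ^ c : Bˣ) : B) * ((A ^ (-c) : Bˣ) : B) = 1 := by
  rw [← Units.val_mul, ← zpow_add, add_neg_cancel, zpow_zero, Units.val_one]

theorem sl_loop (hc : c = 1 ∨ c = -1) : loopv A =
    -(((A ^ c : Bˣ) : B) ^ 2) - ((A ^ (-c) : Bˣ) : B) ^ 2 := by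
  unfold loopv
  rcases hc with rfl | rfl
  · rw [← Units.val_pow_eq_pow_val, ← Units.val_pow_eq_pow_val, ← zpow_natCast, ← zpow_mul,
      ← zpow_natCast, ← zpow_mul]
    norm_num
  · rw [← Units.val_pow_eq_pow_val, ← Units.val_pow_eq_pow_val, ← zpow_natCast, ← zpow_mul,
      ← zpow_natCast, ← zpow_mul]
    norm_num
    ring

theorem sl_three (c : ℤ) : ((A ^ (-3 * c) : Bˣ) : B) = ((A ^ (-c) : Bˣ) : B) ^ 3 := by
  rw [← Units.val_pow_eq_pow_val, ← zpow_natCast, ← zpow_mul]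
  congr 2
  push_cast
  ring

theorem sl_hom {m : ℕ} (i : ℕ) {f : Ten B} (h : Hom m f) : Hom m (XL A c i f) := by
  intro e he
  show ((A ^ c : Bˣ) : B) * f e + ((A ^ (-c) : Bˣ) : B) * eL A i f e = 0
  rw [h e he, rel_he A i h e he, mul_zero, mul_zero, add_zero]

theorem sl_lin (i : ℕ) (b : B) (f g : Ten B) :
    XL A c i (b • f + g) = b • XL A c i f + XL A c i g := by
  unfold XL
  rw [rel_le]
  module

theorem sl_z (i : ℕ) : XL A c i (0 : Ten B) = 0 := by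
  unfold XL
  rw [rel_ez]
  module

theorem sl_sm (i : ℕ) (b : B) (f : Ten B) : XL A c i (b • f) = b • XL A c i f := by
  unfold XL
  rw [rel_esm]
  module

theorem sl_3 (hc : c = 1 ∨ c = -1) (i : ℕ) (f : Ten B) :
    XL A c i (cupL A i f) = (-((A ^ (-3 * c) : Bˣ) : B)) • cupL A i f := by
  unfold XL
  rw [rel_3, smul_smul, ← add_smul]
  congr 1
  rw [sl_loop A hc, sl_three]
  have h := sl_ab A c
  linear_combination (-((A ^ c : Bˣ) : B)) * h

/-- the crossing next to a cup -/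
theorem sl_up (i : ℕ) (f : Ten B) : XL A c (i + 1) (cupL A i f) =
    ((A ^ c : Bˣ) : B) • cupL A i f + ((A ^ (-c) : Bˣ) : B) • cupL A (i + 1) f := by
  unfold XL
  rw [rel_4]

theorem sl_dn {m : ℕ} (i : ℕ) {f : Ten B} (hf : Hom m f) (hm : i + 1 ≤ m) :
    XL A c i (cupL A (i + 1) f) =
    ((A ^ c : Bˣ) : B) • cupL A (i + 1) f + ((A ^ (-c) : Bˣ) : B) • cupL A i f := by
  unfold XL
  rw [rel_5 A i m f hf hm]

theorem sl_4 (hc : c = 1 ∨ c = -1) {m : ℕ} (i : ℕ) {f : Ten B} (hf : Hom m f)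
    (hm : i + 1 ≤ m) : XL A c i (XL A c (i + 1) (cupL A i f)) = cupL A (i + 1) f := by
  rw [sl_up, sl_lin, sl_sm, sl_3 A hc, sl_dn A i hf hm, sl_three]
  have h := sl_ab A c
  match_scalars
  · linear_combination (-((A ^ (-c) : Bˣ) : B) ^ 2) * h
  · linear_combination h

theorem sl_5 (hc : c = 1 ∨ c = -1) {m : ℕ} (i : ℕ) {f : Ten B} (hf : Hom m f)
    (hm : i + 1 ≤ m) : XL A c (i + 1) (XL A c i (cupL A (i + 1) f)) = cupL A i f := by
  rw [sl_dn A i hf hm, sl_lin, sl_sm, sl_3 A hc, sl_up, sl_three]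
  have h := sl_ab A c
  match_scalars
  · linear_combination (-((A ^ (-c) : Bˣ) : B) ^ 2) * h
  · linear_combination h

theorem sl_6 (i l : ℕ) (f : Ten B) :
    XL A c (i + 2 + l) (cupL A i f) = cupL A i (XL A c (i + l) f) := by
  unfold XL
  rw [rel_cad, rel_csm, rel_csm, show i + 2 + l = l + 2 + i by omega, rel_6,
    show l + i = i + l by omega]

theorem sl_7 (i l : ℕ) (f : Ten B) :
    XL A c i (cupL A (i + 2 + l) f) = cupL A (i + 2 + l) (XL A c i f) := by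
  unfold XL
  rw [rel_cad, rel_csm, rel_csm, show i + 2 + l = l + 2 + i by omega, rel_7]

theorem sl_8 (i l : ℕ) (f : Ten B) :
    XL A c i (XL A c (i + 2 + l) f) = XL A c (i + 2 + l) (XL A c i f) := by
  have h := re2_far A i l f
  rw [show l + 2 + i = i + 2 + l by omega] at h
  unfold XL
  simp only [rel_ead, rel_esm, h]
  module

theorem sl_9 (hc : c = 1 ∨ c = -1) {m : ℕ} (i : ℕ) {f : Ten B} (hf : Hom m f)
    (hm : i + 3 ≤ m) :
    XL A c i (XL A c (i + 1) (XL A c i f)) = XL A c (i + 1) (XL A c i (XL A c (i + 1) f)) := by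
  have h := sl_ab A c
  unfold XL
  simp only [rel_ead, rel_esm, re2_a A i hf hm, re2_b A i hf hm, re2_sq]
  rw [sl_loop A hc]
  match_scalars
  · ring
  · linear_combination (-((A ^ (-c) : Bˣ) : B) ^ 3 - ((A ^ c : Bˣ) : B) ^ 2 *
      ((A ^ (-c) : Bˣ) : B)) * h
  · linear_combination (((A ^ (-c) : Bˣ) : B) ^ 3 + ((A ^ c : Bˣ) : B) ^ 2 *
      ((A ^ (-c) : Bˣ) : B)) * h
  · ring
  · ring

theorem thm_Sl : St_Sl := by
  intro B _ A c hc
  exact ⟨fun m i f h => sl_hom A i h, sl_lin A, sl_3 A hc,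
    fun m i f h hm => sl_4 A hc i h hm, fun m i f h hm => sl_5 A hc i h hm, sl_6 A, sl_7 A,
    sl_8 A, fun m i f h hm => sl_9 A hc i h hm⟩

end Pool.Agent.TWB
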