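import Pool.Agent.TWB.Act

/-!
# TWB [Spn]: the vectors `vL s` form a basis
-/

set_option autoImplicit false

namespace Pool.Agent.TWB

open LaurentPolynomial Pool.Agent.Helper1.PK Pool.Agent.Per

/-- the number of pairs `+` before `-` -/
def spn_inv : List ℤˣ → ℕ
  | [] => 0
  | x :: s => (if x = 1 then s.count (-1) else 0) + spn_inv s

theorem spn_count (u w : List ℤˣ) : (u ++ (-1 : ℤˣ) :: (1 : ℤˣ) :: w).count (-1) =
    (u ++ (1 : ℤˣ) :: (-1 : ℤˣ) :: w).count (-1) := by
  simp [List.count_append]

theorem spn_inv_lt (u w : List ℤˣ) : spn_inv (u ++ (-1 : ℤˣ) :: (1 : ℤˣ) :: w) <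
    spn_inv (u ++ (1 : ℤˣ) :: (-1 : ℤˣ) :: w) := by
  induction u with
  | nil =>
    have h : ¬ ((-1 : ℤˣ) = 1) := by decide
    have h2 : ((1 : ℤˣ) == (-1 : ℤˣ)) = false := by decide
    simp [spn_inv, h]
  | cons z u ih =>
    rw [List.cons_append, List.cons_append, spn_inv, spn_inv, spn_count]
    omega

section

variable {B : Type} [CommRing B] (A : Bˣ)

/-- the delta function -/
def spn_d (B : Type) [CommRing B] (e : List ℤˣ) : Ten B := fun e' => if e' = e then 1 else 0

/-- the span of the basis vectors of length `N` -/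
def spn_S (N : ℕ) : Submodule B (Ten B) :=
  Submodule.span B {f | ∃ s : List ℤˣ, s.length = N ∧ f = vL A s}

theorem spn_cup (u w : List ℤˣ) : cupL A u.length (spn_d B (u ++ w)) =
    (-((A ^ (2 : ℤ) : Bˣ) : B)) • spn_d B (u ++ (1 : ℤˣ) :: (-1 : ℤˣ) :: w) +
      spn_d B (u ++ (-1 : ℤˣ) :: (1 : ℤˣ) :: w) := by
  funext e
  rw [Pi.add_apply, Pi.smul_apply, smul_eq_mul]
  rcases Nat.lt_or_ge e.length (u.length + 2) with he | he
  · rw [act_cupL_short A u.length _ e he]
    have h1 : ¬ e = u ++ (1 : ℤˣ) :: (-1 : ℤˣ) :: w := by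
      intro h
      rw [h] at he
      simp at he
    have h2 : ¬ e = u ++ (-1 : ℤˣ) :: (1 : ℤˣ) :: w := by
      intro h
      rw [h] at he
      simp at he
    unfold spn_d
    rw [if_neg h1, if_neg h2, mul_zero, add_zero]
  · obtain ⟨u', x, y, w', hu, rfl⟩ := act_split u.length e he
    rw [act_cupL A u.length u' _ x y w' hu]
    unfold spn_d
    have key : ∀ a b : ℤˣ, (u' ++ x :: y :: w' = u ++ a :: b :: w) ↔
        (u' ++ w' = u ++ w ∧ x = a ∧ y = b) := by
      intro a b
      constructor
      · intro h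
        have h3 := List.append_inj h hu
        rw [List.cons.injEq, List.cons.injEq] at h3
        exact ⟨by rw [h3.1, h3.2.2.2], h3.2.1, h3.2.2.1⟩
      · rintro ⟨h, rfl, rfl⟩
        have h3 := List.append_inj h hu
        rw [h3.1, h3.2]
    by_cases h : u' ++ w' = u ++ w
    · rw [if_pos h, mul_one]
      rcases Int.units_eq_one_or x with hx | hx <;> rcases Int.units_eq_one_or y with hy | hy
      · subst hx hy
        rw [if_neg (fun h4 => absurd ((key 1 (-1)).1 h4).2.2 (by decide)),
          if_neg (fun h4 => absurd ((key (-1) 1).1 h4).2.1 (by decide))]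
        rw [cup2, if_neg (by decide)]
        ring
      · subst hx hy
        rw [if_pos ((key 1 (-1)).2 ⟨h, rfl, rfl⟩),
          if_neg (fun h4 => absurd ((key (-1) 1).1 h4).2.1 (by decide))]
        rw [cup2, if_pos rfl, if_pos rfl]
        ring
      · subst hx hy
        rw [if_neg (fun h4 => absurd ((key 1 (-1)).1 h4).2.1 (by decide)),
          if_pos ((key (-1) 1).2 ⟨h, rfl, rfl⟩)]
        rw [cup2, if_pos (by decide), if_neg (by decide)]
        ring
      · subst hx hy
        rw [if_neg (fun h4 => absurd ((key 1 (-1)).1 h4).2.1 (by decide)),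
          if_neg (fun h4 => absurd ((key (-1) 1).1 h4).2.2 (by decide))]
        rw [cup2, if_neg (by decide)]
        ring
    · rw [if_neg h, if_neg (fun h4 => h ((key 1 (-1)).1 h4).1),
        if_neg (fun h4 => h ((key (-1) 1).1 h4).1)]
      ring

end

theorem thm_Spn (h1 : St_Rel) (h2 : St_Val) (h3 : St_Cmb) : St_Spn := by
  intro B _ A n
  obtain ⟨R1, R2, R3, R4, R5, R6, R7⟩ := h1 B A
  obtain ⟨V1, V2, V3, V4⟩ := h2 B A
  obtain ⟨C1, C2, C3, C4, C5, C6, C7, C8, C9⟩ := h3
  have cup0 : ∀ j : ℕ, cupL A j (0 : Ten B) = 0 := by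
    intro j
    have h := (R2 j 1 0 0).1
    rw [smul_zero, add_zero, one_smul] at h
    exact left_eq_add.1 h
  -- cups preserve the span
  have hcup : ∀ (N j : ℕ) (f : Ten B), j ≤ N → f ∈ spn_S A N → cupL A j f ∈ spn_S A (N + 2) := by
    intro N j f hj hf
    induction hf using Submodule.span_induction with
    | mem x hx =>
      obtain ⟨s, hs, rfl⟩ := hx
      have hjs : j ≤ s.length := by omega
      rw [← V1 j s hjs]
      exact Submodule.subset_span ⟨ins j s, by rw [(C2 j s hjs).1, hs], rfl⟩
    | zero =>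
      rw [cup0]
      exact Submodule.zero_mem _
    | add x y _ _ hx hy =>
      have h := (R2 j 1 x y).1
      rw [one_smul, one_smul] at h
      rw [h]
      exact Submodule.add_mem _ hx hy
    | smul b x _ hx =>
      have h := (R2 j b x 0).1
      rw [add_zero, cup0, add_zero] at h
      rw [h]
      exact Submodule.smul_mem _ b hx
  -- the delta functions are in the span
  have hdel : ∀ (k : ℕ) (m : ℕ) (e : List ℤˣ), e.length = k → spn_inv e = m →
      spn_d B e ∈ spn_S A k := by
    intro k
    induction k using Nat.strong_induction_on with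
    | _ k ihk =>
    intro m
    induction m using Nat.strong_induction_on with
    | _ m ihm =>
    intro e hek hem
    rcases C1 e with ⟨j, hj⟩ | ⟨a, b, hab⟩
    · obtain ⟨u, w, hu, huw⟩ := (C5 j e).1 hj
      subst huw
      have hlen : (u ++ w).length + 2 = k := by
        rw [← hek]
        simp
        omega
      have d1 : spn_d B (u ++ w) ∈ spn_S A (u ++ w).length :=
        ihk (u ++ w).length (by omega) _ (u ++ w) rfl rfl
      have d2 : cupL A u.length (spn_d B (u ++ w)) ∈ spn_S A k := by
        have h := hcup (u ++ w).length u.length _ (by simp) d1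
        rwa [hlen] at h
      have d3 : spn_d B (u ++ (-1 : ℤˣ) :: (1 : ℤˣ) :: w) ∈ spn_S A k := by
        refine ihm _ ?_ _ ?_ rfl
        · rw [← hem]
          exact spn_inv_lt u w
        · rw [← hek]
          simp
      have e1 := spn_cup A u w
      have e2 : spn_d B (u ++ (1 : ℤˣ) :: (-1 : ℤˣ) :: w) =
          (-((A ^ (-2 : ℤ) : Bˣ) : B)) • (cupL A u.length (spn_d B (u ++ w)) -
            spn_d B (u ++ (-1 : ℤˣ) :: (1 : ℤˣ) :: w)) := by
        rw [e1, add_sub_cancel_right, smul_smul, neg_mul_neg, ← Units.val_mul, ← zpow_add]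
        simp
      rw [e2]
      exact Submodule.smul_mem _ _ (Submodule.sub_mem _ d2 d3)
    · subst hab
      have h : spn_d B (List.replicate a (-1) ++ List.replicate b 1) =
          vL A (List.replicate a (-1) ++ List.replicate b 1) := by
        funext e
        rw [V4]
        rfl
      rw [h]
      exact Submodule.subset_span ⟨_, hek, rfl⟩
  -- the coefficients
  have hco : ∀ τ : Spin n, ∃ c : Spin n → B, ∑ σ, c σ • vL A (lst σ) = spn_d B (lst τ) := by
    intro τ
    have h := hdel (n + 1) _ (lst τ) (by simp [lst]) rfl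
    have hset : {f | ∃ s : List ℤˣ, s.length = n + 1 ∧ f = vL A s} =
        Set.range (fun σ : Spin n => vL A (lst σ)) := by
      ext f
      constructor
      · rintro ⟨s, hs, rfl⟩
        refine ⟨fun i => s.get ⟨i, by rw [hs]; exact i.2⟩, ?_⟩
        have : lst (fun i : Fin (n + 1) => s.get ⟨i, by rw [hs]; exact i.2⟩) = s := by
          unfold lst
          refine List.ext_getElem (by simp [hs]) fun i h5 h6 => ?_
          rw [List.getElem_ofFn]
          rfl
        simp only [this]
      · rintro ⟨σ, rfl⟩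
        exact ⟨lst σ, by simp [lst], rfl⟩
    unfold spn_S at h
    rw [hset] at h
    exact (Submodule.mem_span_range_iff_exists_fun B).1 h
  choose c hc using hco
  have hmul : Vm A n * (Matrix.of fun σ τ => c τ σ) = 1 := by
    ext ε τ
    rw [Matrix.mul_apply, Matrix.one_apply]
    have h := congrFun (hc τ) (lst ε)
    rw [Finset.sum_apply] at h
    have h5 : ∑ σ, Vm A n ε σ * (Matrix.of fun σ τ => c τ σ) σ τ =
        ∑ σ, (c τ σ • vL A (lst σ)) (lst ε) := by
      refine Finset.sum_congr rfl fun σ _ => ?_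
      rw [Pi.smul_apply, smul_eq_mul, Matrix.of_apply]
      unfold Vm
      ring
    rw [h5, h]
    unfold spn_d
    by_cases h6 : ε = τ
    · rw [h6, if_pos rfl, if_pos rfl]
    · rw [if_neg h6, if_neg (show ¬ lst ε = lst τ from fun h7 => h6 (List.ofFn_injective h7))]
  exact ⟨_, hmul, mul_eq_one_comm.1 hmul⟩

end Pool.Agent.TWB
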