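import Pool.Agent.TWB.Sl

/-!
# TWB, SW: the sweep
-/

set_option autoImplicit false

namespace Pool.Agent.TWB

open LaurentPolynomial Pool.Agent.Helper1.PK Pool.Agent.Per

variable {B : Type} [CommRing B] (A : Bˣ) {c : ℤ}

theorem sw_hom {m : ℕ} (l : ℕ) : ∀ (j : ℕ) {f : Ten B}, Hom m f → Hom m (sw A c j l f) := by
  induction l with
  | zero => exact fun j f h => h
  | succ l ih => exact fun j f h => sl_hom A j (ih (j + 1) h)

theorem sw_lin (l : ℕ) : ∀ (j : ℕ) (b : B) (f g : Ten B),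
    sw A c j l (b • f + g) = b • sw A c j l f + sw A c j l g := by
  induction l with
  | zero => exact fun j b f g => rfl
  | succ l ih =>
    intro j b f g
    show XL A c j (sw A c (j + 1) l (b • f + g)) = _
    rw [ih, sl_lin]
    rfl

theorem sw_z (l : ℕ) : ∀ j : ℕ, sw A c j l (0 : Ten B) = 0 := by
  induction l with
  | zero => exact fun j => rfl
  | succ l ih =>
    intro j
    show XL A c j (sw A c (j + 1) l 0) = 0
    rw [ih, sl_z]

theorem sw_sm (l j : ℕ) (b : B) (f : Ten B) : sw A c j l (b • f) = b • sw A c j l f := by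
  have h := sw_lin A l j b f 0 (c := c)
  rwa [add_zero, sw_z, add_zero] at h

theorem sw_succ (j l : ℕ) (f : Ten B) : sw A c j (l + 1) f = XL A c j (sw A c (j + 1) l f) := rfl

/-- far sweeps pass a cup -/
theorem sw_far (i : ℕ) (l : ℕ) : ∀ (k : ℕ) (f : Ten B),
    sw A c (i + 2 + k) l (cupL A i f) = cupL A i (sw A c (i + k) l f) := by
  induction l with
  | zero => exact fun k f => rfl
  | succ l ih =>
    intro k f
    rw [sw_succ, sw_succ, show i + 2 + k + 1 = i + 2 + (k + 1) by omega, ih, sl_6]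
    rfl

/-- far sweeps commute with a crossing -/
theorem sw_comm (i : ℕ) (l : ℕ) : ∀ (k : ℕ) (f : Ten B),
    sw A c (i + 2 + k) l (XL A c i f) = XL A c i (sw A c (i + 2 + k) l f) := by
  induction l with
  | zero => exact fun k f => rfl
  | succ l ih =>
    intro k f
    rw [sw_succ, sw_succ, show i + 2 + k + 1 = i + 2 + (k + 1) by omega, ih, ← sl_8]

/-- the last crossing acts first -/
theorem sw_last (l : ℕ) : ∀ (j : ℕ) (f : Ten B),
    sw A c j (l + 1) f = sw A c j l (XL A c (j + l) f) := by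
  induction l with
  | zero => exact fun j f => rfl
  | succ l ih =>
    intro j f
    rw [sw_succ, ih, sw_succ, show j + 1 + l = j + (l + 1) by omega]

theorem sw_cup (hc : c = 1 ∨ c = -1) {m : ℕ} {f : Ten B} (hf : Hom m f) (d : ℕ) :
    ∀ (i j l : ℕ), j + d = i → i + 1 ≤ m → d ≤ l →
    sw A c j (l + 2) (cupL A i f) = cupL A (i + 1) (sw A c j l f) := by
  induction d with
  | zero =>
    intro i j l hj him _
    obtain rfl : j = i := by omega
    rw [sw_succ, sw_succ, show j + 1 + 1 = j + 2 + 0 by omega, sw_far, add_zero]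
    exact sl_4 A hc j (sw_hom A l j hf) him
  | succ d ih =>
    intro i j l hj him hl
    obtain ⟨l, rfl⟩ : ∃ l', l = l' + 1 := ⟨l - 1, by omega⟩
    rw [sw_succ, ih i (j + 1) l (by omega) him (by omega), sw_succ,
      show i + 1 = j + 2 + d by omega, sl_7]

theorem sw_twist (hc : c = 1 ∨ c = -1) {m : ℕ} {f : Ten B} (hf : Hom m f) (k : ℕ) :
    ∀ j : ℕ, j + k = m → sw A c j (k + 1) (sw A c j k (cupL A m f)) =
      (-((A ^ (-3 * c) : Bˣ) : B)) • cupL A j f := by
  induction k with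
  | zero =>
    intro j hj
    obtain rfl : j = m := by omega
    exact sl_3 A hc j f
  | succ k ih =>
    intro j hj
    rw [sw_succ A j k]
    set g := sw A c (j + 1) k (cupL A m f) with hg
    have hgm : Hom (m + 2) g := sw_hom A k (j + 1) (rel_hcup A m hf)
    rw [sw_succ, sw_succ, show j + 1 + 1 = j + 2 + 0 by omega, sw_comm]
    rw [sl_9 A hc j (sw_hom A k _ hgm) (by omega)]
    have h1 : XL A c (j + 1) (sw A c (j + 2 + 0) k g) = sw A c (j + 1) (k + 1) g := rfl
    rw [h1, hg, ih (j + 1) (by omega), sl_sm, sl_sm]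
    rw [sl_5 A hc j hf (by omega)]

theorem sw_six (c : ℤ) : ((A ^ (-3 * c) : Bˣ) : B) * ((A ^ (-3 * c) : Bˣ) : B) =
    ((A ^ (-6 * c) : Bˣ) : B) := by
  rw [← Units.val_mul, ← zpow_add]
  congr 2
  ring

theorem sw_two (hc : c = 1 ∨ c = -1) {m : ℕ} {f : Ten B} (hf : Hom m f) :
    sw A c 0 (m + 1) (sw A c 0 (m + 1) (cupL A m f)) =
      ((A ^ (-6 * c) : Bˣ) : B) • cupL A 0 f := by
  rw [sw_last A m 0 (cupL A m f), zero_add, sl_3 A hc, sw_sm, sw_sm,
    sw_twist A hc hf m 0 (by omega), smul_smul, neg_mul_neg, sw_six]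

theorem thm_Sw : St_Sw := by
  intro B _ A c hc
  refine ⟨fun m j l f h => sw_hom A l j h, fun j l b f g => sw_lin A l j b f g, ?_,
    fun m f h => sw_two A hc h⟩
  intro m i f hf hm
  obtain ⟨m, rfl⟩ : ∃ m', m = m' + 1 := ⟨m - 1, by omega⟩
  exact sw_cup A hc hf i i 0 m (by omega) (by omega) (by omega)

end Pool.Agent.TWB
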