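import Pool.Agent.TWB.St

/-!
# TWB: the states joined at all even (odd) places
-/

set_option autoImplicit false

namespace Pool.Agent.TWB

open LaurentPolynomial Pool.Agent.Helper1.PK Pool.Agent.Per

/-- `+ - + - ⋯`, `k` pairs -/
private def top_alt : ℕ → List ℤˣ
  | 0 => []
  | k + 1 => 1 :: -1 :: top_alt k

private theorem top_len (k : ℕ) : (top_alt k).length = 2 * k := by
  induction k with
  | zero => rfl
  | succ k ih =>
    show (top_alt k).length + 1 + 1 = _
    omega

section

variable (hc : St_Cmb)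

include hc

private theorem top_J0 (x y : ℤˣ) (s : List ℤˣ) : Jn 0 (x :: y :: s) ↔ x = 1 ∧ y = -1 := by
  rw [hc.2.2.2.2.1]
  constructor
  · rintro ⟨u, w, hu, h⟩
    rw [List.length_eq_zero_iff.1 hu, List.nil_append] at h
    injection h with h1 h2
    injection h2 with h3 _
    exact ⟨h1, h3⟩
  · rintro ⟨rfl, rfl⟩
    exact ⟨[], s, rfl, rfl⟩

private theorem top_J1 (i : ℕ) (x : ℤˣ) (s : List ℤˣ) : Jn (i + 1) (x :: s) ↔ Jn i s := by
  rw [hc.2.2.2.2.1, hc.2.2.2.2.1]
  constructor
  · rintro ⟨u, w, hu, h⟩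
    cases u with
    | nil => simp at hu
    | cons a u =>
      rw [List.cons_append] at h
      injection h with h1 h2
      exact ⟨u, w, by simpa using hu, h2⟩
  · rintro ⟨u, w, hu, h⟩
    exact ⟨x :: u, w, by simp [hu], by rw [h, List.cons_append]⟩

/-- all even places are joined -/
private theorem top_E (n : ℕ) : ∀ s : List ℤˣ, s.length ≤ n →
    ((∀ i : ℕ, i % 2 = 0 → i + 1 < s.length → Jn i s) ↔
      ∃ (k : ℕ) (w : List ℤˣ), w.length ≤ 1 ∧ s = top_alt k ++ w) := by
  induction n using Nat.strong_induction_on with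
  | _ n ih =>
    intro s hs
    match s, hs with
    | [], _ => exact ⟨fun _ => ⟨0, [], by simp, rfl⟩, fun _ i _ h => absurd h (by simp)⟩
    | [x], _ => exact ⟨fun _ => ⟨0, [x], by simp, rfl⟩, fun _ i _ h => absurd h (by simp)⟩
    | x :: y :: s, hs =>
      have hs2 : s.length + 2 ≤ n := by
        rw [List.length_cons, List.length_cons] at hs
        omega
      have h1 := ih (n - 2) (by omega) s (by omega)
      constructor
      · intro h
        have h2 := (top_J0 hc x y s).1 (h 0 rfl (by simp))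
        have h3 : ∀ i : ℕ, i % 2 = 0 → i + 1 < s.length → Jn i s := by
          intro i hi hi2
          have h4 := h (i + 2) (by omega) (by
            rw [List.length_cons, List.length_cons]
            omega)
          rw [top_J1 hc, top_J1 hc] at h4
          exact h4
        obtain ⟨k, w, hw, h4⟩ := h1.1 h3
        refine ⟨k + 1, w, hw, ?_⟩
        rw [h2.1, h2.2, h4]
        rfl
      · rintro ⟨k, w, hw, h2⟩
        cases k with
        | zero =>
          exfalso
          have h3 : x :: y :: s = w := h2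
          rw [← h3] at hw
          simp at hw
        | succ k =>
          have h3 : x :: y :: s = 1 :: -1 :: (top_alt k ++ w) := h2
          injection h3 with h4 h5
          injection h5 with h6 h7
          intro i hi hi2
          match i, hi, hi2 with
          | 0, _, _ => exact (top_J0 hc x y s).2 ⟨h4, h6⟩
          | 1, hi, _ => exact absurd hi (by simp)
          | i + 2, hi, hi2 =>
            rw [top_J1 hc, top_J1 hc]
            refine h1.2 ⟨k, w, hw, h7⟩ i (by omega) ?_
            rw [List.length_cons, List.length_cons] at hi2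
            omega

private theorem top_O (z : ℤˣ) (s : List ℤˣ) :
    (∀ i : ℕ, i % 2 = 1 → i + 1 < (z :: s).length → Jn i (z :: s)) ↔
      ∃ (k : ℕ) (w : List ℤˣ), w.length ≤ 1 ∧ s = top_alt k ++ w := by
  rw [← top_E hc s.length s le_rfl]
  constructor
  · intro h i hi hi2
    have h1 := h (i + 1) (by omega) (by
      rw [List.length_cons]
      omega)
    rwa [top_J1 hc] at h1
  · intro h i hi hi2
    match i, hi, hi2 with
    | 0, hi, _ => exact absurd hi (by simp)
    | i + 1, hi, hi2 =>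
      rw [top_J1 hc]
      refine h i (by omega) ?_
      rw [List.length_cons] at hi2
      omega

private theorem top_mE (k : ℕ) (w : List ℤˣ) :
    mm (top_alt k ++ w) = mm w ∧ sm (top_alt k ++ w) = sm w := by
  induction k with
  | zero => exact ⟨rfl, rfl⟩
  | succ k ih =>
    have h := hc.2.1 0 (top_alt k ++ w) (Nat.zero_le _)
    have e : ins 0 (top_alt k ++ w) = top_alt (k + 1) ++ w := rfl
    rw [e] at h
    exact ⟨h.2.1.trans ih.1, h.2.2.1.trans ih.2⟩

private theorem top_mO (z : ℤˣ) (k : ℕ) (w : List ℤˣ) :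
    mm (z :: (top_alt k ++ w)) = mm (z :: w) ∧ sm (z :: (top_alt k ++ w)) = sm (z :: w) := by
  induction k with
  | zero => exact ⟨rfl, rfl⟩
  | succ k ih =>
    have h := hc.2.1 1 (z :: (top_alt k ++ w)) (by simp)
    have e : ins 1 (z :: (top_alt k ++ w)) = z :: (top_alt (k + 1) ++ w) := rfl
    rw [e] at h
    exact ⟨h.2.1.trans ih.1, h.2.2.1.trans ih.2⟩

end

private theorem top_lst {n : ℕ} (σ : Spin n) : (lst σ).length = n + 1 := List.length_ofFn

private theorem top_ex {n : ℕ} (s : List ℤˣ) (hs : s.length = n + 1) :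
    ∃ σ : Spin n, lst σ = s := by
  have key : List.ofFn (fun j : Fin (n + 1) => s.get (Fin.cast hs.symm j)) = s := by
    apply List.ext_getElem
    · rw [List.length_ofFn, hs]
    · intro i h1 h2
      rw [List.getElem_ofFn]
      rfl
  exact ⟨fun j => s.get (Fin.cast hs.symm j), key⟩

private theorem top_unique {n : ℕ} (R : List ℤˣ → Prop) (s : List ℤˣ) (hs : s.length = n + 1)
    (h1 : R s) (h2 : ∀ s' : List ℤˣ, s'.length = n + 1 → R s' → s' = s) :
    ∃! σ : Spin n, R (lst σ) := by
  obtain ⟨σ, rfl⟩ := top_ex s hs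
  refine ⟨σ, h1, fun τ hτ => ?_⟩
  exact List.ofFn_injective (h2 (lst τ) (top_lst τ) hτ)

private theorem top_AE {n : ℕ} (σ : Spin n) : AllE σ ↔
    ∀ i : ℕ, i % 2 = 0 → i + 1 < (lst σ).length → Jn i (lst σ) := by
  rw [top_lst]
  exact ⟨fun h i hi hi2 => h ⟨i, by omega⟩ hi, fun h i hi => h i hi (by omega)⟩

private theorem top_AO {n : ℕ} (σ : Spin n) : AllO σ ↔
    ∀ i : ℕ, i % 2 = 1 → i + 1 < (lst σ).length → Jn i (lst σ) := by
  rw [top_lst]
  exact ⟨fun h i hi hi2 => h ⟨i, by omega⟩ hi, fun h i hi => h i hi (by omega)⟩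

private def top_PE (s : List ℤˣ) : Prop := ∀ i : ℕ, i % 2 = 0 → i + 1 < s.length → Jn i s

private def top_PO (s : List ℤˣ) : Prop := ∀ i : ℕ, i % 2 = 1 → i + 1 < s.length → Jn i s

private theorem top_k1 (hc : St_Cmb) (K : ℕ) (s : List ℤˣ) (hs : s.length = 2 * K) :
    top_PE s ↔ s = top_alt K := by
  unfold top_PE
  rw [top_E hc s.length s le_rfl]
  constructor
  · rintro ⟨k, w, hw, rfl⟩
    rw [List.length_append, top_len] at hs
    have h1 : w.length = 0 := by omega
    have h2 : k = K := by omega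
    rw [List.length_eq_zero_iff.1 h1, h2, List.append_nil]
  · rintro rfl
    exact ⟨K, [], by simp, (List.append_nil _).symm⟩

private theorem top_k2 (hc : St_Cmb) (K : ℕ) (s : List ℤˣ) (hs : s.length = 2 * K + 1) :
    top_PE s ↔ ∃ z, s = top_alt K ++ [z] := by
  unfold top_PE
  rw [top_E hc s.length s le_rfl]
  constructor
  · rintro ⟨k, w, hw, rfl⟩
    rw [List.length_append, top_len] at hs
    obtain ⟨z, rfl⟩ := List.length_eq_one_iff.1 (by omega : w.length = 1)
    have h2 : k = K := by
      rw [List.length_singleton] at hs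
      omega
    exact ⟨z, by rw [h2]⟩
  · rintro ⟨z, rfl⟩
    exact ⟨K, [z], by simp, rfl⟩

private theorem top_k3 (hc : St_Cmb) (K : ℕ) (s : List ℤˣ) (hs : s.length = 2 * K + 1) :
    top_PO s ↔ ∃ z, s = z :: top_alt K := by
  cases s with
  | nil => simp at hs
  | cons z s =>
    unfold top_PO
    rw [top_O hc]
    rw [List.length_cons] at hs
    constructor
    · rintro ⟨k, w, hw, rfl⟩
      rw [List.length_append, top_len] at hs
      have h1 : w.length = 0 := by omega
      have h2 : k = K := by omega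
      exact ⟨z, by rw [List.length_eq_zero_iff.1 h1, h2, List.append_nil]⟩
    · rintro ⟨z', h⟩
      injection h with _ h2
      exact ⟨K, [], by simp, by rw [h2, List.append_nil]⟩

private theorem top_k4 (hc : St_Cmb) (K : ℕ) (s : List ℤˣ) (hs : s.length = 2 * K + 2) :
    top_PO s ↔ ∃ z w, s = z :: (top_alt K ++ [w]) := by
  cases s with
  | nil => simp at hs
  | cons z s =>
    unfold top_PO
    rw [top_O hc]
    rw [List.length_cons] at hs
    constructor
    · rintro ⟨k, w, hw, rfl⟩
      rw [List.length_append, top_len] at hs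
      obtain ⟨y, rfl⟩ := List.length_eq_one_iff.1 (by omega : w.length = 1)
      have h2 : k = K := by
        rw [List.length_singleton] at hs
        omega
      exact ⟨z, y, by rw [h2]⟩
    · rintro ⟨z', w, h⟩
      injection h with _ h2
      exact ⟨K, [w], by simp, h2⟩

private theorem top_u (z : ℤˣ) : z = 1 ∨ z = -1 := Int.units_eq_one_or z

private theorem top_sm1 (z : ℤˣ) : sm [z] = (z : ℤ) := by simp [sm]

private theorem top_sm2 (z w : ℤˣ) : sm [z, w] = (z : ℤ) + w := by simp [sm]

private theorem top_mm1 (z : ℤˣ) : mm [z] = 1 := by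
  rcases top_u z with rfl | rfl <;> decide

private theorem top_mm2 (z w : ℤˣ) : mm [z, w] = if z = 1 ∧ w = -1 then 0 else 2 := by
  rcases top_u z with rfl | rfl <;> rcases top_u w with rfl | rfl <;> decide

theorem thm_Top (hc : St_Cmb) : St_Top := by
  intro n hn
  have hinj : ∀ z w : ℤˣ, (z : ℤ) = w → z = w := fun z w h => Units.ext h
  refine ⟨fun h => ?_, fun h => ?_, fun h => ?_, fun h => ?_⟩
  · obtain ⟨K, hK⟩ : ∃ K, n + 1 = 2 * K := ⟨(n + 1) / 2, by omega⟩
    have e0 : ∀ σ : Spin n, AllE σ ↔ top_PE (lst σ) := top_AE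
    have hm := top_mE hc K []
    rw [List.append_nil] at hm
    constructor
    · simp only [e0]
      refine top_unique top_PE (top_alt K) (by rw [top_len, hK])
        ((top_k1 hc K _ (top_len K)).2 rfl) fun s' hs' h' => ?_
      exact (top_k1 hc K s' (by rw [hs', hK])).1 h'
    · intro σ hσ
      rw [e0, top_k1 hc K _ (by rw [top_lst, hK])] at hσ
      rw [hσ]
      exact hm
  · obtain ⟨K, hK⟩ : ∃ K, n + 1 = 2 * K + 1 := ⟨n / 2, by omega⟩
    have e0 : ∀ σ : Spin n, AllE σ ↔ top_PE (lst σ) := top_AE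
    constructor
    · intro x hx
      obtain ⟨z, hz⟩ : ∃ z : ℤˣ, (z : ℤ) = x := by
        rcases hx with rfl | rfl
        · exact ⟨1, rfl⟩
        · exact ⟨-1, rfl⟩
      simp only [e0]
      have hl : (top_alt K ++ [z]).length = 2 * K + 1 := by simp [top_len]
      refine top_unique (fun s => top_PE s ∧ sm s = x) (top_alt K ++ [z]) (by rw [hl, hK])
        ⟨(top_k2 hc K _ hl).2 ⟨z, rfl⟩, ?_⟩ fun s' hs' h' => ?_
      · rw [(top_mE hc K [z]).2, top_sm1, hz]
      · obtain ⟨z', rfl⟩ := (top_k2 hc K s' (by rw [hs', hK])).1 h'.1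
        have h2 := h'.2
        rw [(top_mE hc K [z']).2, top_sm1, ← hz] at h2
        rw [hinj _ _ h2]
    · intro σ hσ
      rw [e0, top_k2 hc K _ (by rw [top_lst, hK])] at hσ
      obtain ⟨z, hz⟩ := hσ
      rw [hz, (top_mE hc K [z]).1, (top_mE hc K [z]).2, top_sm1, top_mm1]
      rcases top_u z with rfl | rfl
      · exact ⟨rfl, Or.inl rfl⟩
      · exact ⟨rfl, Or.inr rfl⟩
  · obtain ⟨K, hK⟩ : ∃ K, n + 1 = 2 * K + 1 := ⟨n / 2, by omega⟩
    have e0 : ∀ σ : Spin n, AllO σ ↔ top_PO (lst σ) := top_AO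
    have hm : ∀ z : ℤˣ, mm (z :: top_alt K) = 1 ∧ sm (z :: top_alt K) = (z : ℤ) := by
      intro z
      have h1 := top_mO hc z K []
      rw [List.append_nil, top_mm1, top_sm1] at h1
      exact h1
    constructor
    · intro x hx
      obtain ⟨z, hz⟩ : ∃ z : ℤˣ, (z : ℤ) = x := by
        rcases hx with rfl | rfl
        · exact ⟨1, rfl⟩
        · exact ⟨-1, rfl⟩
      simp only [e0]
      have hl : (z :: top_alt K).length = 2 * K + 1 := by simp [top_len]
      refine top_unique (fun s => top_PO s ∧ sm s = x) (z :: top_alt K) (by rw [hl, hK])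
        ⟨(top_k3 hc K _ hl).2 ⟨z, rfl⟩, ?_⟩ fun s' hs' h' => ?_
      · rw [(hm z).2, hz]
      · obtain ⟨z', rfl⟩ := (top_k3 hc K s' (by rw [hs', hK])).1 h'.1
        have h2 := h'.2
        rw [(hm z').2, ← hz] at h2
        rw [hinj _ _ h2]
    · intro σ hσ
      rw [e0, top_k3 hc K _ (by rw [top_lst, hK])] at hσ
      obtain ⟨z, hz⟩ := hσ
      rw [hz, (hm z).1, (hm z).2]
      rcases top_u z with rfl | rfl
      · exact ⟨rfl, Or.inl rfl⟩
      · exact ⟨rfl, Or.inr rfl⟩
  · obtain ⟨K, hK⟩ : ∃ K, n + 1 = 2 * K + 2 := ⟨(n - 1) / 2, by omega⟩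
    have e0 : ∀ σ : Spin n, AllO σ ↔ top_PO (lst σ) := top_AO
    have hm : ∀ z w : ℤˣ, mm (z :: (top_alt K ++ [w])) = (if z = 1 ∧ w = -1 then 0 else 2) ∧
        sm (z :: (top_alt K ++ [w])) = (z : ℤ) + w := by
      intro z w
      have h1 := top_mO hc z K [w]
      rw [top_mm2, top_sm2] at h1
      exact h1
    have hl : ∀ z w : ℤˣ, (z :: (top_alt K ++ [w])).length = 2 * K + 2 := fun z w => by
      simp [top_len]
    simp only [e0]
    refine ⟨?_, ?_, ?_, ?_⟩
    · refine top_unique (fun s => top_PO s ∧ mm s = 0) (1 :: (top_alt K ++ [-1]))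
        (by rw [hl, hK]) ⟨(top_k4 hc K _ (hl _ _)).2 ⟨1, -1, rfl⟩, ?_⟩ fun s' hs' h' => ?_
      · rw [(hm 1 (-1)).1, if_pos ⟨rfl, rfl⟩]
      · obtain ⟨z, w, rfl⟩ := (top_k4 hc K s' (by rw [hs', hK])).1 h'.1
        have h2 := h'.2
        rw [(hm z w).1] at h2
        by_cases h3 : z = 1 ∧ w = -1
        · rw [h3.1, h3.2]
        · rw [if_neg h3] at h2
          omega
    · refine top_unique (fun s => top_PO s ∧ sm s = 2) (1 :: (top_alt K ++ [1]))
        (by rw [hl, hK]) ⟨(top_k4 hc K _ (hl _ _)).2 ⟨1, 1, rfl⟩, ?_⟩ fun s' hs' h' => ?_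
      · rw [(hm 1 1).2]
        rfl
      · obtain ⟨z, w, rfl⟩ := (top_k4 hc K s' (by rw [hs', hK])).1 h'.1
        have h2 := h'.2
        rw [(hm z w).2] at h2
        rcases top_u z with rfl | rfl <;> rcases top_u w with rfl | rfl
        · rfl
        · simp at h2
        · simp at h2
        · simp at h2
    · refine top_unique (fun s => top_PO s ∧ sm s = -2) (-1 :: (top_alt K ++ [-1]))
        (by rw [hl, hK]) ⟨(top_k4 hc K _ (hl _ _)).2 ⟨-1, -1, rfl⟩, ?_⟩ fun s' hs' h' => ?_
      · rw [(hm (-1) (-1)).2]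
        rfl
      · obtain ⟨z, w, rfl⟩ := (top_k4 hc K s' (by rw [hs', hK])).1 h'.1
        have h2 := h'.2
        rw [(hm z w).2] at h2
        rcases top_u z with rfl | rfl <;> rcases top_u w with rfl | rfl
        · simp at h2
        · simp at h2
        · simp at h2
        · rfl
    · intro σ hσ
      rw [top_k4 hc K _ (by rw [top_lst, hK])] at hσ
      obtain ⟨z, w, hz⟩ := hσ
      rw [hz, (hm z w).1, (hm z w).2]
      rcases top_u z with rfl | rfl <;> rcases top_u w with rfl | rfl
      · exact Or.inr ⟨by simp, Or.inl (by simp)⟩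
      · exact Or.inl ⟨by simp, by simp⟩
      · exact Or.inr ⟨by simp, Or.inr (Or.inl (by simp))⟩
      · exact Or.inr ⟨by simp, Or.inr (Or.inr (by simp))⟩

end Pool.Agent.TWB
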