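import Pool.Agent.TWB.St

/-!
# TWB: the full twist on the basis
-/

set_option autoImplicit false

namespace Pool.Agent.TWB

open LaurentPolynomial Pool.Agent.Helper1.PK Pool.Agent.Per

section

variable {B : Type} [CommRing B]

private def twa_Lin (H : Ten B → Ten B) : Prop :=
  ∀ (b : B) (f g : Ten B), H (b • f + g) = b • H f + H g

private theorem twa_zero {H : Ten B → Ten B} (h : twa_Lin H) : H 0 = 0 := by
  have h1 := h 1 0 0
  rw [one_smul, one_smul, add_zero] at h1
  exact left_eq_add.1 h1

private theorem twa_add {H : Ten B → Ten B} (h : twa_Lin H) (f g : Ten B) :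
    H (f + g) = H f + H g := by
  have h1 := h 1 f g
  rwa [one_smul, one_smul] at h1

private theorem twa_smul {H : Ten B → Ten B} (h : twa_Lin H) (b : B) (f : Ten B) :
    H (b • f) = b • H f := by
  have h1 := h b f 0
  rwa [twa_zero h, add_zero, add_zero] at h1

private theorem twa_span {H : Ten B → Ten B} (h : twa_Lin H) {S : Set (Ten B)}
    {V : Submodule B (Ten B)} (hS : ∀ f ∈ S, H f ∈ V) {f : Ten B}
    (hf : f ∈ Submodule.span B S) : H f ∈ V := by
  induction hf using Submodule.span_induction with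
  | mem f hf => exact hS f hf
  | zero => rw [twa_zero h]; exact V.zero_mem
  | add f g _ _ h1 h2 => rw [twa_add h]; exact V.add_mem h1 h2
  | smul b f _ h1 => rw [twa_smul h]; exact V.smul_mem _ h1

/-- `v` is an eigenvector of `H` modulo `V`, which is stable under `H` -/
private def twa_E (V : Submodule B (Ten B)) (v : Ten B) (u : B) (H : Ten B → Ten B) : Prop :=
  (∀ f ∈ V, H f ∈ V) ∧ H v - u • v ∈ V

private theorem twa_comp {V : Submodule B (Ten B)} {v : Ten B} {u u' : B} {H G : Ten B → Ten B}
    (hG : twa_Lin G) (h1 : twa_E V v u H) (h2 : twa_E V v u' G) :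
    twa_E V v (u * u') (fun f => G (H f)) := by
  refine ⟨fun f hf => h2.1 _ (h1.1 f hf), ?_⟩
  show G (H v) - (u * u') • v ∈ V
  have e1 : H v = u • v + (H v - u • v) := by abel
  have e2 : G (H v) - (u * u') • v = u • (G v - u' • v) + G (H v - u • v) := by
    conv_lhs => rw [e1]
    rw [hG]
    module
  rw [e2]
  exact V.add_mem (V.smul_mem _ h2.2) (h2.1 _ (h1.1 v |> fun _ => h1.2))

end

section

variable {B : Type} [CommRing B] (A : Bˣ)

private theorem twa_XL (hr : St_Rel) (c : ℤ) (i : ℕ) : twa_Lin (XL A c i) := by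
  intro b f g
  unfold XL
  rw [((hr B A).2.1 i b f g).2]
  module

private theorem twa_sw (hr : St_Rel) (c : ℤ) (l : ℕ) : ∀ a, twa_Lin (sw A c a l) := by
  induction l with
  | zero =>
    intro a b f g
    rfl
  | succ l ih =>
    intro a b f g
    show XL A c a (sw A c (a + 1) l (b • f + g)) = b • XL A c a (sw A c (a + 1) l f) +
      XL A c a (sw A c (a + 1) l g)
    rw [ih, twa_XL A hr]

private theorem twa_iter {H : Ten B → Ten B} (h : twa_Lin H) (k : ℕ) : twa_Lin H^[k] := by
  induction k with
  | zero => intro b f g; rfl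
  | succ k ih =>
    intro b f g
    rw [Function.iterate_succ_apply', Function.iterate_succ_apply',
      Function.iterate_succ_apply', ih, h]

/-- stability of `Low` -/
private theorem twa_low (hr : St_Rel) (hc : St_Cmb) (ha : St_Act) (c : ℤ) (N m i : ℕ)
    (f : Ten B) (hi : i + 2 ≤ N) (hf : f ∈ Low A N m) :
    eL A i f ∈ Low A N m ∧ XL A c i f ∈ Low A N m := by
  have h1 : eL A i f ∈ Low A N m := by
    refine twa_span (fun b f g => ((hr B A).2.1 i b f g).2) ?_ hf
    rintro _ ⟨t, ht, hm, rfl⟩
    have h2 := ha B A t i (by omega)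
    by_cases hJ : Jn i t
    · rw [h2.1 hJ]
      exact Submodule.smul_mem _ _ (Submodule.subset_span ⟨t, ht, hm, rfl⟩)
    · rcases h2.2 hJ with h3 | ⟨t', h4, h5, _, h6⟩
      · rw [h3]
        exact Submodule.zero_mem _
      · have h7 := hc.2.1 i t' h4
        rcases h6 with ⟨h8, h9, _⟩ | ⟨h8, d, h9⟩
        · rw [h8]
          exact Submodule.subset_span ⟨_, by omega, by omega, rfl⟩
        · rw [h9]
          exact Submodule.smul_mem _ _ (Submodule.subset_span ⟨_, by omega, by omega, rfl⟩)
  refine ⟨h1, ?_⟩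
  unfold XL
  exact Submodule.add_mem _ (Submodule.smul_mem _ _ hf) (Submodule.smul_mem _ _ h1)

private theorem twa_lowsw (hr : St_Rel) (hc : St_Cmb) (ha : St_Act) (c : ℤ) (N m l : ℕ) :
    ∀ (a : ℕ), (∀ j < l, a + j + 2 ≤ N) → ∀ f ∈ Low A N m, sw A c a l f ∈ Low A N m := by
  induction l with
  | zero => intro a _ f hf; exact hf
  | succ l ih =>
    intro a h f hf
    show XL A c a (sw A c (a + 1) l f) ∈ _
    refine (twa_low A hr hc ha c N m a _ (h 0 (by omega)) (ih (a + 1) (fun j hj => ?_) f hf)).2
    have := h (j + 1) (by omega)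
    omega

private theorem twa_lowit {V : Submodule B (Ten B)} {H : Ten B → Ten B}
    (h : ∀ f ∈ V, H f ∈ V) (k : ℕ) : ∀ f ∈ V, H^[k] f ∈ V := by
  induction k with
  | zero => intro f hf; exact hf
  | succ k ih =>
    intro f hf
    rw [Function.iterate_succ_apply']
    exact h _ (ih f hf)

private theorem twa_lowFT (hr : St_Rel) (hc : St_Cmb) (ha : St_Act) (c : ℤ) (N m : ℕ) :
    ∀ f ∈ Low A N m, FT A c N f ∈ Low A N m :=
  twa_lowit (twa_lowsw A hr hc ha c N m (N - 1) 0 fun j hj => by omega) N

/-- the extreme sequences -/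
private theorem twa_ext (hr : St_Rel) (hc : St_Cmb) (ha : St_Act) (c : ℤ) (s : List ℤˣ)
    (hs : mm s = s.length) (l : ℕ) : ∀ (a : ℕ), (∀ j < l, a + j + 2 ≤ s.length) →
    twa_E (Low A s.length (mm s)) (vL A s) ((A ^ (c * l) : Bˣ) : B) (sw A c a l) := by
  induction l with
  | zero =>
    intro a _
    refine ⟨fun f hf => hf, ?_⟩
    show vL A s - _ ∈ _
    rw [Nat.cast_zero, mul_zero, zpow_zero, Units.val_one, one_smul, sub_self]
    exact Submodule.zero_mem _
  | succ l ih =>
    intro a h
    have h1 := ih (a + 1) (fun j hj => by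
      have := h (j + 1) (by omega)
      omega)
    have ha2 : a + 2 ≤ s.length := h 0 (by omega)
    have h2 : twa_E (Low A s.length (mm s)) (vL A s) ((A ^ c : Bˣ) : B) (XL A c a) := by
      refine ⟨fun f hf => (twa_low A hr hc ha c _ _ a f ha2 hf).2, ?_⟩
      have h3 : eL A a (vL A s) ∈ Low A s.length (mm s) := by
        have h4 := ha B A s a ha2
        by_cases hJ : Jn a s
        · exfalso
          obtain ⟨t, ht, rfl⟩ := hJ
          have h5 := hc.2.1 a t ht
          have h6 := (hc.2.2.2.1 t).1
          omega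
        · rcases h4.2 hJ with h3 | ⟨t', h4, h5, _, h6⟩
          · rw [h3]
            exact Submodule.zero_mem _
          · have h7 := hc.2.1 a t' h4
            have h10 := (hc.2.2.2.1 t').1
            rcases h6 with ⟨h8, h9, _⟩ | ⟨h8, d, h9⟩
            · exfalso
              omega
            · rw [h9]
              exact Submodule.smul_mem _ _ (Submodule.subset_span ⟨_, by omega, by omega, rfl⟩)
      unfold XL
      rw [add_sub_cancel_left]
      exact Submodule.smul_mem _ _ h3
    have h3 := twa_comp (twa_XL A hr c a) h1 h2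
    have e1 : ((A ^ (c * l) : Bˣ) : B) * ((A ^ c : Bˣ) : B) =
        ((A ^ (c * (l + 1 : ℕ)) : Bˣ) : B) := by
      rw [← Units.val_mul, ← zpow_add]
      congr 2
      push_cast
      ring
    rw [e1] at h3
    exact h3

private theorem twa_extit {V : Submodule B (Ten B)} {v : Ten B} {H : Ten B → Ten B}
    (hH : twa_Lin H) (d : ℤ) (h : twa_E V v ((A ^ d : Bˣ) : B) H) (k : ℕ) :
    twa_E V v ((A ^ (d * k) : Bˣ) : B) H^[k] := by
  induction k with
  | zero =>
    refine ⟨fun f hf => hf, ?_⟩
    show v - _ ∈ _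
    rw [Nat.cast_zero, mul_zero, zpow_zero, Units.val_one, one_smul, sub_self]
    exact Submodule.zero_mem _
  | succ k ih =>
    have h3 := twa_comp hH ih h
    have e1 : ((A ^ (d * k) : Bˣ) : B) * ((A ^ d : Bˣ) : B) =
        ((A ^ (d * (k + 1 : ℕ)) : Bˣ) : B) := by
      rw [← Units.val_mul, ← zpow_add]
      congr 2
      push_cast
      ring
    rw [e1] at h3
    refine ⟨fun f hf => ?_, ?_⟩
    · rw [Function.iterate_succ_apply']
      exact h3.1 f hf
    · rw [Function.iterate_succ_apply']
      exact h3.2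

private theorem twa_main (hr : St_Rel) (hf : St_Ftc) (hv : St_Val) (hc : St_Cmb) (ha : St_Act)
    (c : ℤ) (hcc : c = 1 ∨ c = -1) : ∀ (n : ℕ) (s : List ℤˣ), s.length ≤ n →
    FT A c s.length (vL A s) -
      ((A ^ (c * ((mm s : ℤ) ^ 2 + 2 * mm s - 3 * s.length)) : Bˣ) : B) • vL A s ∈
        Low A s.length (mm s) := by
  intro n
  induction n with
  | zero =>
    intro s hs
    have h0 : s = [] := List.length_eq_zero_iff.1 (by omega)
    subst h0
    have h1 : mm [] = 0 := rfl
    rw [h1]
    show vL A [] - _ ∈ _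
    simp only [List.length_nil, Nat.cast_zero]
    norm_num
  | succ n ih =>
    intro s hs
    rcases hc.1 s with ⟨i, t, ht, rfl⟩ | ⟨a, b, hab⟩
    · obtain ⟨e1, e2, _, _⟩ := hc.2.1 i t ht
      have h1 := ih t (by omega)
      have h2 := (hf B A c hcc).2.2 t.length i (vL A t) ((hv B A).2.1 t) ht
      have hl : twa_Lin (cupL A i) := fun b f g => ((hr B A).2.1 i b f g).1
      rw [e1, e2, (hv B A).1 i t ht, h2]
      have e3 : FT A c t.length (vL A t) =
          ((A ^ (c * ((mm t : ℤ) ^ 2 + 2 * mm t - 3 * t.length)) : Bˣ) : B) • vL A t +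
          (FT A c t.length (vL A t) -
            ((A ^ (c * ((mm t : ℤ) ^ 2 + 2 * mm t - 3 * t.length)) : Bˣ) : B) • vL A t) := by
        abel
      rw [e3, hl, smul_add, smul_smul, ← Units.val_mul, ← zpow_add]
      have e4 : -6 * c + c * ((mm t : ℤ) ^ 2 + 2 * mm t - 3 * t.length) =
          c * ((mm t : ℤ) ^ 2 + 2 * mm t - 3 * (t.length + 2 : ℕ)) := by
        push_cast
        ring
      rw [e4, add_sub_cancel_left]
      refine Submodule.smul_mem _ _ (twa_span hl ?_ h1)
      rintro _ ⟨t', ht', hm', rfl⟩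
      rw [← (hv B A).1 i t' (by omega)]
      have h5 := hc.2.1 i t' (by omega)
      exact Submodule.subset_span ⟨_, by omega, by omega, rfl⟩
    · have hm : mm s = s.length := by
        rw [hab, hc.2.2.1, List.length_append, List.length_replicate, List.length_replicate]
      have h1 := twa_ext A hr hc ha c s hm (s.length - 1) 0 (fun j hj => by omega)
      have h2 := (twa_extit A (twa_sw A hr c _ 0) _ h1 s.length).2
      have e1 : c * ((s.length - 1 : ℕ) : ℤ) * (s.length : ℤ) =
          c * ((mm s : ℤ) ^ 2 + 2 * mm s - 3 * s.length) := by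
        rw [hm]
        rcases Nat.eq_zero_or_pos s.length with h0 | h0
        · rw [h0]
          simp
        · rw [Nat.cast_sub h0]
          push_cast
          ring
      rw [e1] at h2
      exact h2

end

theorem thm_Twa (hr : St_Rel) (hf : St_Ftc) (hv : St_Val) (hc : St_Cmb) (ha : St_Act) :
    St_Twa := by
  intro B _ A c hcc
  refine ⟨fun N m i f hi h => twa_low A hr hc ha c N m i f hi h,
    fun N m f h => twa_lowFT A hr hc ha c N m f h,
    fun s => twa_main A hr hf hv hc ha c hcc s.length s le_rfl⟩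

end Pool.Agent.TWB
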