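import Pool.Agent.TWB.St

/-!
# TWB: the basis vectors (module Val)
-/

set_option autoImplicit false

namespace Pool.Agent.TWB

open LaurentPolynomial Pool.Agent.Helper1.PK Pool.Agent.Per

section

variable {B : Type} [CommRing B] (A : Bˣ)

theorem val_push (st s : List ℤˣ) (y : ℤˣ) (e : List ℤˣ) :
    val A st (1 :: s) (y :: e) = val A (y :: st) s e := by
  cases st with
  | nil => simp [val]
  | cons h st => simp [val]

theorem val_pop (h : ℤˣ) (st s : List ℤˣ) (y : ℤˣ) (e : List ℤˣ) :
    val A (h :: st) (-1 :: s) (y :: e) = cup2 A h y * val A st s e := by
  simp [val]

theorem val_pop0 (s : List ℤˣ) (y : ℤˣ) (e : List ℤˣ) :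
    val A [] (-1 :: s) (y :: e) = if y = -1 then val A [] s e else 0 := by
  simp [val]

theorem val_nil_right (st : List ℤˣ) (x : ℤˣ) (s : List ℤˣ) : val A st (x :: s) [] = 0 := by
  cases st with
  | nil => simp [val]
  | cons h st => simp [val]

theorem val_nil_left (st : List ℤˣ) (y : ℤˣ) (e : List ℤˣ) : val A st [] (y :: e) = 0 := by
  cases st with
  | nil => simp [val]
  | cons h st => simp [val]

theorem val_nil_nil (st : List ℤˣ) :
    val A st [] [] = if ∀ x ∈ st, x = 1 then 1 else 0 := by
  cases st with
  | nil => simp [val]
  | cons h st => simp [val]

theorem val_cupL_mul (i : ℕ) (c : B) (f : Ten B) (e : List ℤˣ) :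
    cupL A i (fun e' => c * f e') e = c * cupL A i f e := by
  induction i generalizing f e with
  | zero =>
    match e with
    | [] => simp [cupL]
    | [x] => simp [cupL]
    | x :: y :: e => simp only [cupL]; ring
  | succ i ih =>
    match e with
    | [] => simp [cupL]
    | x :: e =>
      simp only [cupL]
      exact ih (fun e' => f (x :: e')) e

theorem val_cupL_zero (i : ℕ) (e : List ℤˣ) : cupL A i (fun _ => (0 : B)) e = 0 := by
  have h := val_cupL_mul A i 0 (fun _ => 0) e
  simpa using h

theorem val_sgn (x : ℤˣ) : x = 1 ∨ x = -1 := Int.units_eq_one_or x

theorem val_ins (i : ℕ) (st t e : List ℤˣ) (h : i ≤ t.length) :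
    val A st (ins i t) e = cupL A i (val A st t) e := by
  induction i generalizing st t e with
  | zero =>
    have h1 : ins 0 t = 1 :: -1 :: t := by simp [ins]
    rw [h1]
    match e with
    | [] => rw [val_nil_right]; simp [cupL]
    | [x] => rw [val_push, val_nil_right]; simp [cupL]
    | x :: y :: e => rw [val_push, val_pop]; simp [cupL]
  | succ i ih =>
    match t with
    | [] => simp at h
    | z :: t =>
      have h1 : ins (i + 1) (z :: t) = z :: ins i t := by simp [ins]
      have h2 : i ≤ t.length := by
        simp only [List.length_cons] at h
        omega
      rw [h1]
      match e with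
      | [] => rw [val_nil_right]; simp [cupL]
      | y :: e =>
        simp only [cupL]
        rcases val_sgn z with rfl | rfl
        · rw [val_push, ih _ _ _ h2]
          congr 1
          funext e'
          rw [val_push]
        · match st with
          | [] =>
            rw [val_pop0]
            have h3 : (fun e' => val A [] (-1 :: t) (y :: e')) =
                fun e' => if y = -1 then val A [] t e' else 0 := by
              funext e'
              rw [val_pop0]
            rw [h3]
            split_ifs with hy
            · exact ih _ _ _ h2
            · exact (val_cupL_zero A i e).symm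
          | h :: st =>
            rw [val_pop]
            have h3 : (fun e' => val A (h :: st) (-1 :: t) (y :: e')) =
                fun e' => cup2 A h y * val A st t e' := by
              funext e'
              rw [val_pop]
            rw [h3, val_cupL_mul, ih _ _ _ h2]

theorem val_len (st s e : List ℤˣ) (h : val A st s e ≠ 0) : e.length = s.length := by
  induction s generalizing st e with
  | nil =>
    match e with
    | [] => rfl
    | y :: e => exact absurd (val_nil_left A st y e) h
  | cons x s ih =>
    match e with
    | [] => exact absurd (val_nil_right A st x s) h
    | y :: e =>
      simp only [List.length_cons, Nat.add_right_cancel_iff]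
      rcases val_sgn x with rfl | rfl
      · rw [val_push] at h
        exact ih _ _ h
      · match st with
        | [] =>
          rw [val_pop0] at h
          split_ifs at h with hy
          · exact ih _ _ h
          · exact absurd rfl h
        | k :: st =>
          rw [val_pop] at h
          exact ih _ _ (right_ne_zero_of_mul h)

theorem val_sm_cons (x : ℤˣ) (s : List ℤˣ) : sm (x :: s) = (x : ℤ) + sm s := by
  simp [sm]

theorem val_sm_all (st : List ℤˣ) (h : ∀ x ∈ st, x = 1) : sm st = st.length := by
  induction st with
  | nil => simp [sm]
  | cons x st ih =>
    rw [val_sm_cons, ih (fun y hy => h y (List.mem_cons_of_mem _ hy)),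
      h x List.mem_cons_self]
    simp only [Units.val_one, List.length_cons]
    push_cast
    ring

theorem val_sm (st s e : List ℤˣ) (h : val A st s e ≠ 0) :
    sm e + sm st = sm s + st.length := by
  induction s generalizing st e with
  | nil =>
    match e with
    | [] =>
      rw [val_nil_nil] at h
      split_ifs at h with h1
      · rw [val_sm_all st h1]
      · exact absurd rfl h
    | y :: e => exact absurd (val_nil_left A st y e) h
  | cons x s ih =>
    match e with
    | [] => exact absurd (val_nil_right A st x s) h
    | y :: e =>
      rw [val_sm_cons, val_sm_cons]
      rcases val_sgn x with rfl | rfl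
      · rw [val_push] at h
        have h1 := ih _ _ h
        rw [val_sm_cons] at h1
        simp only [List.length_cons] at h1
        push_cast at h1
        simp only [Units.val_one]
        linarith
      · match st with
        | [] =>
          rw [val_pop0] at h
          split_ifs at h with hy
          · have h1 := ih _ _ h
            rw [hy]
            linarith
          · exact absurd rfl h
        | k :: st =>
          rw [val_pop] at h
          have h1 := ih _ _ (right_ne_zero_of_mul h)
          have h2 : cup2 A k y ≠ 0 := left_ne_zero_of_mul h
          have h3 : y = -k := by
            by_contra hc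
            apply h2
            unfold cup2
            rw [if_neg hc]
          rw [val_sm_cons, h3]
          simp only [List.length_cons, Units.val_neg, Units.val_one]
          push_cast
          linarith

theorem val_ones (b : ℕ) (st e : List ℤˣ) : val A st (List.replicate b 1) e =
    if e = List.replicate b 1 ∧ ∀ x ∈ st, x = 1 then 1 else 0 := by
  induction b generalizing st e with
  | zero =>
    match e with
    | [] =>
      rw [List.replicate_zero, val_nil_nil]
      simp
    | y :: e =>
      rw [List.replicate_zero, val_nil_left]
      simp
  | succ b ih =>
    match e with
    | [] =>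
      rw [List.replicate_succ, val_nil_right]
      simp
    | y :: e =>
      rw [List.replicate_succ, val_push, ih]
      congr 1
      rw [eq_iff_iff]
      simp only [List.mem_cons, forall_eq_or_imp, List.cons.injEq]
      tauto

theorem val_four (a b : ℕ) (e : List ℤˣ) :
    vL A (List.replicate a (-1) ++ List.replicate b 1) e =
      if e = List.replicate a (-1) ++ List.replicate b 1 then 1 else 0 := by
  unfold vL
  induction a generalizing e with
  | zero =>
    rw [List.replicate_zero, List.nil_append, val_ones]
    simp
  | succ a ih =>
    match e with
    | [] =>
      rw [List.replicate_succ, List.cons_append, val_nil_right]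
      simp
    | y :: e =>
      rw [List.replicate_succ, List.cons_append, val_pop0, ih]
      by_cases hy : y = -1
      · rw [if_pos hy]
        simp [hy]
      · rw [if_neg hy, if_neg]
        simp [hy]

end

theorem thm_Val : St_Val := by
  intro B _ A
  refine ⟨fun i t h => ?_, fun s e he => ?_, fun s e he => ?_, fun a b e => val_four A a b e⟩
  · funext e
    exact val_ins A i [] t e h
  · by_contra h
    exact he (val_len A [] s e h)
  · have h := val_sm A [] s e he
    simpa [sm] using h

end Pool.Agent.TWB
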