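import Pool.Agent.TWB.Rel
import Pool.Agent.TWB.Re2
import Pool.Agent.TWB.Sl
import Pool.Agent.TWB.Sw
import Pool.Agent.TWB.Ftc
import Pool.Agent.TWB.Val
import Pool.Agent.TWB.Cmb
import Pool.Agent.TWB.Act
import Pool.Agent.TWB.Spn
import Pool.Agent.TWB.Br
import Pool.Agent.TWB.Twa
import Pool.Agent.TWB.Mv
import Pool.Agent.TWB.Pw
import Pool.Agent.TWB.Cn
import Pool.Agent.TWB.Rot
import Pool.Agent.TWB.Top
import Pool.Agent.TWB.Ex1
import Pool.Agent.TWB.Ex2
import Pool.Agent.TWB.Mi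
import Pool.Agent.TWB.Cf1
import Pool.Agent.TWB.Cf2
import Pool.Agent.TWB.Cf3
import Pool.Agent.TWB.Cf4
import Pool.Agent.TWB.Uni
import Pool.Agent.TWB.Bn
import Pool.Agent.TWB.Main

/-!
# TWB: assembly
-/

set_option autoImplicit false

namespace Pool.Agent.TWB

theorem rel : St_Rel := thm_Rel
theorem re2 : St_Re2 := thm_Re2
theorem sl : St_Sl := thm_Sl
theorem sww : St_Sw := thm_Sw
theorem ftc : St_Ftc := thm_Ftc
theorem vall : St_Val := thm_Val
theorem cmb : St_Cmb := thm_Cmb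
theorem act : St_Act := thm_Act rel vall cmb
theorem spn : St_Spn := thm_Spn rel vall cmb
theorem br : St_Br := thm_Br
theorem twa : St_Twa := thm_Twa rel ftc vall cmb act
theorem mv : St_Mv := thm_Mv cmb act spn
theorem cn : St_Cn := thm_Cn mv cmb
theorem pw : St_Pw := thm_Pw rel act twa mv cn
theorem rot : St_Rot := thm_Rot cn
theorem topp : St_Top := thm_Top cmb
theorem ex1 : St_Ex1 := thm_Ex1 rel vall cmb rot
theorem ex2 : St_Ex2 := thm_Ex2 rel vall cmb rot
theorem mi : St_Mi := thm_Mi vall spn br ftc twa pw cn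
theorem cf1 : St_Cf1 := thm_Cf1 cmb cn topp
theorem cf2 : St_Cf2 := thm_Cf2 cmb cn topp ex1
theorem cf3 : St_Cf3 := thm_Cf3 cmb cn topp ex2
theorem cf4 : St_Cf4 := thm_Cf4 cmb cn topp ex2
theorem uni : St_Uni := thm_Uni
theorem bn : St_Bn := thm_Bn mi cf1 cf2 cf3 cf4 uni
theorem main : St_Main := thm_Main bn

end Pool.Agent.TWB
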