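import Pool.Agent.Per.Transfer

/-!
# TWB: full twists times alternating braids (definitions)

Tensors are functions of finite sequences of signs (`1` is `+`, `-1` is `-`), all lengths at once.
The Temperley-Lieb generators act on them; `vL s` is the basis of crossingless matchings: in the
sequence `s` every `+` is an opening and every `-` a closing parenthesis, matched pairs are cups,
the others are ends with a fixed sign.
-/

set_option autoImplicit false

namespace Pool.Agent.TWB

open LaurentPolynomial Pool.Agent.Helper1.PK Pool.Agent.Per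

/-! ### tensors -/

section Model

variable {B : Type} [CommRing B] (A : Bˣ)

/-- tensors of all degrees -/
abbrev Ten (B : Type) : Type := List ℤˣ → B

/-- the tensor `f` has degree `m` -/
def Hom (m : ℕ) (f : Ten B) : Prop := ∀ e : List ℤˣ, e.length ≠ m → f e = 0

/-- the cup: `-A²` at `(+, -)`, `1` at `(-, +)` -/
def cup2 (x y : ℤˣ) : B :=
  if y = -x then (if x = 1 then -((A ^ (2 : ℤ) : Bˣ) : B) else 1) else 0

/-- the cap: `1` at `(+, -)`, `-A⁻²` at `(-, +)` -/
def cap1 (t : ℤˣ) : B := if t = 1 then 1 else -((A ^ (-2 : ℤ) : Bˣ) : B)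

/-- insert a cup at the place `i` -/
def cupL : ℕ → Ten B → Ten B
  | 0, f, x :: y :: e => cup2 A x y * f e
  | i + 1, f, x :: e => cupL i (fun e' => f (x :: e')) e
  | _, _, _ => 0

/-- the Temperley-Lieb generator at the place `i` -/
def eL : ℕ → Ten B → Ten B
  | 0, f, x :: y :: e => cup2 A x y * ∑ t : ℤˣ, cap1 A t * f (t :: -t :: e)
  | i + 1, f, x :: e => eL i (fun e' => f (x :: e')) e
  | _, _, _ => 0

/-- the crossing of sign `c` at the place `i` -/
def XL (c : ℤ) (i : ℕ) (f : Ten B) : Ten B :=
  ((A ^ c : Bˣ) : B) • f + ((A ^ (-c) : Bˣ) : B) • eL A i f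

/-- the crossings of sign `c` at the places `a, a + 1, …, a + l - 1` (the last one acts first) -/
def sw (c : ℤ) : ℕ → ℕ → Ten B → Ten B
  | _, 0, f => f
  | a, l + 1, f => XL A c a (sw c (a + 1) l f)

/-- the full twist of sign `c` on `n` strands -/
def FT (c : ℤ) (n : ℕ) (f : Ten B) : Ten B := (sw A c 0 (n - 1))^[n] f

/-- the value at `e` of the basis vector of `s`, with the stack `st` of the signs at the open
parentheses -/
def val : List ℤˣ → List ℤˣ → List ℤˣ → B
  | st, [], [] => if ∀ x ∈ st, x = 1 then 1 else 0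
  | [], x :: s, y :: e =>
      if x = 1 then val [y] s e else if y = -1 then val [] s e else 0
  | h :: st, x :: s, y :: e =>
      if x = 1 then val (y :: h :: st) s e else cup2 A h y * val st s e
  | _, _, _ => 0

/-- the basis vector of the sequence `s` -/
def vL (s : List ℤˣ) : Ten B := val A [] s

end Model

/-! ### combinatorics of sequences of signs -/

/-- insert `+ -` at the place `i` -/
def ins (i : ℕ) (s : List ℤˣ) : List ℤˣ := s.take i ++ (1 : ℤˣ) :: (-1 : ℤˣ) :: s.drop i

/-- the entries at `i` and `i + 1` are `+` and `-` -/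
def Jn (i : ℕ) (s : List ℤˣ) : Prop := ∃ t : List ℤˣ, i ≤ t.length ∧ s = ins i t

/-- the number of unmatched parentheses, if `h` parentheses are open already -/
def unm : ℕ → List ℤˣ → ℕ
  | h, [] => h
  | 0, x :: s => if x = 1 then unm 1 s else unm 0 s + 1
  | h + 1, x :: s => if x = 1 then unm (h + 2) s else unm h s

/-- the number of unmatched parentheses -/
def mm (s : List ℤˣ) : ℕ := unm 0 s

/-- the number of `+` at the places of the parity `b` (`true`: `0, 2, 4, …`) -/
def po : Bool → List ℤˣ → ℤ
  | _, [] => 0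
  | b, x :: s => (if b = true ∧ x = 1 then 1 else 0) + po (!b) s

/-- the sum of the signs -/
def sm (s : List ℤˣ) : ℤ := (s.map fun x : ℤˣ => (x : ℤ)).sum

/-- `1` for an even place, `-1` for an odd one -/
def pr (i : ℕ) : ℤ := if i % 2 = 0 then 1 else -1

/-- the ring of Laurent polynomials in `A` -/
abbrev RR : Type := ℤ[T;T⁻¹]

/-- the variable -/
noncomputable abbrev AA : RRˣ := unitA (RingHom.id RR)

/-- the list of a spin state -/
def lst {n : ℕ} (σ : Spin n) : List ℤˣ := List.ofFn σ

/-- The generator at the place `a` maps the basis vector of `ρ` to the one of `τ`, which has as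
many unmatched ends. -/
def Mv {n : ℕ} (a : Fin n) (ρ τ : Spin n) : Prop :=
  ¬ Jn a (lst ρ) ∧ eL AA (a : ℕ) (vL AA (lst ρ)) = vL AA (lst τ) ∧ mm (lst τ) = mm (lst ρ)

open Classical in
/-- The number of closed or open paths: `cnt L τ σ a` is the number of ways to go from `σ` to `τ`
reading the list of places `L` from its end, where at each letter `i` one may stay or make the
move `Mv i`; `a` is the number of stays at joined even places minus the number of stays at joined
odd places. -/
noncomputable def cnt {n : ℕ} : List (Fin n) → Spin n → Spin n → ℤ → ℕ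
  | [], τ, σ, a => if τ = σ ∧ a = 0 then 1 else 0
  | i :: L, τ, σ, a => cnt L τ σ (a - if Jn i (lst τ) then pr i else 0) +
      ∑ ρ ∈ Finset.univ.filter (fun ρ => Mv i ρ τ), cnt L ρ σ a

/-- the number of even places of a list -/
def ev {n : ℕ} (L : List (Fin n)) : ℕ := L.countP fun i : Fin n => (i : ℕ) % 2 = 0

/-- the number of odd places of a list -/
def od {n : ℕ} (L : List (Fin n)) : ℕ := L.countP fun i : Fin n => (i : ℕ) % 2 = 1

/-- the matrix of the basis: the coordinates of the basis vectors `vL (lst σ)` -/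
def Vm {B : Type} [CommRing B] (A : Bˣ) (n : ℕ) : Matrix (Spin n) (Spin n) B :=
  fun ε σ => vL A (lst σ) (lst ε)

/-- the span of the basis vectors of length `N` with fewer than `m` unmatched ends -/
def Low {B : Type} [CommRing B] (A : Bˣ) (N m : ℕ) : Submodule B (Ten B) :=
  Submodule.span B {f | ∃ t : List ℤˣ, t.length = N ∧ mm t < m ∧ f = vL A t}

/-- all even places are joined -/
def AllE {n : ℕ} (σ : Spin n) : Prop := ∀ i : Fin n, (i : ℕ) % 2 = 0 → Jn i (lst σ)

/-- all odd places are joined -/
def AllO {n : ℕ} (σ : Spin n) : Prop := ∀ i : Fin n, (i : ℕ) % 2 = 1 → Jn i (lst σ)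

/-! ### words -/

/-- the operator of a list of letters (the last letter acts first) -/
noncomputable def WL {n : ℕ} : List (Letter n) → Ten RR → Ten RR
  | [], f => f
  | l :: L, f => XL AA l.kind.sgn (l.place : ℕ) (WL L f)

/-- the sign of a letter is `e` at the even places and `-e` at the odd ones -/
def AltE {n : ℕ} (e : ℤ) (L : List (Letter n)) : Prop :=
  ∀ l ∈ L, l.kind ≠ .turn ∧ l.kind.sgn = e * pr l.place

/-- The word of a full twist: `n + 1` times the generators at the places `0, 1, …, n - 1`, all of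
the kind `κ`. -/
def fullTwist (n : ℕ) (κ : Helper1.PK.Kind) : List (Letter n) :=
  (List.replicate (n + 1) (List.ofFn fun a : Fin n => (⟨a, κ⟩ : Letter n))).flatten

/-- the contribution of the state `σ` and of the statistic `a` to the coefficient of `T ^ D` -/
noncomputable def term {n : ℕ} (L : List (Fin n)) (e c : ℤ) (k : ℕ) (D : ℤ) (σ : Spin n)
    (a : ℤ) : ℤ :=
  if 2 * e * sm (lst σ) + c * k * ((mm (lst σ) : ℤ) ^ 2 + 2 * mm (lst σ)) - 4 * a = D then
    (((-1 : ℤˣ) ^ (sm (lst σ) + a) : ℤˣ) : ℤ) * (cnt L σ σ a : ℤ) else 0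

/-- the coefficient of `T ^ D` of `∑ (-1) ^ (λ + a) cnt(a) T ^ (2 e λ + c k (m² + 2 m) - 4 a)` -/
noncomputable def cf {n : ℕ} (L : List (Fin n)) (e c : ℤ) (k : ℕ) (D : ℤ) : ℤ :=
  ∑ σ : Spin n, ∑ a ∈ Finset.Icc (-(od L : ℤ)) (ev L), term L e c k D σ a

end Pool.Agent.TWB
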