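import Pool.Agent.TWB.St2
import Pool.Agent.Per.Count

/-!
# TWB, module MI: the trace formula
-/

set_option autoImplicit false

namespace Pool.Agent.TWB

open LaurentPolynomial Pool.Agent.Helper1.PK Pool.Agent.Per

/-! ### the trace -/

private theorem mi_AA (k : ℤ) : ((AA ^ k : RRˣ) : RR) = T k := by
  rw [unitA_zpow]
  rfl

/-- the twist -/
private noncomputable def mi_z : RRˣ := -1 * AA ^ (2 : ℤ)

private theorem mi_zadd : ((mi_z : RRˣ) : RR) + ((mi_z⁻¹ : RRˣ) : RR) = -T 2 - T (-2) := by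
  have h : mi_z⁻¹ = -1 * AA ^ (-2 : ℤ) := by
    refine inv_eq_of_mul_eq_one_right ?_
    unfold mi_z
    rw [mul_mul_mul_comm, ← zpow_add]
    simp
  rw [h]
  unfold mi_z
  rw [Units.val_mul, Units.val_mul, mi_AA, mi_AA]
  simp
  abel

private theorem mi_zpow (m : ℤ) : ((mi_z ^ m : RRˣ) : RR) =
    C ((((-1 : ℤˣ) ^ m : ℤˣ) : ℤ)) * T (2 * m) := by
  unfold mi_z
  rw [mul_zpow, ← zpow_mul, Units.val_mul, mi_AA]
  congr 1
  rcases Int.even_or_odd m with h | h
  · rw [h.neg_one_zpow, h.neg_one_zpow]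
    simp
  · rw [h.neg_one_zpow, h.neg_one_zpow]
    simp

private theorem mi_trace (N n : ℕ) [NeZero N] (w : ZMod N → Letter n) :
    (-T 2 - T (-2)) * bracket w = Matrix.trace (twist mi_z n * wordM (RingHom.id RR) w) := by
  rw [← transfer stateThm cyc (RingHom.id RR) mi_z w, mi_zadd, ← annular_eval]
  rfl

private theorem mi_wordM (N n : ℕ) [NeZero N] (w : ZMod N → Letter n) :
    wordM (RingHom.id RR) w =
      (((List.range N).map (fun i : ℕ => w (i : ZMod N))).map (letterM (RingHom.id RR))).prod := by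
  rw [List.map_map]
  rfl

/-! ### words -/

private theorem mi_WL_append {n : ℕ} (L₁ L₂ : List (Letter n)) (f : Ten RR) :
    WL (L₁ ++ L₂) f = WL L₁ (WL L₂ f) := by
  induction L₁ with
  | nil => rfl
  | cons l L ih =>
    show XL AA _ _ (WL (L ++ L₂) f) = XL AA _ _ (WL L (WL L₂ f))
    rw [ih]

private theorem mi_mv (h3 : St_Br) {n : ℕ} (L : List (Letter n)) (hL : ∀ l ∈ L, l.kind ≠ .turn)
    (f : Ten RR) : ((L.map (letterM (RingHom.id RR))).prod).mulVec (fun ε => f (lst ε)) =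
      fun ε => WL L f (lst ε) := by
  induction L with
  | nil =>
    rw [List.map_nil, List.prod_nil, Matrix.one_mulVec]
    rfl
  | cons l L ih =>
    rw [List.map_cons, List.prod_cons, ← Matrix.mulVec_mulVec,
      ih (fun l' hl' => hL l' (List.mem_cons_of_mem _ hl')),
      h3.2 n l (WL L f) (hL l List.mem_cons_self)]
    rfl

private theorem mi_sweep {n : ℕ} (κ : Helper1.PK.Kind) (l : ℕ) : ∀ (j : ℕ) (h : j + l ≤ n)
    (f : Ten RR), WL (List.ofFn fun a : Fin l =>
      (⟨⟨j + a, by have := a.2; omega⟩, κ⟩ : Letter n)) f = sw AA κ.sgn j l f := by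
  induction l with
  | zero =>
    intro j h f
    rw [List.ofFn_zero]
    rfl
  | succ l ih =>
    intro j h f
    rw [List.ofFn_succ]
    have h1 : (List.ofFn fun i : Fin l => (⟨⟨j + (i.succ : Fin (l + 1)), by
        have := i.2; simp; omega⟩, κ⟩ : Letter n)) =
        List.ofFn fun a : Fin l => (⟨⟨(j + 1) + a, by have := a.2; omega⟩, κ⟩ : Letter n) := by
      congr 1
      funext a
      congr 2
      rw [Fin.val_succ]
      omega
    rw [h1]
    show XL AA κ.sgn (j + 0) (WL _ f) = XL AA κ.sgn j (sw AA κ.sgn (j + 1) l f)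
    rw [ih (j + 1) (by omega) f, add_zero]

private theorem mi_rep {n : ℕ} (S : List (Letter n)) (m : ℕ) (f : Ten RR) :
    WL (List.replicate m S).flatten f = (WL S)^[m] f := by
  induction m with
  | zero => rfl
  | succ m ih =>
    rw [List.replicate_succ, List.flatten_cons, mi_WL_append, ih, Function.iterate_succ_apply']

private theorem mi_ft {n : ℕ} (κ : Helper1.PK.Kind) :
    (WL (fullTwist n κ) : Ten RR → Ten RR) = FT AA κ.sgn (n + 1) := by
  funext f
  unfold fullTwist FT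
  rw [mi_rep]
  have : (WL (List.ofFn fun a : Fin n => (⟨a, κ⟩ : Letter n)) : Ten RR → Ten RR) =
      sw AA κ.sgn 0 (n + 1 - 1) := by
    funext g
    have hl : (List.ofFn fun a : Fin n => (⟨a, κ⟩ : Letter n)) =
        List.ofFn fun a : Fin n => (⟨⟨0 + a, by have := a.2; omega⟩, κ⟩ : Letter n) := by
      congr 1
      funext a
      congr 1
      exact Fin.ext (Nat.zero_add _).symm
    rw [Nat.add_sub_cancel, ← mi_sweep (n := n) κ n 0 (by omega) g, hl]
  rw [this]

/-! ### coefficients -/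

/-- the coefficient of the basis vector of `σ` -/
private noncomputable def mi_co {n : ℕ} (D : Matrix (Spin n) (Spin n) RR) (σ : Spin n) :
    Ten RR →ₗ[RR] RR where
  toFun f := ∑ ε : Spin n, D σ ε * f (lst ε)
  map_add' f g := by
    rw [← Finset.sum_add_distrib]
    refine Finset.sum_congr rfl fun ε _ => ?_
    show D σ ε * (f (lst ε) + g (lst ε)) = _
    ring
  map_smul' b f := by
    rw [RingHom.id_apply, smul_eq_mul, Finset.mul_sum]
    refine Finset.sum_congr rfl fun ε _ => ?_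
    show D σ ε * (b * f (lst ε)) = _
    ring

private theorem mi_co_vL {n : ℕ} {D : Matrix (Spin n) (Spin n) RR} (hD : D * Vm AA n = 1)
    (σ τ : Spin n) : mi_co D σ (vL AA (lst τ)) = if σ = τ then 1 else 0 := by
  have := congrFun (congrFun hD σ) τ
  rw [Matrix.mul_apply, Matrix.one_apply] at this
  exact this

private theorem mi_lst {n : ℕ} (t : List ℤˣ) (ht : t.length = n + 1) :
    ∃ τ : Spin n, lst τ = t := by
  refine ⟨fun i => t.get (Fin.cast ht.symm i), ?_⟩
  unfold lst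
  refine List.ext_getElem ?_ ?_
  · rw [List.length_ofFn, ht]
  · intro i h1 h2
    rw [List.getElem_ofFn]
    rfl

private theorem mi_co_low {n : ℕ} {D : Matrix (Spin n) (Spin n) RR} (hD : D * Vm AA n = 1)
    (σ : Spin n) (m : ℕ) (hm : m ≤ mm (lst σ)) (f : Ten RR) (hf : f ∈ Low AA (n + 1) m) :
    mi_co D σ f = 0 := by
  have h : Low AA (n + 1) m ≤ LinearMap.ker (mi_co D σ) := by
    unfold Low
    rw [Submodule.span_le]
    rintro _ ⟨t, ht, hmt, rfl⟩
    obtain ⟨τ, rfl⟩ := mi_lst t ht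
    rw [SetLike.mem_coe, LinearMap.mem_ker, mi_co_vL hD, if_neg]
    rintro rfl
    omega
  exact LinearMap.mem_ker.1 (h hf)

private theorem mi_spin {n : ℕ} (ε : Spin n) : spin ε = sm (lst ε) := by
  unfold spin sm lst
  rw [List.map_ofFn, List.sum_ofFn]
  rfl

private theorem mi_diag (h1 : St_Val) {n : ℕ} {D : Matrix (Spin n) (Spin n) RR}
    (hD : Vm AA n * D = 1) (hD' : D * Vm AA n = 1) :
    D * twist mi_z n = Matrix.diagonal (fun σ : Spin n => ((mi_z ^ sm (lst σ) : RRˣ) : RR)) * D := by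
  have h2 : twist mi_z n * Vm AA n =
      Vm AA n * Matrix.diagonal (fun σ : Spin n => ((mi_z ^ sm (lst σ) : RRˣ) : RR)) := by
    refine Matrix.ext fun ε σ => ?_
    unfold twist
    rw [Matrix.diagonal_mul, Matrix.mul_diagonal]
    show _ * vL AA (lst σ) (lst ε) = vL AA (lst σ) (lst ε) * _
    by_cases h : vL AA (lst σ) (lst ε) = 0
    · rw [h, mul_zero, zero_mul]
    · rw [mi_spin, (h1 RR AA).2.2.1 _ _ h, mul_comm]
  calc D * twist mi_z n = D * (twist mi_z n * Vm AA n) * D := by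
        rw [Matrix.mul_assoc, Matrix.mul_assoc, hD, Matrix.mul_one]
    _ = Matrix.diagonal (fun σ : Spin n => ((mi_z ^ sm (lst σ) : RRˣ) : RR)) * D := by
        rw [h2, ← Matrix.mul_assoc, hD', Matrix.one_mul]

private theorem mi_tr2 (h1 : St_Val) (h3 : St_Br) {n : ℕ} {D : Matrix (Spin n) (Spin n) RR}
    (hD : Vm AA n * D = 1) (hD' : D * Vm AA n = 1) (L : List (Letter n))
    (hL : ∀ l ∈ L, l.kind ≠ .turn) :
    Matrix.trace (twist mi_z n * (L.map (letterM (RingHom.id RR))).prod) =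
      ∑ σ : Spin n, ((mi_z ^ sm (lst σ) : RRˣ) : RR) * mi_co D σ (WL L (vL AA (lst σ))) := by
  obtain ⟨W, hW⟩ : ∃ W, W = (L.map (letterM (RingHom.id RR))).prod := ⟨_, rfl⟩
  rw [← hW]
  have e1 : Matrix.trace (twist mi_z n * W) =
      Matrix.trace (D * (twist mi_z n * (W * Vm AA n))) := by
    rw [Matrix.trace_mul_comm D, Matrix.mul_assoc, Matrix.mul_assoc, hD, Matrix.mul_one]
  rw [e1, ← Matrix.mul_assoc, mi_diag h1 hD hD', Matrix.mul_assoc]
  unfold Matrix.trace
  refine Finset.sum_congr rfl fun σ _ => ?_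
  rw [Matrix.diag_apply, Matrix.diagonal_mul, Matrix.mul_apply]
  congr 1
  show _ = ∑ ε : Spin n, D σ ε * WL L (vL AA (lst σ)) (lst ε)
  refine Finset.sum_congr rfl fun ε _ => ?_
  congr 1
  have := congrFun (mi_mv h3 L hL (vL AA (lst σ))) ε
  rw [← this, ← hW]
  rfl

/-! ### full twists -/

private noncomputable def mi_F (h4 : St_Ftc) (c : ℤ) (hc : c = 1 ∨ c = -1) (N : ℕ) :
    Ten RR →ₗ[RR] Ten RR where
  toFun := FT AA c N
  map_add' f g := by
    have h := (h4 RR AA c hc).2.1 N 1 f g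
    rwa [one_smul, one_smul] at h
  map_smul' b f := by
    have h0 : FT AA c N 0 = 0 := by
      have h := (h4 RR AA c hc).2.1 N 1 0 0
      rw [one_smul, one_smul, add_zero] at h
      exact left_eq_add.1 h
    have h := (h4 RR AA c hc).2.1 N b f 0
    rw [add_zero, h0, add_zero] at h
    exact h

private theorem mi_FS (h4 : St_Ftc) (h5 : St_Twa) (c : ℤ) (hc : c = 1 ∨ c = -1) {n : ℕ} (m : ℕ)
    (p : Spin n → RR) (hp : ∀ τ, p τ ≠ 0 → mm (lst τ) = m) :
    mi_F h4 c hc (n + 1) (∑ τ : Spin n, p τ • vL AA (lst τ)) -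
      (T (c * ((m : ℤ) ^ 2 + 2 * m - 3 * (n + 1))) : RR) •
        ∑ τ : Spin n, p τ • vL AA (lst τ) ∈ Low AA (n + 1) m := by
  rw [map_sum, Finset.smul_sum, ← Finset.sum_sub_distrib]
  refine Submodule.sum_mem _ fun τ _ => ?_
  rw [map_smul, smul_comm (T _) (p τ), ← smul_sub]
  by_cases h : p τ = 0
  · rw [h, zero_smul]
    exact Submodule.zero_mem _
  · refine Submodule.smul_mem _ _ ?_
    have h6 := (h5 RR AA c hc).2.2 (lst τ)
    have hlen : (lst τ).length = n + 1 := List.length_ofFn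
    rw [hlen, hp τ h, mi_AA] at h6
    push_cast at h6
    exact h6

private theorem mi_Fk (h4 : St_Ftc) (h5 : St_Twa) (c : ℤ) (hc : c = 1 ∨ c = -1) {n : ℕ} (m : ℕ)
    (p : Spin n → RR) (hp : ∀ τ, p τ ≠ 0 → mm (lst τ) = m) (b : RR) (f : Ten RR)
    (hf : f - b • ∑ τ : Spin n, p τ • vL AA (lst τ) ∈ Low AA (n + 1) m) (k : ℕ) :
    (FT AA c (n + 1))^[k] f - (T (k * (c * ((m : ℤ) ^ 2 + 2 * m - 3 * (n + 1)))) * b : RR) •
        ∑ τ : Spin n, p τ • vL AA (lst τ) ∈ Low AA (n + 1) m := by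
  induction k with
  | zero =>
    rw [Nat.cast_zero, zero_mul, T_zero, one_mul]
    exact hf
  | succ k ih =>
    rw [Function.iterate_succ_apply']
    obtain ⟨S, hS⟩ : ∃ S : Ten RR, S = ∑ τ : Spin n, p τ • vL AA (lst τ) := ⟨_, rfl⟩
    obtain ⟨x, hx⟩ : ∃ x : ℤ, x = c * ((m : ℤ) ^ 2 + 2 * m - 3 * (n + 1)) := ⟨_, rfl⟩
    have h1 := mi_FS h4 h5 c hc m p hp
    rw [← hS, ← hx] at ih h1 ⊢
    have h2 := (h5 RR AA c hc).2.1 (n + 1) m _ ih
    have h3 : FT AA c (n + 1) ((FT AA c (n + 1))^[k] f - (T (k * x) * b : RR) • S) =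
        FT AA c (n + 1) ((FT AA c (n + 1))^[k] f) -
          (T (k * x) * b : RR) • mi_F h4 c hc (n + 1) S := by
      have := map_sub (mi_F h4 c hc (n + 1)) ((FT AA c (n + 1))^[k] f) ((T (k * x) * b : RR) • S)
      rw [map_smul] at this
      exact this
    rw [h3] at h2
    have h4' := Submodule.smul_mem (Low AA (n + 1) m) (T (k * x) * b : RR) h1
    have h5' := Submodule.add_mem _ h2 h4'
    have e1 : FT AA c (n + 1) ((FT AA c (n + 1))^[k] f) -
          (T (k * x) * b : RR) • mi_F h4 c hc (n + 1) S +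
        (T (k * x) * b : RR) • (mi_F h4 c hc (n + 1) S - (T x : RR) • S) =
        FT AA c (n + 1) ((FT AA c (n + 1))^[k] f) - (T ((k + 1 : ℕ) * x) * b : RR) • S := by
      have hT : (T ((k + 1 : ℕ) * x) * b : RR) = T (k * x) * b * T x := by
        rw [show (((k + 1 : ℕ) : ℤ) * x) = k * x + x by push_cast; ring, T_add]
        ring
      rw [smul_sub, smul_smul, ← hT]
      abel
    rw [e1] at h5'
    exact h5'

private theorem mi_len {n : ℕ} (M : List (Fin n)) : ev M ≤ M.length ∧ od M ≤ M.length := by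
  constructor
  · unfold ev
    refine List.countP_le_length.trans ?_
    simp
  · unfold od
    refine List.countP_le_length.trans ?_
    simp

/-- MI -/
theorem thm_Mi (h1 : St_Val) (h2 : St_Spn) (h3 : St_Br) (h4 : St_Ftc) (h5 : St_Twa) (h6 : St_Pw)
    (h7 : St_Cn) : St_Mi := by
  intro N n k _ w κ e L hκ he hL hw
  obtain ⟨D, hD, hD'⟩ := h2 RR AA n
  have hc : κ.sgn = 1 ∨ κ.sgn = -1 := by
    cases κ
    · exact Or.inl rfl
    · exact Or.inr rfl
    · exact absurd rfl hκ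
  have hall : ∀ l ∈ (List.replicate k (fullTwist n κ)).flatten ++ L, l.kind ≠ .turn := by
    intro l hl
    rw [List.mem_append] at hl
    rcases hl with hl | hl
    · rw [List.mem_flatten] at hl
      obtain ⟨S, hS, hl⟩ := hl
      rw [List.eq_of_mem_replicate hS] at hl
      unfold fullTwist at hl
      rw [List.mem_flatten] at hl
      obtain ⟨S', hS', hl⟩ := hl
      rw [List.eq_of_mem_replicate hS', List.mem_ofFn] at hl
      obtain ⟨a, rfl⟩ := hl
      exact hκ
    · exact (hL l hl).1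
  rw [mi_trace, mi_wordM, hw, mi_tr2 h1 h3 hD hD' _ hall]
  refine Finset.sum_congr rfl fun σ _ => ?_
  -- the coefficient
  obtain ⟨P, hP⟩ : ∃ P : Spin n → RR, P = fun τ => ∑ a ∈ Finset.Icc (-(L.length : ℤ)) L.length,
      (C ((((-1 : ℤˣ) ^ a : ℤˣ) : ℤ) * (cnt (L.map Letter.place) τ σ a : ℤ)) *
        T (-4 * e * a - 2 * e * (po true (lst τ) - po true (lst σ))) : RR) := ⟨_, rfl⟩
  obtain ⟨m, hm⟩ : ∃ m : ℕ, m = mm (lst σ) := ⟨_, rfl⟩
  have hp : ∀ τ, P τ ≠ 0 → mm (lst τ) = m := by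
    intro τ hτ
    by_contra hne
    apply hτ
    rw [hP]
    refine Finset.sum_eq_zero fun a _ => ?_
    have h0 : cnt (L.map Letter.place) τ σ a = 0 := by
      by_contra h0
      exact hne (((h7 n _).1 τ σ a h0).1.trans hm.symm)
    rw [h0]
    simp
  have hW := h6 n e L σ he hL
  rw [← hm] at hW
  have hW' : WL L (vL AA (lst σ)) - (T (L.map fun l => l.kind.sgn).sum : RR) •
      ∑ τ : Spin n, P τ • vL AA (lst τ) ∈ Low AA (n + 1) m := by
    rw [hP]
    exact hW
  have hF := mi_Fk h4 h5 κ.sgn hc m P hp _ _ hW' k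
  have hWk : WL ((List.replicate k (fullTwist n κ)).flatten ++ L) (vL AA (lst σ)) =
      (FT AA κ.sgn (n + 1))^[k] (WL L (vL AA (lst σ))) := by
    rw [mi_WL_append, mi_rep, mi_ft]
  rw [← hWk] at hF
  have h0 := mi_co_low hD' σ m hm.le _ hF
  rw [map_sub, map_smul, map_sum] at h0
  have hS : ∑ τ : Spin n, mi_co D σ (P τ • vL AA (lst τ)) = P σ := by
    rw [Finset.sum_eq_single σ]
    · rw [map_smul, mi_co_vL hD', if_pos rfl, smul_eq_mul, mul_one]
    · intro τ _ hτ
      rw [map_smul, mi_co_vL hD', if_neg (Ne.symm hτ), smul_zero]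
    · intro h
      exact absurd (Finset.mem_univ _) h
  rw [hS, sub_eq_zero] at h0
  rw [h0, mi_zpow, smul_eq_mul]
  -- the interval
  have hlen : (ev (L.map Letter.place) : ℤ) ≤ L.length ∧
      (od (L.map Letter.place) : ℤ) ≤ L.length := by
    have a := mi_len (L.map Letter.place)
    rw [List.length_map] at a
    exact ⟨by exact_mod_cast a.1, by exact_mod_cast a.2⟩
  have hPσ : P σ = ∑ a ∈ Finset.Icc (-(od (L.map Letter.place) : ℤ)) (ev (L.map Letter.place)),
      (C ((((-1 : ℤˣ) ^ a : ℤˣ) : ℤ) * (cnt (L.map Letter.place) σ σ a : ℤ)) *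
        T (-4 * e * a) : RR) := by
    rw [hP]
    have : ∀ a : ℤ, (C ((((-1 : ℤˣ) ^ a : ℤˣ) : ℤ) * (cnt (L.map Letter.place) σ σ a : ℤ)) *
        T (-4 * e * a - 2 * e * (po true (lst σ) - po true (lst σ))) : RR) =
        C ((((-1 : ℤˣ) ^ a : ℤˣ) : ℤ) * (cnt (L.map Letter.place) σ σ a : ℤ)) *
        T (-4 * e * a) := by
      intro a
      rw [sub_self, mul_zero, sub_zero]
    simp only [this]
    symm
    refine Finset.sum_subset ?_ ?_
    · intro a ha
      rw [Finset.mem_Icc] at ha ⊢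
      constructor <;> linarith [hlen.1, hlen.2, ha.1, ha.2]
    · intro a _ ha
      have h0 : cnt (L.map Letter.place) σ σ a = 0 := by
        by_contra h0
        obtain ⟨-, -, b1, b2⟩ := (h7 n _).1 σ σ a h0
        exact ha (Finset.mem_Icc.2 ⟨b1, b2⟩)
      rw [h0]
      simp
  rw [hPσ, Finset.mul_sum, Finset.mul_sum]
  refine Finset.sum_congr rfl fun a _ => ?_
  rw [hm]
  have hT : (T ((L.map fun l => l.kind.sgn).sum + 2 * sm (lst σ) +
      κ.sgn * k * ((mm (lst σ) : ℤ) ^ 2 + 2 * mm (lst σ) - 3 * (n + 1)) - 4 * e * a) : RR) =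
      T (2 * sm (lst σ)) * (T (k * (κ.sgn * ((mm (lst σ) : ℤ) ^ 2 + 2 * mm (lst σ) -
        3 * (n + 1)))) * (T (L.map fun l => l.kind.sgn).sum * T (-4 * e * a))) := by
    rw [← T_add, ← T_add, ← T_add]
    congr 1
    ring
  have hC : (C ((((-1 : ℤˣ) ^ (sm (lst σ) + a) : ℤˣ) : ℤ) *
      (cnt (L.map Letter.place) σ σ a : ℤ)) : RR) =
      C ((((-1 : ℤˣ) ^ sm (lst σ) : ℤˣ) : ℤ)) *
        C ((((-1 : ℤˣ) ^ a : ℤˣ) : ℤ) * (cnt (L.map Letter.place) σ σ a : ℤ)) := by
    rw [← map_mul, zpow_add, Units.val_mul, mul_assoc]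
  rw [hT, hC]
  ring

end Pool.Agent.TWB
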