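import Pool.Agent.TWB.St

/-!
# TWB, REL: degrees, linearity, Temperley-Lieb relations for cups
-/

set_option autoImplicit false

namespace Pool.Agent.TWB

open LaurentPolynomial Pool.Agent.Helper1.PK Pool.Agent.Per

variable {B : Type} [CommRing B] (A : Bˣ)

theorem rel_sum (g : ℤˣ → B) : ∑ t : ℤˣ, g t = g 1 + g (-1) := by
  rw [UnitsInt.univ, Finset.sum_pair (by decide)]

theorem rel_k1 (x : ℤˣ) : cap1 A (-x) * cup2 A x (-x) = 1 := by
  rcases Int.units_eq_one_or x with rfl | rfl
  · have h : ((A ^ (-2 : ℤ) : Bˣ) : B) * ((A ^ (2 : ℤ) : Bˣ) : B) = 1 := by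
      rw [← Units.val_mul, ← zpow_add]; simp
    have h1 : ¬ ((-1 : ℤˣ) = 1) := by decide
    simp only [cap1, cup2, if_neg h1, if_true, neg_mul_neg]
    exact h
  · have h1 : ¬ ((-1 : ℤˣ) = 1) := by decide
    simp [cap1, cup2, h1]

theorem rel_k2 (w : ℤˣ) : cap1 A w * cup2 A (-w) w = 1 := by
  have h := rel_k1 A (-w)
  rwa [neg_neg] at h

theorem rel_k0 (x : ℤˣ) : cup2 A x x = 0 := by
  rcases Int.units_eq_one_or x with rfl | rfl
  · have h1 : ¬ ((1 : ℤˣ) = -1) := by decide
    simp [cup2, h1]
  · have h1 : ¬ ((-1 : ℤˣ) = - -1) := by decide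
    simp only [cup2, if_neg h1]

theorem rel_k3 : cap1 A 1 * cup2 A 1 (-1) + cap1 A (-1) * cup2 A (-1) (- -1) = loopv A := by
  have h1 : ¬ ((-1 : ℤˣ) = 1) := by decide
  simp only [cap1, cup2, if_neg h1, if_true, loopv]
  ring

/-- sums with one term -/
theorem rel_s1 (x : ℤˣ) (F : ℤˣ → B) : ∑ t : ℤˣ, cap1 A t * (cup2 A x t * F (-t)) = F x := by
  have h := rel_k1 A x
  rcases Int.units_eq_one_or x with rfl | rfl
  · rw [rel_sum, rel_k0, zero_mul, mul_zero, zero_add, ← mul_assoc, h, one_mul, neg_neg]
  · rw [rel_sum, rel_k0, zero_mul, mul_zero, add_zero]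
    rw [neg_neg] at h
    rw [← mul_assoc, h, one_mul]

theorem rel_s2 (w : ℤˣ) (F : ℤˣ → B) : ∑ t : ℤˣ, cap1 A t * (cup2 A (-t) w * F t) = F w := by
  have h := rel_k2 A w
  rcases Int.units_eq_one_or w with rfl | rfl
  · rw [rel_sum, neg_neg, rel_k0, zero_mul, mul_zero, add_zero, ← mul_assoc, h, one_mul]
  · rw [rel_sum, rel_k0, zero_mul, mul_zero, zero_add, ← mul_assoc, h, one_mul]

theorem rel_s3 (b : B) : ∑ t : ℤˣ, cap1 A t * (cup2 A t (-t) * b) = loopv A * b := by
  rw [rel_sum, ← rel_k3]
  ring

/-! ### degrees -/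

theorem rel_cup0 (i : ℕ) : ∀ (f : Ten B) (e : List ℤˣ),
    (∀ e' : List ℤˣ, e'.length + 2 = e.length → f e' = 0) → cupL A i f e = 0 := by
  induction i with
  | zero =>
    intro f e h
    match e with
    | [] => rfl
    | [_] => rfl
    | x :: y :: e =>
      show cup2 A x y * f e = 0
      rw [h e rfl, mul_zero]
  | succ i ih =>
    intro f e h
    match e with
    | [] => rfl
    | x :: e =>
      refine ih (fun e' => f (x :: e')) e fun e' he' => h _ ?_
      simp only [List.length_cons]
      omega

theorem rel_e0 (i : ℕ) : ∀ (f : Ten B) (e : List ℤˣ),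
    (∀ e' : List ℤˣ, e'.length = e.length → f e' = 0) → eL A i f e = 0 := by
  induction i with
  | zero =>
    intro f e h
    match e with
    | [] => rfl
    | [_] => rfl
    | x :: y :: e =>
      show cup2 A x y * ∑ t : ℤˣ, cap1 A t * f (t :: -t :: e) = 0
      rw [Finset.sum_eq_zero, mul_zero]
      intro t _
      rw [h (t :: -t :: e) rfl, mul_zero]
  | succ i ih =>
    intro f e h
    match e with
    | [] => rfl
    | x :: e =>
      refine ih (fun e' => f (x :: e')) e fun e' he' => h _ ?_
      simp only [List.length_cons]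
      omega

theorem rel_hcup {m : ℕ} (i : ℕ) {f : Ten B} (h : Hom m f) : Hom (m + 2) (cupL A i f) :=
  fun e he => rel_cup0 A i f e fun e' he' => h e' (by omega)

theorem rel_he {m : ℕ} (i : ℕ) {f : Ten B} (h : Hom m f) : Hom m (eL A i f) :=
  fun e he => rel_e0 A i f e fun e' he' => h e' (by omega)

/-! ### linearity -/

theorem rel_lc (i : ℕ) : ∀ (b : B) (f g : Ten B),
    cupL A i (b • f + g) = b • cupL A i f + cupL A i g := by
  induction i with
  | zero =>
    intro b f g
    funext e
    match e with
    | [] =>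
      show (0 : B) = b * 0 + 0
      rw [mul_zero, add_zero]
    | [_] =>
      show (0 : B) = b * 0 + 0
      rw [mul_zero, add_zero]
    | x :: y :: e =>
      show cup2 A x y * (b * f e + g e) = b * (cup2 A x y * f e) + cup2 A x y * g e
      ring
  | succ i ih =>
    intro b f g
    funext e
    match e with
    | [] =>
      show (0 : B) = b * 0 + 0
      rw [mul_zero, add_zero]
    | x :: e =>
      exact congrFun (ih b (fun e' => f (x :: e')) (fun e' => g (x :: e'))) e

theorem rel_le (i : ℕ) : ∀ (b : B) (f g : Ten B),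
    eL A i (b • f + g) = b • eL A i f + eL A i g := by
  induction i with
  | zero =>
    intro b f g
    funext e
    match e with
    | [] =>
      show (0 : B) = b * 0 + 0
      rw [mul_zero, add_zero]
    | [_] =>
      show (0 : B) = b * 0 + 0
      rw [mul_zero, add_zero]
    | x :: y :: e =>
      show cup2 A x y * ∑ t : ℤˣ, cap1 A t * (b * f (t :: -t :: e) + g (t :: -t :: e)) =
        b * (cup2 A x y * ∑ t : ℤˣ, cap1 A t * f (t :: -t :: e)) +
          cup2 A x y * ∑ t : ℤˣ, cap1 A t * g (t :: -t :: e)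
      rw [rel_sum, rel_sum, rel_sum]
      ring
  | succ i ih =>
    intro b f g
    funext e
    match e with
    | [] =>
      show (0 : B) = b * 0 + 0
      rw [mul_zero, add_zero]
    | x :: e =>
      exact congrFun (ih b (fun e' => f (x :: e')) (fun e' => g (x :: e'))) e

theorem rel_cz (i : ℕ) : cupL A i (0 : Ten B) = 0 := by
  funext e
  exact rel_cup0 A i 0 e fun _ _ => rfl

theorem rel_ez (i : ℕ) : eL A i (0 : Ten B) = 0 := by
  funext e
  exact rel_e0 A i 0 e fun _ _ => rfl

theorem rel_csm (i : ℕ) (b : B) (f : Ten B) : cupL A i (b • f) = b • cupL A i f := by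
  have h := rel_lc A i b f 0
  rwa [add_zero, rel_cz, add_zero] at h

theorem rel_esm (i : ℕ) (b : B) (f : Ten B) : eL A i (b • f) = b • eL A i f := by
  have h := rel_le A i b f 0
  rwa [add_zero, rel_ez, add_zero] at h

theorem rel_cad (i : ℕ) (f g : Ten B) : cupL A i (f + g) = cupL A i f + cupL A i g := by
  have h := rel_lc A i 1 f g
  rwa [one_smul, one_smul] at h

theorem rel_ead (i : ℕ) (f g : Ten B) : eL A i (f + g) = eL A i f + eL A i g := by
  have h := rel_le A i 1 f g
  rwa [one_smul, one_smul] at h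

/-! ### relations -/

theorem rel_3 (i : ℕ) : ∀ f : Ten B, eL A i (cupL A i f) = loopv A • cupL A i f := by
  induction i with
  | zero =>
    intro f
    funext e
    match e with
    | [] => exact (mul_zero _).symm
    | [_] => exact (mul_zero _).symm
    | x :: y :: e =>
      show cup2 A x y * ∑ t : ℤˣ, cap1 A t * (cup2 A t (-t) * f e) =
        loopv A * (cup2 A x y * f e)
      rw [rel_s3]
      ring
  | succ i ih =>
    intro f
    funext e
    match e with
    | [] => exact (mul_zero _).symm
    | x :: e => exact congrFun (ih (fun e' => f (x :: e'))) e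

theorem rel_4 (i : ℕ) : ∀ f : Ten B, eL A (i + 1) (cupL A i f) = cupL A (i + 1) f := by
  induction i with
  | zero =>
    intro f
    funext e
    match e with
    | [] => rfl
    | [_] => rfl
    | [_, _] => rfl
    | x :: y :: w :: e =>
      show cup2 A y w * ∑ t : ℤˣ, cap1 A t * (cup2 A x t * f (-t :: e)) =
        cup2 A y w * f (x :: e)
      rw [rel_s1 A x fun t => f (t :: e)]
  | succ i ih =>
    intro f
    funext e
    match e with
    | [] => rfl
    | x :: e => exact congrFun (ih (fun e' => f (x :: e'))) e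

theorem rel_5 (i : ℕ) : ∀ (m : ℕ) (f : Ten B), Hom m f → i + 1 ≤ m →
    eL A i (cupL A (i + 1) f) = cupL A i f := by
  induction i with
  | zero =>
    intro m f hf hm
    funext e
    match e with
    | [] => rfl
    | [_] => rfl
    | [x, y] =>
      show cup2 A x y * ∑ t : ℤˣ, cap1 A t * 0 = cup2 A x y * f []
      rw [hf [] (by simp; omega)]
      simp
    | x :: y :: w :: e =>
      show cup2 A x y * ∑ t : ℤˣ, cap1 A t * (cup2 A (-t) w * f (t :: e)) =
        cup2 A x y * f (w :: e)
      rw [rel_s2 A w fun t => f (t :: e)]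
  | succ i ih =>
    intro m f hf hm
    funext e
    match e with
    | [] => rfl
    | x :: e =>
      refine congrFun (ih (m - 1) (fun e' => f (x :: e')) (fun e' he' => hf _ ?_) (by omega)) e
      simp only [List.length_cons]
      omega

theorem rel_6 (i : ℕ) : ∀ (l : ℕ) (f : Ten B),
    eL A (l + 2 + i) (cupL A i f) = cupL A i (eL A (l + i) f) := by
  induction i with
  | zero =>
    intro l f
    funext e
    match e with
    | [] => rfl
    | [_] => rfl
    | x :: y :: e =>
      exact congrFun (rel_esm A l (cup2 A x y) f) e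
  | succ i ih =>
    intro l f
    funext e
    match e with
    | [] => rfl
    | x :: e => exact congrFun (ih l (fun e' => f (x :: e'))) e

theorem rel_7 (i : ℕ) : ∀ (l : ℕ) (f : Ten B),
    eL A i (cupL A (l + 2 + i) f) = cupL A (l + 2 + i) (eL A i f) := by
  induction i with
  | zero =>
    intro l f
    funext e
    match e with
    | [] => rfl
    | [_] => rfl
    | x :: y :: e =>
      show cup2 A x y * ∑ t : ℤˣ, cap1 A t * cupL A l (fun e' => f (t :: -t :: e')) e =
        cupL A l (fun e' => cup2 A x y * ∑ t : ℤˣ, cap1 A t * f (t :: -t :: e')) e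
      have h : (fun e' => cup2 A x y * ∑ t : ℤˣ, cap1 A t * f (t :: -t :: e')) =
          (cup2 A x y * cap1 A 1) • (fun e' => f (1 :: -1 :: e')) +
            ((cup2 A x y * cap1 A (-1)) • fun e' => f (-1 :: - -1 :: e')) := by
        funext e'
        rw [rel_sum]
        show _ = cup2 A x y * cap1 A 1 * f (1 :: -1 :: e') +
          cup2 A x y * cap1 A (-1) * f (-1 :: - -1 :: e')
        ring
      rw [h, rel_lc, rel_csm, rel_sum]
      show _ = cup2 A x y * cap1 A 1 * cupL A l (fun e' => f (1 :: -1 :: e')) e +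
        cup2 A x y * cap1 A (-1) * cupL A l (fun e' => f (-1 :: - -1 :: e')) e
      ring
  | succ i ih =>
    intro l f
    funext e
    match e with
    | [] => rfl
    | x :: e => exact congrFun (ih l (fun e' => f (x :: e'))) e

theorem thm_Rel : St_Rel := by
  intro B _ A
  refine ⟨fun m i f h => ⟨rel_hcup A i h, rel_he A i h⟩,
    fun i b f g => ⟨rel_lc A i b f g, rel_le A i b f g⟩, rel_3 A, rel_4 A,
    fun m i f h hm => rel_5 A i m f h hm, fun i l f => ?_, fun i l f => ?_⟩
  · rw [show i + 2 + l = l + 2 + i by omega, show i + l = l + i by omega]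
    exact rel_6 A i l f
  · rw [show i + 2 + l = l + 2 + i by omega]
    exact rel_7 A i l f

end Pool.Agent.TWB
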