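import Pool.Agent.TWB.Defs

/-!
# TWB: statements

Theorem (`St_Main`): let `n + 1 ≥ 3` strands, `k ≥ 1`, and let `L` be an alternating braid word in
which every generator occurs.  Then the normalized bracket of the closure of `Δ^(± 2 k) L` is not a
unit, in particular `≠ 1`.  Notation in the proofs: `N = n + 1` strands, `e_i = eL A i`,
`cup_i = cupL A i`, `X_i = XL A c i`, `a = A^c`, `d = loopv A = -A² - A⁻²`, lists of signs `s`.
Tensors are functions on lists; the recursions of `cupL`, `eL`, `val` make almost all relations a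
computation for `i = 0` and a trivial step `i → i + 1` (apply the statement to `fun e' => f (x :: e')`).
-/

set_option autoImplicit false

namespace Pool.Agent.TWB

open LaurentPolynomial Pool.Agent.Helper1.PK Pool.Agent.Per

/-! ### relations -/

/-- REL.  Degrees, linearity, Temperley-Lieb relations for cups.

Proof.  Every claim by induction on `i` for all `f` (`cupL (i+1) f (x :: e) = cupL i (f (x :: ·)) e`, the same for `eL`;
`Hom m f → Hom (m-1) (f (x :: ·))`).  (4), `i = 0`: `e_1 (cup_0 f) (x :: y :: w :: e) =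
cup2 y w ∑_t cap1 t cup2 x t f (-t :: e)`, only `t = -x` counts, `cap1 (-x) cup2 x (-x) = 1`
(`x = 1`: `(-A⁻²)(-A²)`, `x = -1`: `1`): `= cup2 y w f (x :: e)`.  (5), `i = 0`: `e_0 (cup_1 f) (x :: y :: w :: e) =
cup2 x y ∑_t cap1 t cup2 (-t) w f (t :: e)`, only `t = w`, `cap1 w cup2 (-w) w = 1`; lists of length `≤ 2` are excluded by
`Hom m f`, `1 ≤ m` (both sides `0`).  (3): `∑_t cap1 t cup2 t (-t) = -A² - A⁻²`.  (6), (7), `i = 0`: `e_(2+l) (cup_0 f) (x :: y :: e) =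
cup2 x y * e_l f e` by linearity. -/
def St_Rel : Prop := ∀ (B : Type) [CommRing B] (A : Bˣ),
  (∀ (m i : ℕ) (f : Ten B), Hom m f → Hom (m + 2) (cupL A i f) ∧ Hom m (eL A i f)) ∧
  (∀ (i : ℕ) (b : B) (f g : Ten B), cupL A i (b • f + g) = b • cupL A i f + cupL A i g ∧
    eL A i (b • f + g) = b • eL A i f + eL A i g) ∧
  (∀ (i : ℕ) (f : Ten B), eL A i (cupL A i f) = loopv A • cupL A i f) ∧
  (∀ (i : ℕ) (f : Ten B), eL A (i + 1) (cupL A i f) = cupL A (i + 1) f) ∧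
  (∀ (m i : ℕ) (f : Ten B), Hom m f → i + 1 ≤ m → eL A i (cupL A (i + 1) f) = cupL A i f) ∧
  (∀ (i l : ℕ) (f : Ten B), eL A (i + 2 + l) (cupL A i f) = cupL A i (eL A (i + l) f)) ∧
  (∀ (i l : ℕ) (f : Ten B), eL A i (cupL A (i + 2 + l) f) = cupL A (i + 2 + l) (eL A i f))

/-- RE2.  Temperley-Lieb relations.

Proof.  As REL, induction on `i`; base case by computation (`e_0 f (x :: y :: e) = cup2 x y F e` with
`F e = ∑_t cap1 t f (t :: -t :: e)`, and `e_1` of this as in REL (4)). -/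
def St_Re2 : Prop := ∀ (B : Type) [CommRing B] (A : Bˣ),
  (∀ (i : ℕ) (f : Ten B), eL A i (eL A i f) = loopv A • eL A i f) ∧
  (∀ (m i : ℕ) (f : Ten B), Hom m f → i + 3 ≤ m →
    eL A i (eL A (i + 1) (eL A i f)) = eL A i f ∧
    eL A (i + 1) (eL A i (eL A (i + 1) f)) = eL A (i + 1) f) ∧
  (∀ (i l : ℕ) (f : Ten B), eL A i (eL A (i + 2 + l) f) = eL A (i + 2 + l) (eL A i f))

/-- SL.  Crossings and cups.

Proof.  `X_i = a + a⁻¹ e_i`, `a = A^c`, `d = -a² - a⁻²` (`c = ± 1`).  (3): `a + a⁻¹ d = -a⁻³`.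
(4): `X_(i+1) cup_i f = a cup_i f + a⁻¹ cup_(i+1) f`;
`X_i` of it: `a (-a⁻³) cup_i f + a⁻¹ (a cup_(i+1) f + a⁻¹ cup_i f) = cup_(i+1) f`.  (5) the same.  (6), (7), (8) from REL, RE2.
(9): expand both sides, the usual computation with `e_i e_i = d e_i`, `e_i e_(i+1) e_i = e_i`. -/
def St_Sl : Prop := ∀ (B : Type) [CommRing B] (A : Bˣ) (c : ℤ), (c = 1 ∨ c = -1) →
  (∀ (m i : ℕ) (f : Ten B), Hom m f → Hom m (XL A c i f)) ∧
  (∀ (i : ℕ) (b : B) (f g : Ten B), XL A c i (b • f + g) = b • XL A c i f + XL A c i g) ∧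
  (∀ (i : ℕ) (f : Ten B),
    XL A c i (cupL A i f) = (-((A ^ (-3 * c) : Bˣ) : B)) • cupL A i f) ∧
  (∀ (m i : ℕ) (f : Ten B), Hom m f → i + 1 ≤ m →
    XL A c i (XL A c (i + 1) (cupL A i f)) = cupL A (i + 1) f) ∧
  (∀ (m i : ℕ) (f : Ten B), Hom m f → i + 1 ≤ m →
    XL A c (i + 1) (XL A c i (cupL A (i + 1) f)) = cupL A i f) ∧
  (∀ (i l : ℕ) (f : Ten B), XL A c (i + 2 + l) (cupL A i f) = cupL A i (XL A c (i + l) f)) ∧
  (∀ (i l : ℕ) (f : Ten B), XL A c i (cupL A (i + 2 + l) f) = cupL A (i + 2 + l) (XL A c i f)) ∧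
  (∀ (i l : ℕ) (f : Ten B), XL A c i (XL A c (i + 2 + l) f) = XL A c (i + 2 + l) (XL A c i f)) ∧
  (∀ (m i : ℕ) (f : Ten B), Hom m f → i + 3 ≤ m →
    XL A c i (XL A c (i + 1) (XL A c i f)) = XL A c (i + 1) (XL A c i (XL A c (i + 1) f)))

/-- SW.  The sweep `δ = X_0 X_1 ⋯ X_m` on `m + 2` strands.

Proof.  Degrees and linearity: induction on `l`.  (3): more generally for `j ≤ i`, `i + 2 ≤ j + l`, `i + 1 ≤ m`:
`sw c j l (cup_i f) = cup_(i+1) (sw c j (l-2) f)`.  `j = i`: `X_(i+2), …` pass `cup_i` as `X_i, …` (SL (6)) (lemma: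
`sw c (i+2) l (cup_i f) = cup_i (sw c i l f)`), then `X_i X_(i+1) cup_i g = cup_(i+1) g`.  `j < i`: `X_j cup_(i+1) g = cup_(i+1) X_j g`
(SL (7)).  (4): claim for `j ≤ m`: `sw c j (m+1-j) (sw c j (m-j) (cup_m f)) = - a⁻³ cup_j f`, downward induction on `j`.  `j = m`:
SL (3).  `j → j - 1`: `X_(j-1) [X_j (X_(j+1) ⋯ X_m)] X_(j-1) (X_j ⋯ X_(m-1)) cup_m f`; the second `X_(j-1)` commutes with
`X_(j+1), …, X_m` (SL (8)); braid relation SL (9): `X_(j-1) X_j X_(j-1) = X_j X_(j-1) X_j`; so `= X_j X_(j-1) (- a⁻³ cup_j f) =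
- a⁻³ cup_(j-1) f` (SL (5)).  Finally `sw c 0 (m+1) (cup_m f) = sw c 0 m (X_m cup_m f) = - a⁻³ sw c 0 m (cup_m f)` (lemma
`sw c j (l+1) f = sw c j l (X_(j+l) f)`). -/
def St_Sw : Prop := ∀ (B : Type) [CommRing B] (A : Bˣ) (c : ℤ), (c = 1 ∨ c = -1) →
  (∀ (m j l : ℕ) (f : Ten B), Hom m f → Hom m (sw A c j l f)) ∧
  (∀ (j l : ℕ) (b : B) (f g : Ten B),
    sw A c j l (b • f + g) = b • sw A c j l f + sw A c j l g) ∧
  (∀ (m i : ℕ) (f : Ten B), Hom m f → i + 1 ≤ m →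
    sw A c 0 (m + 1) (cupL A i f) = cupL A (i + 1) (sw A c 0 (m - 1) f)) ∧
  (∀ (m : ℕ) (f : Ten B), Hom m f →
    sw A c 0 (m + 1) (sw A c 0 (m + 1) (cupL A m f)) =
      ((A ^ (-6 * c) : Bˣ) : B) • cupL A 0 f)

/-- FTC.  A cup slides through the full twist.

Proof.  `δ = sw c 0 (m+1)` on `m + 2` strands, `δ'` on `m` strands.  By SW (3) `δ^(m-i) (cup_i f) = cup_m (δ'^(m-i) f)`, by SW (4)
`δ² cup_m g = A^(-6c) cup_0 g`, by SW (3) `δ^i cup_0 g = cup_i (δ'^i g)`; `(m - i) + 2 + i = m + 2`.  For `m = 0`: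
`X_0 X_0 cup_0 f = a⁻⁶ cup_0 f`. -/
def St_Ftc : Prop := ∀ (B : Type) [CommRing B] (A : Bˣ) (c : ℤ), (c = 1 ∨ c = -1) →
  (∀ (m N : ℕ) (f : Ten B), Hom m f → Hom m (FT A c N f)) ∧
  (∀ (N : ℕ) (b : B) (f g : Ten B), FT A c N (b • f + g) = b • FT A c N f + FT A c N g) ∧
  (∀ (m i : ℕ) (f : Ten B), Hom m f → i ≤ m →
    FT A c (m + 2) (cupL A i f) = ((A ^ (-6 * c) : Bˣ) : B) • cupL A i (FT A c m f))

/-! ### the basis -/

/-- VAL.  The basis vectors.

Proof.  (1) For every stack `st`: `val st (ins i t) e = cupL i (val st t) e`, induction on `i`: `ins 0 t = + :: - :: t` and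
`val st (+ :: - :: t) (x :: y :: e) = val (x :: st) (- :: t) (y :: e) = cup2 x y val st t e`; for `i + 1` both
sides unfold in the same way.  (2) `val st s e = 0` if the lengths of `s` and `e` differ.
(3) for every stack: `val st s e ≠ 0` implies `sm e + (sum of st) = sm s + (number of elements of st)`
(`cup2 h y ≠ 0` implies `y = -h`).  (4) `val [] (- ^ a ++ + ^ b) e`: the first `a` signs of `e` must be `-`, then all
the others are pushed and must be `+`. -/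
def St_Val : Prop := ∀ (B : Type) [CommRing B] (A : Bˣ),
  (∀ (i : ℕ) (t : List ℤˣ), i ≤ t.length → vL A (ins i t) = cupL A i (vL A t)) ∧
  (∀ s : List ℤˣ, Hom s.length (vL A s)) ∧
  (∀ s e : List ℤˣ, vL A s e ≠ 0 → sm e = sm s) ∧
  (∀ (a b : ℕ) (e : List ℤˣ),
    vL A (List.replicate a (-1) ++ List.replicate b 1) e =
      if e = List.replicate a (-1) ++ List.replicate b 1 then 1 else 0)

/-- CMB.  Sequences of signs.

Proof.  (1) a sequence without `+ -` is `- ⋯ - + ⋯ +` (induction).  (2) `unm h (ins i t) = unm h t` by induction on `i`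
(`unm h (+ :: - :: t) = unm (h+1) (- :: t) = unm h t`), the others similar; `po b (ins i t) = po b t + [i even iff b]`.
(3) `unm h (+ ^ b) = h + b`.  (4) `unm h s ≤ h + |s|`, `unm h s ≡ h + |s| mod 2`, `|sm s + h| ≤ unm h s`, or
`unm 0 s = a + b`, `sm s = b - a`.  (5) `take`, `drop`.  (6) the entry `i + 1` is `-`.
(7), (8): compare entries; (9): insert at `i` and at `j ≥ i`. -/
def St_Cmb : Prop :=
  (∀ s : List ℤˣ, (∃ i : ℕ, Jn i s) ∨
    ∃ a b : ℕ, s = List.replicate a (-1) ++ List.replicate b 1) ∧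
  (∀ (i : ℕ) (t : List ℤˣ), i ≤ t.length → (ins i t).length = t.length + 2 ∧
    mm (ins i t) = mm t ∧ sm (ins i t) = sm t ∧
    po true (ins i t) = po true t + if i % 2 = 0 then 1 else 0) ∧
  (∀ a b : ℕ, mm (List.replicate a (-1) ++ List.replicate b 1) = a + b) ∧
  (∀ s : List ℤˣ, mm s ≤ s.length ∧ mm s % 2 = s.length % 2 ∧ |sm s| ≤ mm s ∧
    (sm s - mm s) % 2 = 0) ∧
  (∀ (i : ℕ) (s : List ℤˣ), Jn i s ↔
    ∃ u w : List ℤˣ, u.length = i ∧ s = u ++ (1 : ℤˣ) :: (-1 : ℤˣ) :: w) ∧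
  (∀ (i : ℕ) (s : List ℤˣ), Jn i s → ¬ Jn (i + 1) s) ∧
  (∀ (i l : ℕ) (t : List ℤˣ), i ≤ t.length → (Jn (i + 2 + l) (ins i t) ↔ Jn (i + l) t)) ∧
  (∀ (i l : ℕ) (t : List ℤˣ), i + 2 + l ≤ t.length → (Jn i (ins (i + 2 + l) t) ↔ Jn i t)) ∧
  (∀ (i j : ℕ) (t : List ℤˣ), i ≤ j → j ≤ t.length → ins (j + 2) (ins i t) = ins i (ins j t))

/-- ACT.  The generators on the basis.

Proof.  Strong induction on `|s|`.  If `s = ins j t` (CMB (1)), `vL s = cup_j (vL t)` (VAL (1)).  `i = j`: joined, REL (3).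
`i = j + 1` (`i ≤ |t|`): not joined, REL (4): `= cup_(j+1) vL t = vL (ins i t)`, `mm` equal, the number of `+` at even places
changes by `[i even] - [j even] = pr i`.  `i + 1 = j`: the same with REL (5) (`Hom |t|`, `i + 1 = j ≤ |t|`).
`i = j + 2 + l`: `e_i cup_j vL t = cup_j e_(j+l) vL t`, `Jn i s ↔ Jn (j+l) t` (CMB (7)), and the claim for `t`, `j + l`: the new
sequence `ins (j+l) t'` becomes `ins j (ins (j+l) t') = ins i (ins j t')` (CMB (9)).  `j = i + 2 + l` the same with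
REL (7), CMB (8), `ins j (ins i t') = ins i (ins (j-2) t')`.  If `s = - ^ a ++ + ^ b` then `vL s` is the
delta function at `s`, not joined; `e_i` of it is `0` unless `s_i = -`, `s_(i+1) = +`, and then it is
`cap1 (-1)` times `cup_i` of the delta function at `t = s` without the two entries, `t = - ^(a-1) ++ + ^(b-1)`, `mm t + 2 = mm s`. -/
def St_Act : Prop := ∀ (B : Type) [CommRing B] (A : Bˣ) (s : List ℤˣ) (i : ℕ),
  i + 2 ≤ s.length →
  (Jn i s → eL A i (vL A s) = loopv A • vL A s) ∧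
  (¬ Jn i s → eL A i (vL A s) = 0 ∨
    ∃ t : List ℤˣ, i ≤ t.length ∧ t.length + 2 = s.length ∧ sm t = sm s ∧
      ((eL A i (vL A s) = vL A (ins i t) ∧ mm t = mm s ∧
          po true (ins i t) = po true s + pr i) ∨
        (mm t + 2 = mm s ∧ ∃ c : B, eL A i (vL A s) = c • vL A (ins i t))))

/-- SPN.  The vectors `vL s` form a basis.

Proof.  For every list `e` the delta function `δ_e` is in the span of the `vL s`, `|s| = |e|`: induction on `|e|`, then on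
the number of pairs (`+` before `-`) of `e`.  If `e = - ^ a ++ + ^ b`, `δ_e = vL e` (VAL (4)).  Otherwise `e = ins j e''`:
`cup_j δ_(e'') = -A² δ_e + δ_(e')`, `e'` has `- +` at `j`, so fewer such pairs; `δ_(e')` is in the span, and
`cup_j δ_(e'')` is in the span of the `cup_j (vL s'') = vL (ins j s'')`; `-A²` is a unit.  So
`1 = Vm * C` for some `C`, and `C * Vm = 1` for square matrices over a commutative ring (`Matrix.mul_eq_one_comm`). -/
def St_Spn : Prop := ∀ (B : Type) [CommRing B] (A : Bˣ) (n : ℕ),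
  ∃ C : Matrix (Spin n) (Spin n) B, Vm A n * C = 1 ∧ C * Vm A n = 1

/-- BR.  The matrices of the vertex model.

Proof.  `(turnM A a).mulVec F ε = ∑_τ turnM A a ε τ F τ` is `∑_t tlW A (ε a) t F (ε with t, -t at a, a+1)` if
`ε_(a+1) = -ε_a`, else `0` (`Per.tlM_mul`, Per/TL.lean, with one column, or the same proof); `tlW A x t = cup2 x (-x) cap1 t`.
On the list side induction on `a` (`List.ofFn` of `Fin.cons`, `List.ofFn_succ`).  Second: `letterM φ l = φ(T 1) 1 + φ(T (-1)) turnM`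
for a letter of kind `pos`, the other way round for `neg` (`Per.letterM`, see B4/Decomp `letterM_eq`), `Per.unitA_zpow`. -/
def St_Br : Prop :=
  (∀ (B : Type) [CommRing B] (A : Bˣ) (n : ℕ) (a : Fin n) (f : Ten B),
    (turnM A a).mulVec (fun ε => f (lst ε)) = fun ε => eL A (a : ℕ) f (lst ε)) ∧
  (∀ (n : ℕ) (l : Letter n) (f : Ten RR), l.kind ≠ .turn →
    (letterM (RingHom.id RR) l).mulVec (fun ε => f (lst ε)) =
      fun ε => XL AA l.kind.sgn (l.place : ℕ) f (lst ε))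

/-- TWA.  The full twist on the basis.

Proof.  `Low N m` is stable under `e_i` (`i + 2 ≤ N`) by ACT, so under `X_i`, `sw`, `FT` (`FT` on `N` strands uses only
the places `0, …, N - 2`).  Induction on `|s|`.  If `s = ins i t`, `|t| = N`: FTC:
`FT (N+2) (cup_i vL t) = A^(-6c) cup_i (FT N (vL t)) = A^(-6c) cup_i (ω' vL t + low)`, `mm s = mm t`, `ω' A^(-6c)` is the claimed
value (`-3 (N+2) = -3 N - 6`), and `cup_i` maps `Low N m` into `Low (N+2) m` (`cup_i vL t' = vL (ins i t')`, same `mm`).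
If `s = - ^ a ++ + ^ b`, `mm s = |s| = N`: by ACT (`s` is joined nowhere, and `mm t = mm s` is impossible
because `mm t ≤ |t| < |s|`) `e_i (vL s) ∈ Low N N`, so `X_i (vL s) = A^c vL s + low`; there are `N (N-1)` crossings:
`A^(c N (N-1))` and `N² + 2 N - 3 N = N (N-1)`. -/
def St_Twa : Prop := ∀ (B : Type) [CommRing B] (A : Bˣ) (c : ℤ), (c = 1 ∨ c = -1) →
  (∀ (N m i : ℕ) (f : Ten B), i + 2 ≤ N → f ∈ Low A N m →
    eL A i f ∈ Low A N m ∧ XL A c i f ∈ Low A N m) ∧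
  (∀ (N m : ℕ) (f : Ten B), f ∈ Low A N m → FT A c N f ∈ Low A N m) ∧
  ∀ s : List ℤˣ, FT A c s.length (vL A s) -
    ((A ^ (c * ((mm s : ℤ) ^ 2 + 2 * mm s - 3 * s.length)) : Bˣ) : B) • vL A s ∈
      Low A s.length (mm s)

/-! ### paths -/

/-- MV.  The moves.

Proof.  By SPN the vectors `vL (lst τ)` are linearly independent over `RR` (a domain), in particular `≠ 0` and different.
`Mv a ρ τ`: ACT for `s = lst ρ`, `i = a`: not `0`, not `c • vL (ins i t)` with `mm t + 2 = mm s` (`ins i t` has another `mm` than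
`τ`), so `lst τ = ins i t`.  Last claim: `ins i t` of length `n + 1` is `lst` of a spin state. -/
def St_Mv : Prop := ∀ (n : ℕ) (a : Fin n),
  (∀ ρ τ : Spin n, Mv a ρ τ → sm (lst τ) = sm (lst ρ) ∧ mm (lst τ) = mm (lst ρ) ∧
    po true (lst τ) = po true (lst ρ) + pr a ∧ Jn a (lst τ) ∧ ¬ Jn a (lst ρ)) ∧
  (∀ ρ τ τ' : Spin n, Mv a ρ τ → Mv a ρ τ' → τ = τ') ∧
  (∀ ρ : Spin n, ¬ Jn a (lst ρ) → (∃ τ, Mv a ρ τ) ∨
    eL AA (a : ℕ) (vL AA (lst ρ)) ∈ Low AA (n + 1) (mm (lst ρ)))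

/-- PW.  The operator of an alternating word on the basis.

Proof.  Induction on `L`; `L = []` clear.  Apply `X_l`, `l` at the place `i` with sign `e (pr i)` to the formula for `L`:
`Low` is stable (TWA).  On `vL ρ`: joined: `X = A^s (1 + A^(-2s) d)`, `s = e pr i`, `1 + A^(-2s) d = -A^(-4s) = (-1)^(pr i) T^(-4 e pr i)`,
the statistic grows by `pr i`; not joined: `X vL ρ = A^s (vL ρ + A^(-2s) vL τ)` if `Mv i ρ τ`,
`A^(-2s) = T^(-2 e (po τ - po ρ))` (MV (1)), or `A^s vL ρ + low` (MV (3)).  Collect the coefficient of `vL τ`: the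
recursion of `cnt`.  The sum over `a` may be taken over any interval that contains `[-|L|, |L|]`
(`cnt L τ σ a = 0` for `|a| > |L|`, induction). -/
def St_Pw : Prop := ∀ (n : ℕ) (e : ℤ) (L : List (Letter n)) (σ : Spin n), (e = 1 ∨ e = -1) →
  AltE e L →
  WL L (vL AA (lst σ)) - (T (L.map fun l => l.kind.sgn).sum : RR) •
    ∑ τ : Spin n, (∑ a ∈ Finset.Icc (-(L.length : ℤ)) L.length,
      (C ((((-1 : ℤˣ) ^ a : ℤˣ) : ℤ) * (cnt (L.map Letter.place) τ σ a : ℤ)) *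
        T (-4 * e * a - 2 * e * (po true (lst τ) - po true (lst σ))) : RR)) • vL AA (lst τ) ∈
    Low AA (n + 1) (mm (lst σ))

/-- CN.  The numbers of paths (AMENDED 16:25: (2), (3) only for words with all places, `n ≥ 2`).

Proof.  Induction on `L` for all `τ`, `σ`, with MV.  Strengthened claims, `P = ev L`, `Q = od L`, `p = po true`:
`cnt L τ σ a ≠ 0` implies `mm`, `sm` equal, `-Q ≤ a ≤ P`, `p τ - p σ ≤ P - a`, `p σ - p τ ≤ a + Q`; if `p τ = p σ` and
`cnt L τ σ P ≠ 0` then `τ = σ`; `cnt L σ σ P` is `1` if all even places of `L` are joined and all odd places of `L` are not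
joined in `σ`, else `0` (letter `i` even: `cnt (i :: L) τ σ (P+1) = [Jn i τ] cnt L τ σ P`; `i` odd and `p τ = p σ`:
`cnt (i :: L) τ σ P = [¬ Jn i τ] cnt L τ σ P`).  The same for `-Q`.  If all even places are joined then no odd place is (CMB (6)), and
conversely (`n ≥ 2` for the place `0`). -/
def St_Cn : Prop := ∀ (n : ℕ) (L : List (Fin n)),
  (∀ (τ σ : Spin n) (a : ℤ), cnt L τ σ a ≠ 0 → mm (lst τ) = mm (lst σ) ∧
    sm (lst τ) = sm (lst σ) ∧ -(od L : ℤ) ≤ a ∧ a ≤ ev L) ∧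
  (2 ≤ n → (∀ i : Fin n, i ∈ L) → ∀ σ : Spin n,
    (AllE σ → cnt L σ σ (ev L) = 1) ∧ (¬ AllE σ → cnt L σ σ (ev L) = 0) ∧
    (AllO σ → cnt L σ σ (-(od L : ℤ)) = 1) ∧ (¬ AllO σ → cnt L σ σ (-(od L : ℤ)) = 0))

/-- ROT.  The number of closed paths in a block does not change if the word is rotated.

Proof.  `cnt (L₁ ++ L₂) τ σ a = ∑_ρ ∑_b cnt L₁ τ ρ b cnt L₂ ρ σ (a - b)` (`b` in `[-M, M]`, `M ≥ |L₁|`), induction on `L₁`.
Then sum over `σ = τ` in the block and exchange `σ`, `ρ` (`ρ` is in the block by CN (1)) and `b`, `a - b`. -/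
def St_Rot : Prop := ∀ (n : ℕ) (L₁ L₂ : List (Fin n)) (m : ℕ) (x a : ℤ),
  ∑ σ ∈ Finset.univ.filter (fun σ : Spin n => mm (lst σ) = m ∧ sm (lst σ) = x),
      cnt (L₁ ++ L₂) σ σ a =
    ∑ σ ∈ Finset.univ.filter (fun σ : Spin n => mm (lst σ) = m ∧ sm (lst σ) = x),
      cnt (L₂ ++ L₁) σ σ a

/-- TOP.  The states joined at all even (odd) places.

Proof.  `N = n + 1` signs.  All even places joined: the list is `+ - + - ⋯`, and for odd `N` one more sign at the end,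
which is unmatched.  All odd places joined (`n ≥ 2`): a sign, then `+ - + - ⋯`, and for even `N` one more sign
at the end.  Values: `mm (+ - s) = mm s`, so `mm` and `sm` are those of the list of the remaining one or two signs:
`[x]`: `1`, `x`;  `[+, -]`: `0`, `0`;  `[-, +]`: `2`, `0`;  `[+, +]`: `2`, `2`;  `[-, -]`: `2`, `-2` (CMB (2) for the pairs
`+ -` at the places `1, 3, …`). -/
def St_Top : Prop := ∀ n : ℕ, 2 ≤ n →
  (n % 2 = 1 → (∃! σ : Spin n, AllE σ) ∧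
    ∀ σ : Spin n, AllE σ → mm (lst σ) = 0 ∧ sm (lst σ) = 0) ∧
  (n % 2 = 0 → (∀ x : ℤ, (x = 1 ∨ x = -1) → ∃! σ : Spin n, AllE σ ∧ sm (lst σ) = x) ∧
    ∀ σ : Spin n, AllE σ → mm (lst σ) = 1 ∧ (sm (lst σ) = 1 ∨ sm (lst σ) = -1)) ∧
  (n % 2 = 0 → (∀ x : ℤ, (x = 1 ∨ x = -1) → ∃! σ : Spin n, AllO σ ∧ sm (lst σ) = x) ∧
    ∀ σ : Spin n, AllO σ → mm (lst σ) = 1 ∧ (sm (lst σ) = 1 ∨ sm (lst σ) = -1)) ∧
  (n % 2 = 1 → (∃! σ : Spin n, AllO σ ∧ mm (lst σ) = 0) ∧
    (∃! σ : Spin n, AllO σ ∧ sm (lst σ) = 2) ∧ (∃! σ : Spin n, AllO σ ∧ sm (lst σ) = -2) ∧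
    ∀ σ : Spin n, AllO σ → (mm (lst σ) = 0 ∧ sm (lst σ) = 0) ∨
      (mm (lst σ) = 2 ∧ (sm (lst σ) = 2 ∨ sm (lst σ) = 0 ∨ sm (lst σ) = -2)))

/-- EX1.  An excursion from the state `+ - + - ⋯` by the place `1`.

Proof.  The letters at the places `0, 1, 2` of the cyclic word `L`: there is one at `1` and one at `0`, so somewhere (cyclically)
a letter at `1` is read and the next letter read at one of `0, 1, 2` is at `p = 0` or `2`.  Rotate (ROT), so that
`L = L₂ ++ [p] ++ L₁ ++ [1]`, no letter of `L₁` at `0, 1, 2` (the list is read from its end).  State `x` with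
`lst x = ins 0 t`, `t = + - + - ⋯` (and for even `n` the last sign arbitrary), `y` with `lst y = ins 1 t`: `Mv 1 x y`
(REL (4), VAL (1), CMB), `Mv 0 y x` (REL (5)) and `Mv 2 y x` if `n ≥ 3` (REL (4): `cup_2 vL t = vL (ins 2 t)` and
`ins 2 t = ins 0 t` as `t` begins with `+ -`).  `y = + + - - …`, from the place `4` on equal to `x`: the even places `≥ 4`
are joined in `y`, the odd places `≥ 3` are not (for `n = 2` there is nothing to check).  Staying
(`cnt L' z z (∑_{i ∈ L', Jn i z} pr i) ≥ 1`, and `cnt (i :: L') τ σ a ≥ cnt L' ρ σ a` if `Mv i ρ τ`) at `y` for `L₁` and at `x`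
for `L₂` gives a closed path with statistic `ev L - 1`. -/
def St_Ex1 : Prop := ∀ (n : ℕ) (L : List (Fin n)) (x : ℤ), 2 ≤ n → (∀ i : Fin n, i ∈ L) →
  ((n % 2 = 1 ∧ x = 0) ∨ (n % 2 = 0 ∧ (x = 1 ∨ x = -1))) →
  1 ≤ ∑ σ ∈ Finset.univ.filter
    (fun σ : Spin n => mm (lst σ) = (n + 1) % 2 ∧ sm (lst σ) = x), cnt L σ σ (ev L - 1)

/-- EX2.  An excursion from the state `z + - + - ⋯` by the place `0`.

Proof.  As EX1.  `n ≠ 3`: places `0`, `1`; rotate so that `L = L₂ ++ [1] ++ L₁ ++ [0]`, no letter of `L₁` at `0`, `1`.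
`x` with `lst x = ins 1 t`, `t = z :: (+ - + - ⋯)` (for odd `n` with `z = +` and a last sign `-`, which is `mm = 0`; for
even `n` the sign `z` is the prescribed sum), `y` with `lst y = ins 0 t = + - z + - …`: `Mv 0 x y` (REL (5)), `Mv 1 y x`
(REL (4)).  From the place `3` on `y` and `x` are equal: the odd places `≥ 3` are joined in `y`, the even places `≥ 2` are not
(place `2` of `y` is `z, +`, the others `- +`, and `- -` at the end for odd `n`).  Closed path with statistic `- (od L - 1)`.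
`n = 3`: `t = + -`, `x = ins 1 t = + + - -`, `y = ins 0 t = ins 2 t = + - + -`: rotate so that
`L = L₂ ++ [1] ++ [q]`, `q = 0` or `2` (a letter at `1` whose predecessor in the cyclic word is not at `1`), `Mv q x y`
(REL (5) for `q = 0`, REL (4) for `q = 2`), `Mv 1 y x`. -/
def St_Ex2 : Prop := ∀ (n : ℕ) (L : List (Fin n)) (x : ℤ), 2 ≤ n → (∀ i : Fin n, i ∈ L) →
  ((n % 2 = 1 ∧ x = 0) ∨ (n % 2 = 0 ∧ (x = 1 ∨ x = -1))) →
  1 ≤ ∑ σ ∈ Finset.univ.filter
    (fun σ : Spin n => mm (lst σ) = (n + 1) % 2 ∧ sm (lst σ) = x), cnt L σ σ (-(od L : ℤ) + 1)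

end Pool.Agent.TWB
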