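import Pool.Agent.Helper1.PK.Defs

/-!
# Full twists and alternating words
-/

namespace Pool.Agent.TWS

open Pool.Agent.Helper1.PK

variable {n : ℕ}

/-- The full twist on the strands `0, …, n`: the word `(σ_0 σ_1 ⋯ σ_(n-1)) ^ (n + 1)` in the
crossings at the places `0, …, n - 1`, all of the kind `κ`. -/
def fullTwist (n : ℕ) (κ : Kind) : List (Letter n) :=
  (List.replicate (n + 1) (List.ofFn fun a : Fin n => (⟨a, κ⟩ : Letter n))).flatten

/-- The word `L` is an alternating braid word: it has no turnbacks, and two letters are of the same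
kind if and only if their places have the same parity. -/
def Alternating (L : List (Letter n)) : Prop :=
  ∀ l ∈ L, l.kind ≠ .turn ∧ ∀ l' ∈ L, (l.kind = l'.kind ↔ ((l.place : ℕ) + l'.place) % 2 = 0)

end Pool.Agent.TWS
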